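import Mathlib

/-!
Point sets with a horizontal and a vertical order: domination, inversions, connected subsets,
isomorphism of subsets, and the notion of a rich point set.
-/

set_option linter.unusedVariables false
set_option linter.unusedSectionVars false

namespace Pool.Agent.Helper36.Indec

open Finset Classical

variable {α : Type} {p q : α → ℤ}

/-- `x` is to the left of and below `y` -/
def D (p q : α → ℤ) (x y : α) : Prop := p x < p y ∧ q x < q y

/-- `x` is to the left of and above `y` -/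
def V (p q : α → ℤ) (x y : α) : Prop := p x < p y ∧ q y < q x

/-- `x` and `y` form an inversion -/
def E (p q : α → ℤ) (x y : α) : Prop := V p q x y ∨ V p q y x

/-- sets that are connected by inversions, grown point by point -/
inductive Cn (p q : α → ℤ) : Finset α → Prop
  | single (x : α) : Cn p q {x}
  | ins {S : Finset α} {x y : α} : Cn p q S → y ∈ S → x ∉ S → E p q x y → Cn p q (insert x S)

/-- order isomorphism of two sets of points -/
def PIso (p q : α → ℤ) (S T : Finset α) : Prop :=
  ∃ e : α → α, Set.BijOn e S T ∧ ∀ x ∈ S, ∀ y ∈ S,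
    (p x < p y ↔ p (e x) < p (e y)) ∧ (q x < q y ↔ q (e x) < q (e y))

/-- there are at least `n - 1` non-isomorphic connected subsets with `n` elements -/
def Rich (p q : α → ℤ) (n : ℕ) : Prop :=
  ∃ F : Finset (Finset α), n ≤ F.card + 1 ∧ (∀ S ∈ F, S.card = n ∧ Cn p q S) ∧
    ∀ S ∈ F, ∀ T ∈ F, PIso p q S T → S = T

/-! ### symmetries -/

theorem E_symm {x y : α} (h : E p q x y) : E p q y x := Or.symm h

theorem E_swap {x y : α} : E q p x y ↔ E p q x y := by
  unfold E V; constructor <;> rintro (h | h) <;> tauto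

theorem E_neg {x y : α} : E (fun x => -q x) (fun x => -p x) x y ↔ E p q x y := by
  unfold E V; simp only [neg_lt_neg_iff]; constructor <;> rintro (h | h) <;> tauto

theorem D_swap {x y : α} : D q p x y ↔ D p q x y := by unfold D; tauto

theorem V_swap {x y : α} : V q p x y ↔ V p q y x := by unfold V; tauto

theorem D_neg {x y : α} : D (fun x => -q x) (fun x => -p x) x y ↔ D p q y x := by
  unfold D; simp only [neg_lt_neg_iff]; tauto

theorem V_neg {x y : α} : V (fun x => -q x) (fun x => -p x) x y ↔ V p q x y := by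
  unfold V; simp only [neg_lt_neg_iff]; tauto

theorem Cn_of_E {p' q' : α → ℤ} (h : ∀ x y, E p q x y → E p' q' x y) {S : Finset α}
    (hS : Cn p q S) : Cn p' q' S := by
  induction hS with
  | single x => exact Cn.single x
  | ins _ hy hx hE ih => exact Cn.ins ih hy hx (h _ _ hE)

theorem Rich_swap {n : ℕ} (h : Rich q p n) : Rich p q n := by
  obtain ⟨F, h1, h2, h3⟩ := h
  refine ⟨F, h1, fun S hS => ⟨(h2 S hS).1, Cn_of_E (fun x y => E_swap.1) (h2 S hS).2⟩, ?_⟩
  rintro S hS T hT ⟨e, he, h4⟩
  exact h3 S hS T hT ⟨e, he, fun x hx y hy => ⟨(h4 x hx y hy).2, (h4 x hx y hy).1⟩⟩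

theorem Rich_neg {n : ℕ} (h : Rich (fun x => -q x) (fun x => -p x) n) : Rich p q n := by
  obtain ⟨F, h1, h2, h3⟩ := h
  refine ⟨F, h1, fun S hS => ⟨(h2 S hS).1, Cn_of_E (fun x y => E_neg.1) (h2 S hS).2⟩, ?_⟩
  rintro S hS T hT ⟨e, he, h4⟩
  refine h3 S hS T hT ⟨e, he, fun x hx y hy => ?_⟩
  simp only [neg_lt_neg_iff]
  exact ⟨(h4 y hy x hx).2, (h4 y hy x hx).1⟩

theorem inj_neg (hp : Function.Injective p) : Function.Injective fun x => -p x :=
  fun x y h => hp (neg_injective h)

/-! ### isomorphisms -/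

theorem PIso.refl (S : Finset α) : PIso p q S S :=
  ⟨id, Set.bijOn_id _, fun x _ y _ => ⟨Iff.rfl, Iff.rfl⟩⟩

theorem iso_D {e : α → α} {S : Finset α} (h : ∀ x ∈ S, ∀ y ∈ S,
    (p x < p y ↔ p (e x) < p (e y)) ∧ (q x < q y ↔ q (e x) < q (e y))) {x y : α}
    (hx : x ∈ S) (hy : y ∈ S) : D p q x y ↔ D p q (e x) (e y) := by
  unfold D; rw [(h x hx y hy).1, (h x hx y hy).2]

theorem iso_V {e : α → α} {S : Finset α} (h : ∀ x ∈ S, ∀ y ∈ S,
    (p x < p y ↔ p (e x) < p (e y)) ∧ (q x < q y ↔ q (e x) < q (e y))) {x y : α}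
    (hx : x ∈ S) (hy : y ∈ S) : V p q x y ↔ V p q (e x) (e y) := by
  unfold V; rw [(h x hx y hy).1, (h y hy x hx).2]

theorem card_filter_iso {e : α → α} {S T : Finset α} (he : Set.BijOn e S T) {P Q : α → Prop}
    [DecidablePred P] [DecidablePred Q] (h : ∀ y ∈ S, P y ↔ Q (e y)) : (S.filter P).card = (T.filter Q).card := by
  refine Finset.card_bij (fun x _ => e x) ?_ ?_ ?_
  · intro a ha
    rw [mem_filter] at ha ⊢
    exact ⟨he.mapsTo ha.1, (h a ha.1).1 ha.2⟩
  · intro a ha b hb hab
    rw [mem_filter] at ha hb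
    exact he.injOn ha.1 hb.1 hab
  · intro b hb
    rw [mem_filter] at hb
    obtain ⟨a, ha, rfl⟩ := he.surjOn hb.1
    exact ⟨a, by rw [mem_filter]; exact ⟨ha, (h a ha).2 hb.2⟩, rfl⟩

/-! ### statistics -/

/-- the leftmost point of `S` exceeds exactly `k` points of `S` -/
def St (p q : α → ℤ) (S : Finset α) (k : ℕ) : Prop :=
  ∃ x ∈ S, (∀ y ∈ S, y ≠ x → p x < p y) ∧ (S.filter fun y => q y < q x).card = k

theorem St_iso {S T : Finset α} {k l : ℕ} (h : PIso p q S T) (hS : St p q S k)
    (hT : St p q T l) : k = l := by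
  obtain ⟨e, he, h⟩ := h
  obtain ⟨x, hx, h1, rfl⟩ := hS
  obtain ⟨y, hy, h2, rfl⟩ := hT
  have hxy : e x = y := by
    by_contra hne
    have h3 := h2 (e x) (he.mapsTo hx) hne
    obtain ⟨z, hz, rfl⟩ := he.surjOn hy
    have h4 := (h z hz x hx).1.2 h3
    by_cases h5 : z = x
    · subst h5; omega
    · have := h1 z hz h5
      omega
  subst hxy
  exact card_filter_iso he (P := fun z => q z < q x) (Q := fun z => q z < q (e x))
    fun z hz => (h z hz x hx).2

/-- number of pairs in the relation `R` -/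
noncomputable def cnt (R : α → α → Prop) (S : Finset α) : ℕ :=
  ∑ s ∈ S, (S.filter fun t => R s t).card

theorem cnt_iso {e : α → α} {S T : Finset α} (he : Set.BijOn e S T)
    {R : α → α → Prop} (h : ∀ x ∈ S, ∀ y ∈ S, R x y ↔ R (e x) (e y)) :
    cnt R S = cnt R T := by
  refine Finset.sum_bij (fun x _ => e x) ?_ ?_ ?_ ?_
  · intro a ha
    exact he.mapsTo ha
  · intro a ha b hb hab
    exact he.injOn ha hb hab
  · intro b hb
    obtain ⟨a, ha, rfl⟩ := he.surjOn hb
    exact ⟨a, ha, rfl⟩
  · intro a ha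
    exact card_filter_iso he (P := fun t => R a t) (Q := fun t => R (e a) t)
      fun y hy => h a ha y hy

theorem cnt_insert {R : α → α → Prop} (hR : ∀ x, ¬ R x x) {S : Finset α} {y : α} (hy : y ∉ S) :
    cnt R (insert y S) = cnt R S + (S.filter fun t => R y t).card +
      (S.filter fun t => R t y).card := by
  unfold cnt
  rw [sum_insert hy, filter_insert, if_neg (hR y)]
  have : ∀ s ∈ S, ((insert y S).filter fun t => R s t).card =
      (S.filter fun t => R s t).card + if R s y then 1 else 0 := by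
    intro s hs
    rw [filter_insert]
    split_ifs with h
    · rw [card_insert_of_notMem]
      rw [mem_filter, not_and_or]
      exact Or.inl hy
    · rfl
  rw [sum_congr rfl this, sum_add_distrib, card_filter (fun t => R t y)]
  ring

theorem cnt_eq_zero {R : α → α → Prop} {S : Finset α} (h : ∀ x ∈ S, ∀ y ∈ S, ¬ R x y) :
    cnt R S = 0 := by
  unfold cnt
  refine sum_eq_zero fun x hx => ?_
  rw [card_eq_zero, filter_eq_empty_iff]
  exact fun y hy => h x hx y hy

theorem inv_iso {S T : Finset α} (h : PIso p q S T) : cnt (V p q) S = cnt (V p q) T := by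
  obtain ⟨e, he, h⟩ := h
  exact cnt_iso he fun x hx y hy => iso_V h hx hy

theorem dc_iso {S T : Finset α} (h : PIso p q S T) : cnt (D p q) S = cnt (D p q) T := by
  obtain ⟨e, he, h⟩ := h
  exact cnt_iso he fun x hx y hy => iso_D h hx hy

theorem inv_insert {S : Finset α} {y : α} (hy : y ∉ S) :
    cnt (V p q) (insert y S) = cnt (V p q) S + (S.filter fun t => E p q y t).card := by
  rw [cnt_insert (fun x => by unfold V; omega) hy, add_assoc, ← card_union_of_disjoint]
  · congr 2
    ext t
    simp only [mem_union, mem_filter]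
    unfold E
    tauto
  · rw [disjoint_filter]
    intro x _ h1 h2
    unfold V at h1 h2
    omega

theorem dc_insert (hp : Function.Injective p) (hq : Function.Injective q) {S : Finset α} {y : α}
    (hy : y ∉ S) :
    cnt (D p q) (insert y S) = cnt (D p q) S + (S.filter fun t => ¬ E p q y t).card := by
  rw [cnt_insert (fun x => by unfold D; omega) hy, add_assoc, ← card_union_of_disjoint]
  · congr 2
    ext t
    simp only [mem_union, mem_filter]
    constructor
    · rintro (⟨h1, h2⟩ | ⟨h1, h2⟩)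
      · refine ⟨h1, ?_⟩
        unfold D at h2; unfold E V; omega
      · refine ⟨h1, ?_⟩
        unfold D at h2; unfold E V; omega
    · rintro ⟨h1, h2⟩
      have hne : y ≠ t := by rintro rfl; exact hy h1
      have h3 : p y ≠ p t := fun e => hne (hp e)
      have h4 : q y ≠ q t := fun e => hne (hq e)
      unfold E V at h2
      unfold D
      rcases lt_or_gt_of_ne h3 with h5 | h5
      · left; exact ⟨h1, by omega⟩
      · right; exact ⟨h1, by omega⟩
  · rw [disjoint_filter]
    intro x _ h1 h2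
    unfold D at h1 h2
    omega

/-- number of points that are left-above both points of a non-inversion -/
noncomputable def KV (p q : α → ℤ) (S : Finset α) : ℕ :=
  (S.filter fun y => ∃ s ∈ S, ∃ t ∈ S, V p q y s ∧ V p q y t ∧ D p q s t).card

/-- number of points that are left-below both points of an inversion -/
noncomputable def KD (p q : α → ℤ) (S : Finset α) : ℕ :=
  (S.filter fun y => ∃ s ∈ S, ∃ t ∈ S, D p q y s ∧ D p q y t ∧ V p q s t).card

theorem KV_eq {S K : Finset α}
    (h : ∀ y, (y ∈ S ∧ ∃ s ∈ S, ∃ t ∈ S, V p q y s ∧ V p q y t ∧ D p q s t) ↔ y ∈ K) :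
    KV p q S = K.card := by
  unfold KV
  congr 1
  ext y
  rw [mem_filter]
  exact h y

theorem KD_eq {S K : Finset α}
    (h : ∀ y, (y ∈ S ∧ ∃ s ∈ S, ∃ t ∈ S, D p q y s ∧ D p q y t ∧ V p q s t) ↔ y ∈ K) :
    KD p q S = K.card := by
  unfold KD
  congr 1
  ext y
  rw [mem_filter]
  exact h y

theorem KV_iso {S T : Finset α} (h : PIso p q S T) : KV p q S = KV p q T := by
  obtain ⟨e, he, h⟩ := h
  refine card_filter_iso he (P := fun y => ∃ s ∈ S, ∃ t ∈ S, V p q y s ∧ V p q y t ∧ D p q s t)
    (Q := fun y => ∃ s ∈ T, ∃ t ∈ T, V p q y s ∧ V p q y t ∧ D p q s t) fun y hy => ?_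
  constructor
  · rintro ⟨s, hs, t, ht, h1, h2, h3⟩
    exact ⟨e s, he.mapsTo hs, e t, he.mapsTo ht, (iso_V h hy hs).1 h1, (iso_V h hy ht).1 h2,
      (iso_D h hs ht).1 h3⟩
  · rintro ⟨s, hs, t, ht, h1, h2, h3⟩
    obtain ⟨s, hs', rfl⟩ := he.surjOn hs
    obtain ⟨t, ht', rfl⟩ := he.surjOn ht
    exact ⟨s, hs', t, ht', (iso_V h hy hs').2 h1, (iso_V h hy ht').2 h2,
      (iso_D h hs' ht').2 h3⟩

theorem KD_iso {S T : Finset α} (h : PIso p q S T) : KD p q S = KD p q T := by
  obtain ⟨e, he, h⟩ := h
  refine card_filter_iso he (P := fun y => ∃ s ∈ S, ∃ t ∈ S, D p q y s ∧ D p q y t ∧ V p q s t)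
    (Q := fun y => ∃ s ∈ T, ∃ t ∈ T, D p q y s ∧ D p q y t ∧ V p q s t) fun y hy => ?_
  constructor
  · rintro ⟨s, hs, t, ht, h1, h2, h3⟩
    exact ⟨e s, he.mapsTo hs, e t, he.mapsTo ht, (iso_D h hy hs).1 h1, (iso_D h hy ht).1 h2,
      (iso_V h hs ht).1 h3⟩
  · rintro ⟨s, hs, t, ht, h1, h2, h3⟩
    obtain ⟨s, hs', rfl⟩ := he.surjOn hs
    obtain ⟨t, ht', rfl⟩ := he.surjOn ht
    exact ⟨s, hs', t, ht', (iso_D h hy hs').2 h1, (iso_D h hy ht').2 h2,
      (iso_V h hs' ht').2 h3⟩

/-- some point of `S` has at least three neighbours in `S` and at least `c` points of `S` to its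
left and below -/
def Hd (p q : α → ℤ) (S : Finset α) (c : ℕ) : Prop :=
  ∃ y ∈ S, 3 ≤ (S.filter fun z => E p q y z).card ∧ c ≤ (S.filter fun z => D p q z y).card

theorem Hd_iso {S T : Finset α} {c : ℕ} (h : PIso p q S T) (hS : Hd p q S c) : Hd p q T c := by
  obtain ⟨e, he, h⟩ := h
  obtain ⟨y, hy, h1, h2⟩ := hS
  refine ⟨e y, he.mapsTo hy, ?_, ?_⟩
  · rwa [← card_filter_iso he (P := fun z => E p q y z) fun z hz => by
      unfold E; rw [iso_V h hy hz, iso_V h hz hy]]
  · rwa [← card_filter_iso he (P := fun z => D p q z y) fun z hz => iso_D h hz hy]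

/-- a way to prove richness -/
theorem Rich_of {ι : Type} (I : Finset ι) (F : ι → Finset α) {n : ℕ} (hI : n ≤ I.card + 1)
    (hF : ∀ i ∈ I, (F i).card = n ∧ Cn p q (F i))
    (hd : ∀ i ∈ I, ∀ j ∈ I, PIso p q (F i) (F j) → i = j) : Rich p q n := by
  refine ⟨I.image F, ?_, ?_, ?_⟩
  · rw [card_image_of_injOn]
    · exact hI
    · intro i hi j hj hij
      exact hd i hi j hj (by
        have : F i = F j := hij
        rw [this]; exact PIso.refl _)
  · intro S hS
    obtain ⟨i, hi, rfl⟩ := mem_image.1 hS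
    exact hF i hi
  · intro S hS T hT h
    obtain ⟨i, hi, rfl⟩ := mem_image.1 hS
    obtain ⟨j, hj, rfl⟩ := mem_image.1 hT
    rw [hd i hi j hj h]

/-- a subset with `k` elements -/
noncomputable def sub (Y : Finset α) (k : ℕ) : Finset α :=
  if h : k ≤ Y.card then (exists_subset_card_eq h).choose else ∅

theorem sub_subset (Y : Finset α) (k : ℕ) : sub Y k ⊆ Y := by
  unfold sub
  split_ifs with h
  · exact (exists_subset_card_eq h).choose_spec.1
  · exact empty_subset _

theorem card_sub {Y : Finset α} {k : ℕ} (h : k ≤ Y.card) : (sub Y k).card = k := by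
  unfold sub
  rw [dif_pos h]
  exact (exists_subset_card_eq h).choose_spec.2

theorem sub_nonempty {Y : Finset α} {k : ℕ} (h : k ≤ Y.card) (hk : 0 < k) :
    (sub Y k).Nonempty := by
  rw [← card_pos, card_sub h]; exact hk

/-! ### connected sets -/

theorem Cn_union {S K : Finset α} {y : α} (hS : Cn p q S) (hy : y ∈ S)
    (hK : ∀ x ∈ K, x ∉ S → E p q x y) : Cn p q (S ∪ K) := by
  induction K using Finset.induction_on with
  | empty => simpa using hS
  | insert a K ha ih =>
    have h1 := ih fun x hx => hK x (mem_insert_of_mem hx)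
    rw [union_insert]
    by_cases h : a ∈ S ∪ K
    · rwa [insert_eq_of_mem h]
    · refine Cn.ins h1 (mem_union_left _ hy) h ?_
      rw [mem_union, not_or] at h
      exact hK a (mem_insert_self _ _) h.1

theorem Cn_star {S : Finset α} {y : α} (hy : y ∈ S) (hS : ∀ x ∈ S, x ≠ y → E p q x y) :
    Cn p q S := by
  have : S = {y} ∪ S := by
    rw [eq_comm, union_eq_right, singleton_subset_iff]; exact hy
  rw [this]
  refine Cn_union (Cn.single y) (mem_singleton_self y) fun x hx hxy => hS x hx ?_
  simpa using hxy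

theorem Cn.nonempty {S : Finset α} (h : Cn p q S) : S.Nonempty := by
  induction h with
  | single x => exact singleton_nonempty x
  | ins _ _ _ _ _ => exact insert_nonempty _ _

/-- a connected set has an inversion across every cut -/
theorem Cn.cut {S : Finset α} (h : Cn p q S) {T : Finset α} (hT : T ⊆ S) (h1 : T.Nonempty)
    (h2 : T ≠ S) : ∃ x ∈ T, ∃ y ∈ S, y ∉ T ∧ E p q x y := by
  induction h generalizing T with
  | single x =>
    exfalso
    rcases subset_singleton_iff.1 hT with h | h
    · rw [h] at h1; exact not_nonempty_empty h1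
    · exact h2 h
  | @ins S x y hS hy hx hE ih =>
    by_cases hxT : x ∈ T
    · by_cases hTS : T ∩ S = S
      · exfalso
        apply h2
        apply subset_antisymm hT
        rw [insert_subset_iff]
        exact ⟨hxT, by rw [← hTS]; exact inter_subset_left⟩
      · by_cases hne : (T ∩ S).Nonempty
        · obtain ⟨a, ha, b, hb, hb2, hab⟩ := ih inter_subset_right hne hTS
          refine ⟨a, (mem_inter.1 ha).1, b, mem_insert_of_mem hb, ?_, hab⟩
          intro hbT
          exact hb2 (mem_inter.2 ⟨hbT, hb⟩)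
        · rw [not_nonempty_iff_eq_empty] at hne
          refine ⟨x, hxT, y, mem_insert_of_mem hy, ?_, hE⟩
          intro hyT
          have : y ∈ T ∩ S := mem_inter.2 ⟨hyT, hy⟩
          rw [hne] at this
          simp at this
    · have hTS : T ⊆ S := by
        intro a ha
        rcases mem_insert.1 (hT ha) with rfl | h
        · exact absurd ha hxT
        · exact h
      by_cases hEq : T = S
      · refine ⟨y, by rw [hEq]; exact hy, x, mem_insert_self _ _, hxT, E_symm hE⟩
      · obtain ⟨a, ha, b, hb, hb2, hab⟩ := ih hTS h1 hEq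
        exact ⟨a, ha, b, mem_insert_of_mem hb, hb2, hab⟩

end Pool.Agent.Helper36.Indec
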