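import Pool.Agent.Helper36.Indec.Struct

/-!
A maximal long module has a bounded complement.
-/

set_option linter.unusedVariables false
set_option linter.unusedSectionVars false

namespace Pool.Agent.Helper36.Indec

open Finset Classical

variable {α : Type} [Fintype α] {p q : α → ℤ}

/-- `H` is a decreasing module of maximal size -/
def MaxV (p q : α → ℤ) (H : Finset α) : Prop :=
  VC p q H ∧ Md p q H ∧ ∀ K, VC p q K → Md p q K → K.card ≤ H.card

/-- `H` is an increasing module of maximal size -/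
def MaxD (p q : α → ℤ) (H : Finset α) : Prop :=
  DC p q H ∧ Md p q H ∧ ∀ K, DC p q K → Md p q K → K.card ≤ H.card

theorem MaxV.swap {H : Finset α} (h : MaxV p q H) : MaxV q p H :=
  ⟨VC_swap.2 h.1, Md_swap.2 h.2.1, fun K h1 h2 => h.2.2 K (VC_swap.1 h1) (Md_swap.1 h2)⟩

theorem MaxV.neg {H : Finset α} (h : MaxV p q H) : MaxV (fun x => -q x) (fun x => -p x) H :=
  ⟨VC_neg.2 h.1, Md_neg.2 h.2.1, fun K h1 h2 => h.2.2 K (VC_neg.1 h1) (Md_neg.1 h2)⟩

theorem MaxD.swap {H : Finset α} (h : MaxD p q H) : MaxD q p H :=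
  ⟨DC_swap.2 h.1, Md_swap.2 h.2.1, fun K h1 h2 => h.2.2 K (DC_swap.1 h1) (Md_swap.1 h2)⟩

theorem MaxD.neg {H : Finset α} (h : MaxD p q H) : MaxD (fun x => -q x) (fun x => -p x) H :=
  ⟨DC_neg.2 h.1, Md_neg.2 h.2.1, fun K h1 h2 => h.2.2 K (DC_neg.1 h1) (Md_neg.1 h2)⟩

theorem exists_MaxV (p q : α → ℤ) {M : Finset α} (h1 : VC p q M) (h2 : Md p q M) :
    ∃ H, MaxV p q H ∧ M.card ≤ H.card := by
  obtain ⟨H, hH, hmax⟩ := exists_max_image (univ.filter fun H => VC p q H ∧ Md p q H) card
    ⟨M, by rw [mem_filter]; exact ⟨mem_univ _, h1, h2⟩⟩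
  rw [mem_filter] at hH
  refine ⟨H, ⟨hH.2.1, hH.2.2, fun K h3 h4 => hmax K ?_⟩, hmax M ?_⟩
  · rw [mem_filter]; exact ⟨mem_univ _, h3, h4⟩
  · rw [mem_filter]; exact ⟨mem_univ _, h1, h2⟩

theorem exists_MaxD (p q : α → ℤ) {M : Finset α} (h1 : DC p q M) (h2 : Md p q M) :
    ∃ H, MaxD p q H ∧ M.card ≤ H.card := by
  obtain ⟨H, hH, hmax⟩ := exists_max_image (univ.filter fun H => DC p q H ∧ Md p q H) card
    ⟨M, by rw [mem_filter]; exact ⟨mem_univ _, h1, h2⟩⟩
  rw [mem_filter] at hH
  refine ⟨H, ⟨hH.2.1, hH.2.2, fun K h3 h4 => hmax K ?_⟩, hmax M ?_⟩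
  · rw [mem_filter]; exact ⟨mem_univ _, h3, h4⟩
  · rw [mem_filter]; exact ⟨mem_univ _, h1, h2⟩

theorem not_Rich_swap {n : ℕ} (h : ¬ Rich p q n) : ¬ Rich q p n := fun h' => h (Rich_swap h')

theorem not_Rich_neg {n : ℕ} (h : ¬ Rich p q n) :
    ¬ Rich (fun x => -q x) (fun x => -p x) n := fun h' => h (Rich_neg h')

/-- a maximal decreasing chain through a long decreasing set -/
theorem exists_chainV (hp : Function.Injective p) (hq : Function.Injective q) {n : ℕ}
    (hn : 3 ≤ n) (hR : ¬ Rich p q n) {S : Finset α} (hS : VC p q S) :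
    ∃ T, S ⊆ T ∧ VC p q T ∧ Md p q (mid (V p q) T (2 * n)) := by
  obtain ⟨T, hST, hT, hmax⟩ := exists_max_set (P := fun T => VC p q T) hS
  refine ⟨T, hST, hT, md_V hp hq hn hR hT fun x hx => ?_⟩
  by_contra h
  push Not at h
  apply hmax x hx
  intro y hy z hz hyz
  rcases mem_insert.1 hy with hyx | hy'
  · rcases mem_insert.1 hz with hzx | hz'
    · exact absurd (hyx.trans hzx.symm) hyz
    · rw [hyx]; exact h z hz'
  · rcases mem_insert.1 hz with hzx | hz'
    · rw [hzx]; exact E_symm (h y hy')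
    · exact hT y hy' z hz' hyz

/-- a maximal increasing chain right-below a point -/
theorem exists_chainD (hp : Function.Injective p) (hq : Function.Injective q) {n : ℕ}
    (hn : 3 ≤ n) (hR : ¬ Rich p q n) {S : Finset α} (hS : DC p q S) {v : α}
    (hv : ∀ z ∈ S, V p q v z) :
    ∃ T, S ⊆ T ∧ DC p q T ∧ (∀ z ∈ T, V p q v z) ∧ Md p q (mid (D p q) T (2 * n)) := by
  obtain ⟨T, hST, ⟨hT, hvT⟩, hmax⟩ :=
    exists_max_set (P := fun T => DC p q T ∧ ∀ z ∈ T, V p q v z) ⟨hS, hv⟩
  refine ⟨T, hST, hT, hvT, md_D hp hq hn hR hT hvT fun x hx hvx => ?_⟩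
  by_contra h
  push Not at h
  apply hmax x hx
  constructor
  · intro y hy z hz hyz
    rcases mem_insert.1 hy with hyx | hy'
    · rcases mem_insert.1 hz with hzx | hz'
      · exact absurd (hyx.trans hzx.symm) hyz
      · rw [hyx]; exact h z hz'
    · rcases mem_insert.1 hz with hzx | hz'
      · rw [hzx]; exact fun h' => h y hy' (E_symm h')
      · exact hT y hy' z hz' hyz
  · intro z hz
    rcases mem_insert.1 hz with hzx | hz'
    · rw [hzx]; exact hvx
    · exact hvT z hz'

/-- two long parts of a chain, `A` before `B`: the last element of `A` and the first of `B` are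
both in the middle -/
theorem mid_meet {R : α → α → Prop} (hirr : ∀ x, ¬ R x x) {T A B : Finset α} {k : ℕ}
    (htr : ∀ x y z, R x y → R y z → R x z)
    (hA : A ⊆ T) (hB : B ⊆ T) (hAB : ∀ a ∈ A, ∀ b ∈ B, R a b)
    (htot : ∀ x ∈ T, ∀ y ∈ T, x ≠ y → R x y ∨ R y x)
    (hAk : k + 1 ≤ A.card) (hBk : k + 1 ≤ B.card) :
    (∃ a ∈ A, a ∈ mid R T k) ∧ ∃ b ∈ B, b ∈ mid R T k := by
  constructor
  · -- last element of `A`
    obtain ⟨a, ha, hmax⟩ := exists_max_image A (lo R T) (by rw [← card_pos]; omega)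
    refine ⟨a, ha, ?_⟩
    have h1 : ∀ x ∈ A, x ≠ a → R x a := by
      intro x hx hne
      rcases htot x (hA hx) a (hA ha) hne with h | h
      · exact h
      · have := lo_lt htr hirr (hA ha) h
        have := hmax x hx
        omega
    simp only [mid, mem_filter]
    refine ⟨hA ha, ?_, ?_⟩
    · calc k ≤ (A.erase a).card := by rw [card_erase_of_mem ha]; omega
        _ ≤ lo R T a := by
          apply card_le_card
          intro x hx
          rw [mem_erase] at hx
          rw [mem_filter]
          exact ⟨hA hx.2, h1 x hx.2 hx.1⟩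
    · calc k ≤ B.card := by omega
        _ ≤ up R T a := by
          apply card_le_card
          intro x hx
          rw [mem_filter]
          exact ⟨hB hx, hAB a ha x hx⟩
  · obtain ⟨b, hb, hmax⟩ := exists_max_image B (up R T) (by rw [← card_pos]; omega)
    refine ⟨b, hb, ?_⟩
    have h1 : ∀ x ∈ B, x ≠ b → R b x := by
      intro x hx hne
      rcases htot x (hB hx) b (hB hb) hne with h | h
      · have := up_lt htr hirr (hB hb) h
        have := hmax x hx
        omega
      · exact h
    simp only [mid, mem_filter]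
    refine ⟨hB hb, ?_, ?_⟩
    · calc k ≤ A.card := by omega
        _ ≤ lo R T b := by
          apply card_le_card
          intro x hx
          rw [mem_filter]
          exact ⟨hA hx, hAB x hx b hb⟩
    · calc k ≤ (B.erase b).card := by rw [card_erase_of_mem hb]; omega
        _ ≤ up R T b := by
          apply card_le_card
          intro x hx
          rw [mem_erase] at hx
          rw [mem_filter]
          exact ⟨hB hx.2, h1 x hx.2 hx.1⟩

/-- number of points left-above a maximal decreasing module -/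
theorem adjV_left (hp : Function.Injective p) (hq : Function.Injective q) {n : ℕ} (hn : 3 ≤ n)
    (hR : ¬ Rich p q n) {H : Finset α} (hH : MaxV p q H) (hHn : 2 * n + 1 ≤ H.card) :
    (univ.filter fun x => ∀ h ∈ H, V p q x h).card < 2 ^ (3 * n + 1) := by
  by_contra hcon
  rw [not_lt] at hcon
  rcases ramsey p q (3 * n + 1) (2 * n + 1) n (by omega) _ hcon with
    ⟨W, hW, hWV, hWc⟩ | ⟨W, hW, hWD, hWc⟩
  · have hW' : ∀ w ∈ W, ∀ h ∈ H, V p q w h := fun w hw => (mem_filter.1 (hW hw)).2
    have hun : VC p q (W ∪ H) := by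
      intro x hx y hy hxy
      rcases mem_union.1 hx with hx | hx <;> rcases mem_union.1 hy with hy | hy
      · exact hWV x hx y hy hxy
      · exact Or.inl (hW' x hx y hy)
      · exact Or.inr (hW' y hy x hx)
      · exact hH.1 x hx y hy hxy
    obtain ⟨T, hST, hT, hMd⟩ := exists_chainV hp hq hn hR hun
    obtain ⟨⟨w, hw, hwM⟩, ⟨h, hh, hhM⟩⟩ := mid_meet (R := V p q) V_irrefl (k := 2 * n) V_trans
      (subset_union_left.trans hST) (subset_union_right.trans hST) hW' hT.total
      (by omega) (by omega)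
    have h1 : Md p q (H ∪ mid (V p q) T (2 * n)) := hH.2.1.union hMd hh hhM
    have h2 : VC p q (H ∪ mid (V p q) T (2 * n)) :=
      hT.mono (union_subset (subset_union_right.trans hST) (filter_subset _ _))
    have h3 := hH.2.2 _ h2 h1
    have h4 : (insert w H).card ≤ (H ∪ mid (V p q) T (2 * n)).card := by
      apply card_le_card
      rw [insert_subset_iff]
      exact ⟨mem_union_right _ hwM, subset_union_left⟩
    rw [card_insert_of_notMem fun h => V_irrefl _ (hW' w hw w h)] at h4
    omega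
  · apply hR
    exact fam_bip hp hq (by omega) (by omega) (by omega) hWD
      fun w hw => (mem_filter.1 (hW hw)).2

/-- the points adjacent to a module -/
theorem adj_cases {H : Finset α} (hH : Md p q H) (hne : H.Nonempty) {x : α}
    (hx : ∀ h ∈ H, E p q x h) : (∀ h ∈ H, V p q x h) ∨ (∀ h ∈ H, V p q h x) := by
  obtain ⟨h0, hh0⟩ := hne
  have hxH : x ∉ H := fun h => by have := hx x h; unfold E V at this; omega
  have h1 := hx h0 hh0
  rcases hH x hxH with h | h | h | h
  · have := h h0 hh0; unfold E V at h1; unfold D at this; omega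
  · have := h h0 hh0; unfold E V at h1; unfold D at this; omega
  · exact Or.inl h
  · exact Or.inr h

theorem md_cases {H : Finset α} (hH : Md p q H) (hne : H.Nonempty) {x : α} (hx : x ∉ H) :
    (∀ h ∈ H, D p q x h) ∨ (∀ h ∈ H, D p q h x) ∨ (∀ h ∈ H, E p q x h) := by
  rcases hH x hx with h | h | h | h
  · exact Or.inl h
  · exact Or.inr (Or.inl h)
  · exact Or.inr (Or.inr fun y hy => Or.inl (h y hy))
  · exact Or.inr (Or.inr fun y hy => Or.inr (h y hy))

theorem adjV (hp : Function.Injective p) (hq : Function.Injective q) {n : ℕ} (hn : 3 ≤ n)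
    (hR : ¬ Rich p q n) {H : Finset α} (hH : MaxV p q H) (hHn : 2 * n + 1 ≤ H.card) :
    (univ.filter fun x => ∀ h ∈ H, E p q x h).card ≤ 2 ^ (3 * n + 2) := by
  have h1 := adjV_left hp hq hn hR hH hHn
  have h2 := adjV_left hq hp hn (not_Rich_swap hR) hH.swap hHn
  have hne : H.Nonempty := by rw [← card_pos]; omega
  have h3 : (univ.filter fun x => ∀ h ∈ H, E p q x h) ⊆
      (univ.filter fun x => ∀ h ∈ H, V p q x h) ∪ (univ.filter fun x => ∀ h ∈ H, V q p x h) := by
    intro x hx
    simp only [mem_union, mem_filter, mem_univ, true_and] at hx ⊢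
    rcases adj_cases hH.2.1 hne hx with h | h
    · exact Or.inl h
    · exact Or.inr fun y hy => V_swap.2 (h y hy)
  have h4 := card_le_card h3
  have h5 := card_union_le (univ.filter fun x => ∀ h ∈ H, V p q x h)
    (univ.filter fun x => ∀ h ∈ H, V q p x h)
  have h6 : 2 ^ (3 * n + 2) = 2 ^ (3 * n + 1) + 2 ^ (3 * n + 1) := by ring
  omega

theorem card_biUnion_le' {X : Finset α} {W : α → Finset α} {k : ℕ}
    (h : ∀ x ∈ X, (W x).card ≤ k) : (X.biUnion W).card ≤ X.card * k :=
  card_biUnion_le_card_mul _ _ _ h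

/-- number of points right-above a maximal decreasing module -/
theorem aboveV (hp : Function.Injective p) (hq : Function.Injective q) {n : ℕ} (hn : 3 ≤ n)
    (hR : ¬ Rich p q n) (hconn : Conn p q) {H : Finset α} (hH : MaxV p q H)
    (hHn : 2 * n + 1 ≤ H.card) :
    (univ.filter fun x => ∀ h ∈ H, D p q h x).card ≤ 2 ^ (3 * n + 2) * n := by
  have hne : H.Nonempty := by rw [← card_pos]; omega
  obtain ⟨h0, hh0⟩ := id hne
  set U := univ.filter fun x => ∀ h ∈ H, D p q h x with hU
  set X := univ.filter fun x => ∀ h ∈ H, E p q x h with hX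
  have hU' : ∀ u ∈ U, ∀ h ∈ H, D p q h u := fun u hu => (mem_filter.1 hu).2
  have hX' : ∀ x ∈ X, ∀ h ∈ H, E p q x h := fun u hu => (mem_filter.1 hu).2
  have key : ∀ x ∈ X, ∃ W : Finset α, x ∈ W ∧ W.card < n - 1 ∧
      ∀ u ∈ U, ∀ w ∈ W, E p q u w → u ∈ W := by
    intro x hx
    have hxU : x ∉ U := fun h => by
      have e1 := hU' x h h0 hh0
      have e2 := hX' x hx h0 hh0
      unfold D at e1; unfold E V at e2; omega
    rcases grow_or_closed p q U x hxU (n - 1) (by omega) with ⟨t, ht, ht0, htU⟩ | hW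
    · exfalso
      rcases adj_cases hH.2.1 hne (hX' x hx) with h | h
      · apply not_Rich_swap hR
        refine fam_seqV hq hp (by omega) (H := H) (VC_swap.2 hH.1) (by omega) (t := t)
          ⟨ht.1, fun i hi h' => ?_⟩ ?_ ?_
        · obtain ⟨j, hj, hE⟩ := ht.2 i hi h'
          exact ⟨j, hj, E_swap.2 hE⟩
        · intro y hy
          rw [ht0]
          exact V_swap.2 (h y hy)
        · intro y hy i hi h'
          exact D_swap.2 (hU' _ (htU i hi h') y hy)
      · apply hR
        refine fam_seqV hp hq (by omega) (H := H) hH.1 (by omega) (t := t) ht ?_ ?_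
        · intro y hy
          rw [ht0]
          exact h y hy
        · intro y hy i hi h'
          exact hU' _ (htU i hi h') y hy
    · exact hW
  choose! W hW using key
  have hcov : U ⊆ X.biUnion W := by
    refine cover hconn hne hU' ?_ fun x hx => ⟨(hW x hx).1, (hW x hx).2.2⟩
    rintro x hxH ⟨u, hu, hE⟩
    rcases md_cases hH.2.1 hne hxH with h | h | h
    · exfalso
      have e1 := h h0 hh0
      have e2 := hU' u hu h0 hh0
      unfold D at e1 e2; unfold E V at hE; omega
    · left; rw [hU, mem_filter]; exact ⟨mem_univ _, h⟩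
    · right; rw [hX, mem_filter]; exact ⟨mem_univ _, h⟩
  calc U.card ≤ (X.biUnion W).card := card_le_card hcov
    _ ≤ X.card * n := card_biUnion_le' fun x hx => by
        have := (hW x hx).2.1
        omega
    _ ≤ 2 ^ (3 * n + 2) * n := Nat.mul_le_mul_right _ (adjV hp hq hn hR hH hHn)

/-- the complement of a module -/
theorem compl_card {H : Finset α} (hH : Md p q H) (hne : H.Nonempty) :
    (univ \ H).card ≤ (univ.filter fun x => ∀ h ∈ H, D p q x h).card +
      ((univ.filter fun x => ∀ h ∈ H, D p q h x).card +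
        (univ.filter fun x => ∀ h ∈ H, E p q x h).card) := by
  have : univ \ H ⊆ (univ.filter fun x => ∀ h ∈ H, D p q x h) ∪
      ((univ.filter fun x => ∀ h ∈ H, D p q h x) ∪
        (univ.filter fun x => ∀ h ∈ H, E p q x h)) := by
    intro x hx
    rw [mem_sdiff] at hx
    simp only [mem_union, mem_filter, mem_univ, true_and]
    exact md_cases hH hne hx.2
  refine (card_le_card this).trans ((card_union_le _ _).trans ?_)
  have := card_union_le (univ.filter fun x => ∀ h ∈ H, D p q h x)
    (univ.filter fun x => ∀ h ∈ H, E p q x h)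
  omega

/-- **Decreasing case.** A long decreasing chain forces a decreasing module with a bounded
complement. -/
theorem boundV (hp : Function.Injective p) (hq : Function.Injective q) {n : ℕ} (hn : 3 ≤ n)
    (hR : ¬ Rich p q n) (hconn : Conn p q) {S : Finset α} (hS : VC p q S)
    (hSn : 6 * n + 1 ≤ S.card) :
    ∃ H, VC p q H ∧ Md p q H ∧ H.Nonempty ∧ (univ \ H).card ≤ 2 ^ (3 * n + 2) * (2 * n + 1) := by
  obtain ⟨T, hST, hT, hMd⟩ := exists_chainV hp hq hn hR hS
  have h1 := card_mid V_trans V_irrefl hT.total (2 * n)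
  have h2 := card_le_card hST
  obtain ⟨H, hH, hHc⟩ := exists_MaxV p q (hT.mono (filter_subset _ _)) hMd
  have hHn : 2 * n + 1 ≤ H.card := by
    have : (mid (V p q) T (2 * n)).card ≤ H.card := hHc
    omega
  have hne : H.Nonempty := by rw [← card_pos]; omega
  refine ⟨H, hH.1, hH.2.1, hne, ?_⟩
  have e1 := compl_card hH.2.1 hne
  have e2 := adjV hp hq hn hR hH hHn
  have e3 := aboveV hp hq hn hR hconn hH hHn
  have e4 := aboveV (inj_neg hq) (inj_neg hp) hn (not_Rich_neg hR) hconn.neg hH.neg hHn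
  simp only [D_neg] at e4
  have e5 : 2 ^ (3 * n + 2) * (2 * n + 1) = 2 ^ (3 * n + 2) * n + (2 ^ (3 * n + 2) * n +
    2 ^ (3 * n + 2)) := by ring
  omega

/-! ### increasing modules -/

theorem adjD_left (hp : Function.Injective p) (hq : Function.Injective q) {n : ℕ} (hn : 3 ≤ n)
    (hR : ¬ Rich p q n) {N : ℕ} (hN : ∀ T, VC p q T → T.card ≠ N) {H : Finset α}
    (hHn : n ≤ H.card) :
    (univ.filter fun x => ∀ h ∈ H, V p q x h).card < 2 ^ (N + n) := by
  by_contra hcon
  rw [not_lt] at hcon
  rcases ramsey p q (N + n) N n rfl _ hcon with ⟨W, hW, hWV, hWc⟩ | ⟨W, hW, hWD, hWc⟩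
  · exact hN W hWV hWc
  · apply hR
    exact fam_bip hp hq (by omega) hHn (by omega) hWD fun w hw => (mem_filter.1 (hW hw)).2

theorem adjD (hp : Function.Injective p) (hq : Function.Injective q) {n : ℕ} (hn : 3 ≤ n)
    (hR : ¬ Rich p q n) {N : ℕ} (hN : ∀ T, VC p q T → T.card ≠ N) {H : Finset α}
    (hH : Md p q H) (hHn : 2 * n + 1 ≤ H.card) :
    (univ.filter fun x => ∀ h ∈ H, E p q x h).card ≤ 2 ^ (N + n + 1) := by
  have h1 := adjD_left hp hq hn hR hN (H := H) (by omega)
  have h2 := adjD_left hq hp hn (not_Rich_swap hR) (N := N)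
    (fun T hT => hN T (VC_swap.1 hT)) (H := H) (by omega)
  have hne : H.Nonempty := by rw [← card_pos]; omega
  have h3 : (univ.filter fun x => ∀ h ∈ H, E p q x h) ⊆
      (univ.filter fun x => ∀ h ∈ H, V p q x h) ∪ (univ.filter fun x => ∀ h ∈ H, V q p x h) := by
    intro x hx
    simp only [mem_union, mem_filter, mem_univ, true_and] at hx ⊢
    rcases adj_cases hH hne hx with h | h
    · exact Or.inl h
    · exact Or.inr fun y hy => V_swap.2 (h y hy)
  have h4 := card_le_card h3
  have h5 := card_union_le (univ.filter fun x => ∀ h ∈ H, V p q x h)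
    (univ.filter fun x => ∀ h ∈ H, V q p x h)
  have h6 : 2 ^ (N + n + 1) = 2 ^ (N + n) + 2 ^ (N + n) := by ring
  omega

/-- neighbours, right-above the module, of a point left-above the module -/
theorem nbrD (hp : Function.Injective p) (hq : Function.Injective q) {n : ℕ} (hn : 3 ≤ n)
    (hR : ¬ Rich p q n) {N : ℕ} (hN : ∀ T, VC p q T → T.card ≠ N) {H : Finset α}
    (hH : MaxD p q H) (hHn : 2 * n + 1 ≤ H.card) {t : α} (ht : ∀ h ∈ H, V p q t h) :
    (univ.filter fun x => (∀ h ∈ H, D p q h x) ∧ E p q x t).card ≤ 2 ^ (N + (2 * n + 1)) := by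
  by_contra hcon
  rw [not_le] at hcon
  have hne : H.Nonempty := by rw [← card_pos]; omega
  obtain ⟨h0, hh0⟩ := id hne
  rcases ramsey p q (N + (2 * n + 1)) N (2 * n + 1) rfl _ hcon.le with
    ⟨W, hW, hWV, hWc⟩ | ⟨W, hW, hWD, hWc⟩
  · exact hN W hWV hWc
  · have hW' : ∀ w ∈ W, ∀ h ∈ H, D p q h w := fun w hw => (mem_filter.1 (hW hw)).2.1
    have hWt : ∀ w ∈ W, V p q t w := by
      intro w hw
      have e1 := (mem_filter.1 (hW hw)).2.2
      have e2 := hW' w hw h0 hh0
      have e3 := ht h0 hh0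
      unfold E V at e1; unfold D at e2; unfold V at e3; unfold V; omega
    have hun : DC p q (H ∪ W) := by
      intro x hx y hy hxy
      rcases mem_union.1 hx with hx | hx <;> rcases mem_union.1 hy with hy | hy
      · exact hH.1 x hx y hy hxy
      · have := hW' y hy x hx
        unfold D at this; unfold E V; omega
      · have := hW' x hx y hy
        unfold D at this; unfold E V; omega
      · exact hWD x hx y hy hxy
    have hvt : ∀ z ∈ H ∪ W, V p q t z := by
      intro z hz
      rcases mem_union.1 hz with hz | hz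
      · exact ht z hz
      · exact hWt z hz
    obtain ⟨T, hST, hT, hvT, hMd⟩ := exists_chainD hp hq hn hR hun hvt
    obtain ⟨⟨h, hh, hhM⟩, ⟨w, hw, hwM⟩⟩ := mid_meet (R := D p q) D_irrefl (k := 2 * n) D_trans
      (subset_union_left.trans hST) (subset_union_right.trans hST)
      (fun a ha b hb => hW' b hb a ha) (hT.total hp hq) (by omega) (by omega)
    have h1 : Md p q (H ∪ mid (D p q) T (2 * n)) := hH.2.1.union hMd hh hhM
    have h2 : DC p q (H ∪ mid (D p q) T (2 * n)) :=
      hT.mono (union_subset (subset_union_left.trans hST) (filter_subset _ _))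
    have h3 := hH.2.2 _ h2 h1
    have h4 : (insert w H).card ≤ (H ∪ mid (D p q) T (2 * n)).card := by
      apply card_le_card
      rw [insert_subset_iff]
      exact ⟨mem_union_right _ hwM, subset_union_left⟩
    rw [card_insert_of_notMem fun h => D_irrefl _ (hW' w hw w h)] at h4
    omega

theorem Grow.cons {s : ℕ → α} {N : ℕ} (hs : Grow p q s N) {t : α} (hE : E p q (s 0) t)
    (ht : ∀ i < N, s i ≠ t) : Grow p q (fun i => if i = 0 then t else s (i - 1)) (N + 1) := by
  constructor
  · intro i hi j hj hij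
    simp only at hij
    split_ifs at hij with h1 h2 h2
    · omega
    · exact absurd hij.symm (ht (j - 1) (by omega))
    · exact absurd hij (ht (i - 1) (by omega))
    · have := hs.1 (i - 1) (by omega) (j - 1) (by omega) hij
      omega
  · intro i hi h0
    simp only
    rw [if_neg (by omega)]
    rcases Nat.lt_or_ge 1 i with h1 | h1
    · obtain ⟨j, hj, hE'⟩ := hs.2 (i - 1) (by omega) (by omega)
      refine ⟨j + 1, by omega, ?_⟩
      rw [if_neg (by omega)]
      simpa using hE'
    · have : i = 1 := by omega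
      subst this
      exact ⟨0, by omega, by simpa using hE⟩

theorem aboveD (hp : Function.Injective p) (hq : Function.Injective q) {n : ℕ} (hn : 3 ≤ n)
    (hR : ¬ Rich p q n) (hconn : Conn p q) {N : ℕ} (hN : ∀ T, VC p q T → T.card ≠ N)
    {H : Finset α} (hH : MaxD p q H) (hHn : 2 * n + 1 ≤ H.card) :
    (univ.filter fun x => ∀ h ∈ H, D p q h x).card ≤
      2 ^ (N + n + 1) * 2 ^ (N + (2 * n + 1)) * (n + 1) := by
  have hne : H.Nonempty := by rw [← card_pos]; omega
  obtain ⟨h0, hh0⟩ := id hne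
  set U := univ.filter fun x => ∀ h ∈ H, D p q h x with hU
  set X := univ.filter fun x => ∀ h ∈ H, E p q x h with hX
  have hU' : ∀ u ∈ U, ∀ h ∈ H, D p q h u := fun u hu => (mem_filter.1 hu).2
  have hX' : ∀ x ∈ X, ∀ h ∈ H, E p q x h := fun u hu => (mem_filter.1 hu).2
  set U3 := U.filter fun x => ∀ t ∈ X, ¬ E p q x t with hU3
  set U2 := U.filter fun x => ¬ ∀ t ∈ X, ¬ E p q x t with hU2
  have hXc : X.card ≤ 2 ^ (N + n + 1) := adjD hp hq hn hR hN hH.2.1 hHn
  have hnb : ∀ t ∈ X, (univ.filter fun x => (∀ h ∈ H, D p q h x) ∧ E p q x t).card ≤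
      2 ^ (N + (2 * n + 1)) := by
    intro t ht
    rcases adj_cases hH.2.1 hne (hX' t ht) with h | h
    · exact nbrD hp hq hn hR hN hH hHn h
    · have := nbrD hq hp hn (not_Rich_swap hR) (N := N) (fun T hT => hN T (VC_swap.1 hT))
        hH.swap hHn (t := t) (fun y hy => V_swap.2 (h y hy))
      simpa only [D_swap, E_swap] using this
  have hU2c : U2.card ≤ 2 ^ (N + n + 1) * 2 ^ (N + (2 * n + 1)) := by
    have h1 : U2 ⊆ X.biUnion fun t =>
        univ.filter fun x => (∀ h ∈ H, D p q h x) ∧ E p q x t := by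
      intro x hx
      rw [hU2, mem_filter] at hx
      obtain ⟨h2, h3⟩ := hx
      push Not at h3
      obtain ⟨t, ht, hE⟩ := h3
      rw [mem_biUnion]
      refine ⟨t, ht, ?_⟩
      rw [mem_filter]
      exact ⟨mem_univ _, hU' x h2, hE⟩
    exact (card_le_card h1).trans ((card_biUnion_le' hnb).trans (Nat.mul_le_mul_right _ hXc))
  have key : ∀ x ∈ U2, ∃ W : Finset α, x ∈ W ∧ W.card < n - 1 ∧
      ∀ u ∈ U3, ∀ w ∈ W, E p q u w → u ∈ W := by
    intro x hx
    have hx2 := hx
    rw [hU2, mem_filter] at hx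
    obtain ⟨hxU, hxt⟩ := hx
    have hx3 : x ∉ U3 := fun h => hxt (by rw [hU3, mem_filter] at h; exact h.2)
    push Not at hxt
    obtain ⟨t, ht, hE⟩ := hxt
    rcases grow_or_closed p q U3 x hx3 (n - 1) (by omega) with ⟨s, hs, hs0, hsU⟩ | hW
    · exfalso
      have hsU' : ∀ i < n - 1, s i ∈ U := by
        intro i hi
        rcases Nat.eq_zero_or_pos i with rfl | h
        · rw [hs0]; exact hxU
        · exact (mem_filter.1 (hsU i hi h)).1
      have hst : ∀ i < n - 1, s i ≠ t := by
        intro i hi h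
        have e1 := hU' (s i) (hsU' i hi) h0 hh0
        have e2 := hX' t ht h0 hh0
        rw [h] at e1
        unfold D at e1; unfold E V at e2; omega
      have hcons := hs.cons (t := t) (by rw [hs0]; exact hE) hst
      rw [show n - 1 + 1 = n by omega] at hcons
      set t' : ℕ → α := fun i => if i = 0 then t else s (i - 1) with ht'
      have e1 : ∀ h ∈ H, ∀ i < n, 0 < i → D p q h (t' i) := by
        intro h hh i hi hi0
        simp only [ht', if_neg (show i ≠ 0 by omega)]
        exact hU' _ (hsU' (i - 1) (by omega)) h hh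
      have e2 : ∀ i < n, 1 < i → ¬ E p q (t' 0) (t' i) := by
        intro i hi hi1 hE'
        simp only [ht', if_neg (show i ≠ 0 by omega), if_true] at hE'
        have := (mem_filter.1 (hsU (i - 1) (by omega) (by omega))).2 t ht
        exact this (E_symm hE')
      rcases adj_cases hH.2.1 hne (hX' t ht) with h | h
      · apply hR
        refine fam_seqD hp hq (by omega) (H := H) (by omega) hcons ?_ e1 e2
        intro y hy
        simp only [ht', if_true]
        exact h y hy
      · apply not_Rich_swap hR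
        refine fam_seqD hq hp (by omega) (H := H) (by omega) (t := t')
          ⟨hcons.1, fun i hi h' => ?_⟩ ?_ ?_ ?_
        · obtain ⟨j, hj, hE⟩ := hcons.2 i hi h'
          exact ⟨j, hj, E_swap.2 hE⟩
        · intro y hy
          simp only [ht', if_true]
          exact V_swap.2 (h y hy)
        · intro y hy i hi h'
          exact D_swap.2 (e1 y hy i hi h')
        · intro i hi h' hE'
          exact e2 i hi h' (E_swap.1 hE')
    · exact hW
  choose! W hW using key
  have hcov : U3 ⊆ U2.biUnion W := by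
    refine cover hconn hne (fun u hu => hU' u (mem_filter.1 hu).1) ?_
      fun x hx => ⟨(hW x hx).1, (hW x hx).2.2⟩
    rintro x hxH ⟨u, hu, hE⟩
    have huU := (mem_filter.1 hu).1
    rcases md_cases hH.2.1 hne hxH with h | h | h
    · exfalso
      have e1 := h h0 hh0
      have e2 := hU' u huU h0 hh0
      unfold D at e1 e2; unfold E V at hE; omega
    · have hxU : x ∈ U := by rw [hU, mem_filter]; exact ⟨mem_univ _, h⟩
      by_cases h3 : ∀ t ∈ X, ¬ E p q x t
      · left; rw [hU3, mem_filter]; exact ⟨hxU, h3⟩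
      · right; rw [hU2, mem_filter]; exact ⟨hxU, h3⟩
    · exfalso
      exact (mem_filter.1 hu).2 x (by rw [hX, mem_filter]; exact ⟨mem_univ _, h⟩) hE
  have hU3c : U3.card ≤ 2 ^ (N + n + 1) * 2 ^ (N + (2 * n + 1)) * n := by
    calc U3.card ≤ (U2.biUnion W).card := card_le_card hcov
      _ ≤ U2.card * n := card_biUnion_le' fun x hx => by
          have := (hW x hx).2.1
          omega
      _ ≤ _ := Nat.mul_le_mul_right _ hU2c
  have hsum : U.card = U3.card + U2.card := by
    rw [hU3, hU2]
    exact (card_filter_add_card_filter_not _).symm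
  have e5 : 2 ^ (N + n + 1) * 2 ^ (N + (2 * n + 1)) * (n + 1) =
    2 ^ (N + n + 1) * 2 ^ (N + (2 * n + 1)) * n + 2 ^ (N + n + 1) * 2 ^ (N + (2 * n + 1)) := by
    ring
  omega

/-- **Increasing case.** -/
theorem boundD (hp : Function.Injective p) (hq : Function.Injective q) {n : ℕ} (hn : 3 ≤ n)
    (hR : ¬ Rich p q n) (hconn : Conn p q) {N : ℕ} (hN : ∀ T, VC p q T → T.card ≠ N)
    {S : Finset α} (hS : DC p q S) {v : α} (hv : ∀ z ∈ S, E p q v z)
    (hSn : 12 * n + 2 ≤ S.card) :
    ∃ H, DC p q H ∧ Md p q H ∧ H.Nonempty ∧ (univ \ H).card ≤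
      2 ^ (N + n + 1) * 2 ^ (N + (2 * n + 1)) * (2 * n + 3) := by
  -- an increasing module of size `2 n + 1`
  have key : ∃ M, DC p q M ∧ Md p q M ∧ 2 * n + 1 ≤ M.card := by
    have hsplit : S.card ≤ (S.filter fun z => V p q v z).card +
        (S.filter fun z => V q p v z).card := by
      have : S ⊆ (S.filter fun z => V p q v z) ∪ (S.filter fun z => V q p v z) := by
        intro z hz
        rw [mem_union, mem_filter, mem_filter]
        rcases hv z hz with h | h
        · exact Or.inl ⟨hz, h⟩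
        · exact Or.inr ⟨hz, V_swap.2 h⟩
      exact (card_le_card this).trans (card_union_le _ _)
    by_cases h6 : 6 * n + 1 ≤ (S.filter fun z => V p q v z).card
    · obtain ⟨T, hST, hT, hvT, hMd⟩ := exists_chainD hp hq hn hR (hS.mono (filter_subset _ _))
        (v := v) (fun z hz => (mem_filter.1 hz).2)
      have h1 := card_mid D_trans D_irrefl (hT.total hp hq) (2 * n)
      have h2 : (S.filter fun z => V p q v z).card ≤ T.card := card_le_card hST
      exact ⟨mid (D p q) T (2 * n), hT.mono (filter_subset _ _), hMd, by omega⟩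
    · have h7 : 6 * n + 1 ≤ (S.filter fun z => V q p v z).card := by omega
      obtain ⟨T, hST, hT, hvT, hMd⟩ := exists_chainD hq hp hn (not_Rich_swap hR)
        ((DC_swap.2 hS).mono (filter_subset _ _)) (v := v) (fun z hz => (mem_filter.1 hz).2)
      have h1 := card_mid D_trans D_irrefl (hT.total hq hp) (2 * n)
      have h2 : (S.filter fun z => V q p v z).card ≤ T.card := card_le_card hST
      exact ⟨mid (D q p) T (2 * n), DC_swap.1 (hT.mono (filter_subset _ _)), Md_swap.1 hMd,
        by omega⟩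
  obtain ⟨M, hMD, hMd, hMc⟩ := key
  obtain ⟨H, hH, hHc⟩ := exists_MaxD p q hMD hMd
  have hHn : 2 * n + 1 ≤ H.card := by omega
  have hne : H.Nonempty := by rw [← card_pos]; omega
  refine ⟨H, hH.1, hH.2.1, hne, ?_⟩
  have e1 := compl_card hH.2.1 hne
  have e2 := adjD hp hq hn hR hN hH.2.1 hHn
  have e3 := aboveD hp hq hn hR hconn hN hH hHn
  have e4 := aboveD (inj_neg hq) (inj_neg hp) hn (not_Rich_neg hR) hconn.neg (N := N)
    (fun T hT => hN T (VC_neg.1 hT)) hH.neg hHn
  simp only [D_neg] at e4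
  have e5 : 2 ^ (N + n + 1) ≤ 2 ^ (N + n + 1) * 2 ^ (N + (2 * n + 1)) :=
    Nat.le_mul_of_pos_right _ (by positivity)
  have e6 : 2 ^ (N + n + 1) * 2 ^ (N + (2 * n + 1)) * (2 * n + 3) =
    2 ^ (N + n + 1) * 2 ^ (N + (2 * n + 1)) * (n + 1) +
      (2 ^ (N + n + 1) * 2 ^ (N + (2 * n + 1)) * (n + 1) +
        2 ^ (N + n + 1) * 2 ^ (N + (2 * n + 1))) := by ring
  omega

end Pool.Agent.Helper36.Indec
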