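import Pool.Agent.Helper36.Indec.Basic

/-!
Chains, modules, Ramsey's theorem and the middle part of a chain.
-/

set_option linter.unusedVariables false
set_option linter.unusedSectionVars false

namespace Pool.Agent.Helper36.Indec

open Finset Classical

variable {α : Type} {p q : α → ℤ}

/-- decreasing sets -/
def VC (p q : α → ℤ) (S : Finset α) : Prop := ∀ x ∈ S, ∀ y ∈ S, x ≠ y → E p q x y

/-- increasing sets -/
def DC (p q : α → ℤ) (S : Finset α) : Prop := ∀ x ∈ S, ∀ y ∈ S, x ≠ y → ¬ E p q x y

/-- modules: every other point is in the same relation to all points of the set -/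
def Md (p q : α → ℤ) (H : Finset α) : Prop :=
  ∀ x, x ∉ H → (∀ h ∈ H, D p q x h) ∨ (∀ h ∈ H, D p q h x) ∨ (∀ h ∈ H, V p q x h) ∨
    (∀ h ∈ H, V p q h x)

theorem VC.mono {S T : Finset α} (h : VC p q T) (hST : S ⊆ T) : VC p q S :=
  fun x hx y hy hxy => h x (hST hx) y (hST hy) hxy

theorem DC.mono {S T : Finset α} (h : DC p q T) (hST : S ⊆ T) : DC p q S :=
  fun x hx y hy hxy => h x (hST hx) y (hST hy) hxy

theorem VC_swap {S : Finset α} : VC q p S ↔ VC p q S := by
  unfold VC; simp only [E_swap]

theorem DC_swap {S : Finset α} : DC q p S ↔ DC p q S := by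
  unfold DC; simp only [E_swap]

theorem VC_neg {S : Finset α} : VC (fun x => -q x) (fun x => -p x) S ↔ VC p q S := by
  unfold VC; simp only [E_neg]

theorem DC_neg {S : Finset α} : DC (fun x => -q x) (fun x => -p x) S ↔ DC p q S := by
  unfold DC; simp only [E_neg]

theorem Md_swap {S : Finset α} : Md q p S ↔ Md p q S := by
  unfold Md; simp only [D_swap, V_swap]
  constructor <;> intro h x hx <;> have := h x hx <;> tauto

theorem Md_neg {S : Finset α} : Md (fun x => -q x) (fun x => -p x) S ↔ Md p q S := by
  unfold Md; simp only [D_neg, V_neg]
  constructor <;> intro h x hx <;> have := h x hx <;> tauto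

/-- the four relations exhaust all cases -/
theorem total (hp : Function.Injective p) (hq : Function.Injective q) {x y : α} (h : x ≠ y) :
    D p q x y ∨ D p q y x ∨ V p q x y ∨ V p q y x := by
  have h1 : p x ≠ p y := fun e => h (hp e)
  have h2 : q x ≠ q y := fun e => h (hq e)
  unfold D V
  omega

theorem not_E_iff (hp : Function.Injective p) (hq : Function.Injective q) {x y : α} (h : x ≠ y) :
    ¬ E p q x y ↔ D p q x y ∨ D p q y x := by
  have h1 : p x ≠ p y := fun e => h (hp e)
  have h2 : q x ≠ q y := fun e => h (hq e)
  unfold E D V
  omega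

/-- Ramsey's theorem -/
theorem ramsey (p q : α → ℤ) : ∀ (m a b : ℕ), a + b = m → ∀ S : Finset α, 2 ^ m ≤ S.card →
    (∃ T ⊆ S, VC p q T ∧ T.card = a) ∨ (∃ T ⊆ S, DC p q T ∧ T.card = b) := by
  intro m
  induction m with
  | zero =>
    intro a b hab S hS
    left
    exact ⟨∅, empty_subset _, fun x hx => absurd hx (notMem_empty x), by simp; omega⟩
  | succ m ih =>
    intro a b hab S hS
    rcases Nat.eq_zero_or_pos a with ha | ha
    · left
      exact ⟨∅, empty_subset _, fun x hx => absurd hx (notMem_empty x), by simp; omega⟩
    rcases Nat.eq_zero_or_pos b with hb | hb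
    · right
      exact ⟨∅, empty_subset _, fun x hx => absurd hx (notMem_empty x), by simp; omega⟩
    have hne : S.Nonempty := by
      rw [← card_pos]
      exact lt_of_lt_of_le (by positivity) hS
    obtain ⟨x, hx⟩ := hne
    have h1 := card_filter_add_card_filter_not (s := S.erase x) (fun y => E p q x y)
    rw [card_erase_of_mem hx] at h1
    have h2 : 2 ^ (m + 1) = 2 ^ m + 2 ^ m := by ring
    have h3 : 0 < 2 ^ m := by positivity
    by_cases h4 : 2 ^ m ≤ ((S.erase x).filter fun y => E p q x y).card
    · rcases ih (a - 1) b (by omega) _ h4 with ⟨T, hT, h5, h6⟩ | ⟨T, hT, h5, h6⟩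
      · left
        have hT' : ∀ y ∈ T, y ≠ x ∧ y ∈ S ∧ E p q x y := by
          intro y hy
          have := hT hy
          rw [mem_filter, mem_erase] at this
          tauto
        refine ⟨insert x T, ?_, ?_, ?_⟩
        · rw [insert_subset_iff]
          exact ⟨hx, fun y hy => (hT' y hy).2.1⟩
        · intro y hy z hz hyz
          rcases mem_insert.1 hy with rfl | hy
          · rcases mem_insert.1 hz with rfl | hz
            · exact absurd rfl hyz
            · exact (hT' z hz).2.2
          · rcases mem_insert.1 hz with hzx | hz
            · rw [hzx]; exact E_symm (hT' y hy).2.2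
            · exact h5 y hy z hz hyz
        · rw [card_insert_of_notMem fun h => (hT' x h).1 rfl, h6]; omega
      · right
        exact ⟨T, hT.trans ((filter_subset _ _).trans (erase_subset _ _)), h5, h6⟩
    · have h4' : 2 ^ m ≤ ((S.erase x).filter fun y => ¬ E p q x y).card := by omega
      rcases ih a (b - 1) (by omega) _ h4' with ⟨T, hT, h5, h6⟩ | ⟨T, hT, h5, h6⟩
      · left
        exact ⟨T, hT.trans ((filter_subset _ _).trans (erase_subset _ _)), h5, h6⟩
      · right
        have hT' : ∀ y ∈ T, y ≠ x ∧ y ∈ S ∧ ¬ E p q x y := by
          intro y hy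
          have := hT hy
          rw [mem_filter, mem_erase] at this
          tauto
        refine ⟨insert x T, ?_, ?_, ?_⟩
        · rw [insert_subset_iff]
          exact ⟨hx, fun y hy => (hT' y hy).2.1⟩
        · intro y hy z hz hyz
          rcases mem_insert.1 hy with rfl | hy
          · rcases mem_insert.1 hz with rfl | hz
            · exact absurd rfl hyz
            · exact (hT' z hz).2.2
          · rcases mem_insert.1 hz with hzx | hz
            · rw [hzx]; exact fun h => (hT' y hy).2.2 (E_symm h)
            · exact h5 y hy z hz hyz
        · rw [card_insert_of_notMem fun h => (hT' x h).1 rfl, h6]; omega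

/-! ### the middle part of a chain -/

section Middle

variable (R : α → α → Prop)

/-- number of elements of `T` before `c` -/
noncomputable def lo (T : Finset α) (c : α) : ℕ := (T.filter fun d => R d c).card

/-- number of elements of `T` after `c` -/
noncomputable def up (T : Finset α) (c : α) : ℕ := (T.filter fun d => R c d).card

/-- the elements of `T` which are not among the first or last `k` -/
noncomputable def mid (T : Finset α) (k : ℕ) : Finset α :=
  T.filter fun c => k ≤ lo R T c ∧ k ≤ up R T c

variable {R}

theorem lo_lt (htr : ∀ x y z, R x y → R y z → R x z) (hirr : ∀ x, ¬ R x x) {T : Finset α}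
    {c d : α} (hc : c ∈ T) (h : R c d) : lo R T c < lo R T d := by
  apply card_lt_card
  rw [ssubset_iff_of_subset]
  · exact ⟨c, by rw [mem_filter]; exact ⟨hc, h⟩, by rw [mem_filter]; exact fun h => hirr c h.2⟩
  · intro x hx
    rw [mem_filter] at hx ⊢
    exact ⟨hx.1, htr _ _ _ hx.2 h⟩

theorem up_lt (htr : ∀ x y z, R x y → R y z → R x z) (hirr : ∀ x, ¬ R x x) {T : Finset α}
    {c d : α} (hd : d ∈ T) (h : R c d) : up R T d < up R T c := by
  apply card_lt_card
  rw [ssubset_iff_of_subset]
  · exact ⟨d, by rw [mem_filter]; exact ⟨hd, h⟩, by rw [mem_filter]; exact fun h => hirr d h.2⟩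
  · intro x hx
    rw [mem_filter] at hx ⊢
    exact ⟨hx.1, htr _ _ _ h hx.2⟩

theorem card_mid (htr : ∀ x y z, R x y → R y z → R x z) (hirr : ∀ x, ¬ R x x) {T : Finset α}
    (htot : ∀ x ∈ T, ∀ y ∈ T, x ≠ y → R x y ∨ R y x) (k : ℕ) :
    T.card ≤ (mid R T k).card + 2 * k := by
  have h1 : (T.filter fun c => ¬ k ≤ lo R T c).card ≤ k := by
    calc (T.filter fun c => ¬ k ≤ lo R T c).card ≤ (range k).card := by
          apply card_le_card_of_injOn (lo R T)
          · intro c hc
            have := (mem_filter.1 hc).2
            simp only [coe_range, Set.mem_Iio]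
            omega
          · intro c hc d hd hcd
            have hc' := (mem_filter.1 hc).1
            have hd' := (mem_filter.1 hd).1
            by_contra hne
            rcases htot c hc' d hd' hne with h | h
            · have := lo_lt htr hirr hc' h
              omega
            · have := lo_lt htr hirr hd' h
              omega
      _ = k := card_range k
  have h2 : (T.filter fun c => ¬ k ≤ up R T c).card ≤ k := by
    calc (T.filter fun c => ¬ k ≤ up R T c).card ≤ (range k).card := by
          apply card_le_card_of_injOn (up R T)
          · intro c hc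
            have := (mem_filter.1 hc).2
            simp only [coe_range, Set.mem_Iio]
            omega
          · intro c hc d hd hcd
            have hc' := (mem_filter.1 hc).1
            have hd' := (mem_filter.1 hd).1
            by_contra hne
            rcases htot c hc' d hd' hne with h | h
            · have := up_lt htr hirr hd' h
              omega
            · have := up_lt htr hirr hc' h
              omega
      _ = k := card_range k
  have h3 : T ⊆ mid R T k ∪ ((T.filter fun c => ¬ k ≤ lo R T c) ∪
      (T.filter fun c => ¬ k ≤ up R T c)) := by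
    intro c hc
    simp only [mid, mem_union, mem_filter]
    tauto
  have h4 := card_le_card h3
  have h5 := card_union_le (mid R T k) ((T.filter fun c => ¬ k ≤ lo R T c) ∪
      (T.filter fun c => ¬ k ≤ up R T c))
  have h6 := card_union_le (T.filter fun c => ¬ k ≤ lo R T c) (T.filter fun c => ¬ k ≤ up R T c)
  omega

/-- the position of the middle part relative to another point -/
theorem mid_cases (htr : ∀ x y z, R x y → R y z → R x z) {T : Finset α} {x : α} {n : ℕ}
    (h1 : (T.filter fun c => R c x).card < n ∨ (T.filter fun c => ¬ R c x ∧ ¬ R x c).card < n)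
    (h2 : (T.filter fun c => ¬ R c x ∧ ¬ R x c).card < n ∨ (T.filter fun c => R x c).card < n)
    (h3 : (T.filter fun c => R c x).card < n ∨ (T.filter fun c => R x c).card < n) :
    (∀ c ∈ mid R T (2 * n), R c x) ∨ (∀ c ∈ mid R T (2 * n), R x c) ∨
      (∀ c ∈ mid R T (2 * n), ¬ R c x ∧ ¬ R x c) := by
  set A := T.filter fun c => R c x with hA
  set B := T.filter fun c => ¬ R c x ∧ ¬ R x c with hB
  set C := T.filter fun c => R x c with hC
  by_cases hAn : A.card < n
  · by_cases hCn : C.card < n
    · right; right
      intro c hc
      simp only [mid, mem_filter] at hc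
      constructor
      · intro h
        have : lo R T c ≤ A.card := by
          apply card_le_card
          intro d hd
          rw [mem_filter] at hd
          rw [hA, mem_filter]
          exact ⟨hd.1, htr _ _ _ hd.2 h⟩
        omega
      · intro h
        have : up R T c ≤ C.card := by
          apply card_le_card
          intro d hd
          rw [mem_filter] at hd
          rw [hC, mem_filter]
          exact ⟨hd.1, htr _ _ _ h hd.2⟩
        omega
    · right; left
      have hBn : B.card < n := by omega
      intro c hc
      simp only [mid, mem_filter] at hc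
      by_contra h
      have : lo R T c ≤ (A ∪ B).card := by
        apply card_le_card
        intro d hd
        rw [mem_filter] at hd
        rw [mem_union, hA, hB, mem_filter, mem_filter]
        by_cases h4 : R d x
        · exact Or.inl ⟨hd.1, h4⟩
        · exact Or.inr ⟨hd.1, h4, fun h5 => h (htr _ _ _ h5 hd.2)⟩
      have h6 := card_union_le A B
      omega
  · left
    have hBn : B.card < n := by omega
    have hCn : C.card < n := by omega
    intro c hc
    simp only [mid, mem_filter] at hc
    by_contra h
    have : up R T c ≤ (B ∪ C).card := by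
      apply card_le_card
      intro d hd
      rw [mem_filter] at hd
      rw [mem_union, hB, hC, mem_filter, mem_filter]
      by_cases h4 : R x d
      · exact Or.inr ⟨hd.1, h4⟩
      · exact Or.inl ⟨hd.1, fun h5 => h (htr _ _ _ hd.2 h5), h4⟩
    have h6 := card_union_le B C
    omega

/-- points of the chain outside the middle part -/
theorem mid_chain (htr : ∀ x y z, R x y → R y z → R x z) (hirr : ∀ x, ¬ R x x) {T : Finset α}
    (htot : ∀ x ∈ T, ∀ y ∈ T, x ≠ y → R x y ∨ R y x) {k : ℕ} {x : α} (hx : x ∈ T)
    (hxm : x ∉ mid R T k) : (∀ c ∈ mid R T k, R c x) ∨ (∀ c ∈ mid R T k, R x c) := by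
  simp only [mid, mem_filter, not_and_or, hx, not_true, false_or] at hxm
  rcases hxm with h | h
  · right
    intro c hc
    have hc' := hc
    simp only [mid, mem_filter] at hc
    have hne : x ≠ c := by rintro rfl; exact h hc.2.1
    rcases htot x hx c hc.1 hne with h4 | h4
    · exact h4
    · have := lo_lt htr hirr hc.1 h4
      omega
  · left
    intro c hc
    have hc' := hc
    simp only [mid, mem_filter] at hc
    have hne : c ≠ x := by rintro rfl; exact h hc.2.2
    rcases htot c hc.1 x hx hne with h4 | h4
    · exact h4
    · have := up_lt htr hirr hc.1 h4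
      omega

end Middle

theorem D_trans (x y z : α) (h1 : D p q x y) (h2 : D p q y z) : D p q x z := by
  unfold D at *; omega

theorem V_trans (x y z : α) (h1 : V p q x y) (h2 : V p q y z) : V p q x z := by
  unfold V at *; omega

theorem D_irrefl (x : α) : ¬ D p q x x := by unfold D; omega

theorem V_irrefl (x : α) : ¬ V p q x x := by unfold V; omega

/-- the union of two modules which meet is a module -/
theorem Md.union {H K : Finset α} (hH : Md p q H) (hK : Md p q K) {z : α} (hz : z ∈ H)
    (hz' : z ∈ K) : Md p q (H ∪ K) := by
  intro x hx
  rw [mem_union, not_or] at hx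
  rcases hH x hx.1 with h | h | h | h <;> rcases hK x hx.2 with h' | h' | h' | h' <;>
    have h1 := h z hz <;> have h2 := h' z hz' <;> simp only [D, V] at h1 h2
  · left; intro y hy; rcases mem_union.1 hy with hy | hy
    · exact h y hy
    · exact h' y hy
  · omega
  · omega
  · omega
  · omega
  · right; left; intro y hy; rcases mem_union.1 hy with hy | hy
    · exact h y hy
    · exact h' y hy
  · omega
  · omega
  · omega
  · omega
  · right; right; left; intro y hy; rcases mem_union.1 hy with hy | hy
    · exact h y hy
    · exact h' y hy
  · omega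
  · omega
  · omega
  · omega
  · right; right; right; intro y hy; rcases mem_union.1 hy with hy | hy
    · exact h y hy
    · exact h' y hy

end Pool.Agent.Helper36.Indec
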