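import Pool.Agent.Helper36.Indec.PathStruct

/-!
Coding of the exceptional permutations, and their number.
-/

set_option linter.unusedVariables false
set_option linter.unusedSectionVars false

namespace Pool.Agent.Helper36.Indec

open Finset Classical

section Module

variable {α : Type} {p q : α → ℤ} [Fintype α]

/-- the rank of a point before or after a large set -/
theorem out_rank (hpr : ∀ x, p x = ((univ.filter fun y => p y < p x).card : ℤ))
    (hp : Function.Injective p) {H : Finset α} {Q : ℕ} (hQ : (univ \ H).card ≤ Q) {x : α}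
    (hx : x ∉ H) (h : (∀ y ∈ H, p x < p y) ∨ (∀ y ∈ H, p y < p x)) :
    p x < Q ∨ (Fintype.card α : ℤ) ≤ p x + Q := by
  have hxO : x ∈ univ \ H := by rw [mem_sdiff]; exact ⟨mem_univ _, hx⟩
  have hO : ((univ \ H).erase x).card + 1 = (univ \ H).card := card_erase_add_one hxO
  rcases h with h | h
  · left
    rw [hpr x]
    have : (univ.filter fun y => p y < p x) ⊆ (univ \ H).erase x := by
      intro y hy
      rw [mem_filter] at hy
      rw [mem_erase, mem_sdiff]
      refine ⟨?_, mem_univ _, ?_⟩
      · rintro rfl; omega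
      · intro hyH
        have := h y hyH
        omega
    have := card_le_card this
    omega
  · right
    have h1 : (univ.filter fun y => p x < p y) ⊆ (univ \ H).erase x := by
      intro y hy
      rw [mem_filter] at hy
      rw [mem_erase, mem_sdiff]
      refine ⟨?_, mem_univ _, ?_⟩
      · rintro rfl; omega
      · intro hyH
        have := h y hyH
        omega
    have h2 : (univ : Finset α) ⊆ insert x ((univ.filter fun y => p y < p x) ∪
        (univ.filter fun y => p x < p y)) := by
      intro y _
      rw [mem_insert, mem_union, mem_filter, mem_filter]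
      by_cases hyx : y = x
      · exact Or.inl hyx
      · have : p y ≠ p x := fun e => hyx (hp e)
        right
        rcases lt_or_gt_of_ne this with h3 | h3
        · exact Or.inl ⟨mem_univ _, h3⟩
        · exact Or.inr ⟨mem_univ _, h3⟩
    have h3 := card_le_card h2
    have h4 := card_insert_le x ((univ.filter fun y => p y < p x) ∪
        (univ.filter fun y => p x < p y))
    have h5 := card_union_le (univ.filter fun y => p y < p x) (univ.filter fun y => p x < p y)
    have h6 := card_le_card h1
    rw [card_univ] at h3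
    rw [hpr x]
    omega

/-- the rank of a point of a set which is an interval for `p` -/
theorem in_rank (hpr : ∀ x, p x = ((univ.filter fun y => p y < p x).card : ℤ)) {H : Finset α}
    (hH : ∀ y, y ∉ H → (∀ h ∈ H, p y < p h) ∨ (∀ h ∈ H, p h < p y)) {x : α} (hx : x ∈ H) :
    p x = (((univ \ H).filter fun y => ∀ h ∈ H, p y < p h).card : ℤ) +
      ((H.filter fun y => p y < p x).card : ℤ) := by
  refine (hpr x).trans ?_
  have : (univ.filter fun y => p y < p x) =
      ((univ \ H).filter fun y => ∀ h ∈ H, p y < p h) ∪ (H.filter fun y => p y < p x) := by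
    ext y
    rw [mem_filter, mem_union, mem_filter, mem_filter, mem_sdiff]
    constructor
    · rintro ⟨_, h⟩
      by_cases hy : y ∈ H
      · exact Or.inr ⟨hy, h⟩
      · left
        refine ⟨⟨mem_univ _, hy⟩, ?_⟩
        rcases hH y hy with h1 | h1
        · exact h1
        · have := h1 x hx
          omega
    · rintro (⟨_, h⟩ | ⟨_, h⟩)
      · exact ⟨mem_univ _, h x hx⟩
      · exact ⟨mem_univ _, h⟩
  have hdis : Disjoint ((univ \ H).filter fun y => ∀ h ∈ H, p y < p h)
      (H.filter fun y => p y < p x) := by
    rw [disjoint_left]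
    intro y hy hy'
    rw [mem_filter, mem_sdiff] at hy
    rw [mem_filter] at hy'
    exact hy.1.2 hy'.1
  have h2 := card_union_of_disjoint hdis
  rw [← this] at h2
  exact_mod_cast h2

theorem md_interval {H : Finset α} (hH : Md p q H) : ∀ y, y ∉ H →
    ((∀ h ∈ H, p y < p h) ∨ (∀ h ∈ H, p h < p y)) ∧
    ((∀ h ∈ H, q y < q h) ∨ (∀ h ∈ H, q h < q y)) := by
  intro y hy
  rcases hH y hy with h | h | h | h
  · exact ⟨Or.inl fun x hx => (h x hx).1, Or.inl fun x hx => (h x hx).2⟩
  · exact ⟨Or.inr fun x hx => (h x hx).1, Or.inr fun x hx => (h x hx).2⟩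
  · exact ⟨Or.inl fun x hx => (h x hx).1, Or.inr fun x hx => (h x hx).2⟩
  · exact ⟨Or.inr fun x hx => (h x hx).1, Or.inl fun x hx => (h x hx).2⟩

theorem code_outside (hpr : ∀ x, p x = ((univ.filter fun y => p y < p x).card : ℤ))
    (hqr : ∀ x, q x = ((univ.filter fun y => q y < q x).card : ℤ)) (hp : Function.Injective p)
    (hq : Function.Injective q) {H : Finset α} (hH : Md p q H) {Q : ℕ}
    (hQ : (univ \ H).card ≤ Q) {x : α} (hx : x ∉ H) :
    (p x < Q ∨ (Fintype.card α : ℤ) ≤ p x + Q) ∧ (q x < Q ∨ (Fintype.card α : ℤ) ≤ q x + Q) :=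
  ⟨out_rank hpr hp hQ hx (md_interval hH x hx).1, out_rank hqr hq hQ hx (md_interval hH x hx).2⟩

theorem codeD (hpr : ∀ x, p x = ((univ.filter fun y => p y < p x).card : ℤ))
    (hqr : ∀ x, q x = ((univ.filter fun y => q y < q x).card : ℤ)) (hp : Function.Injective p)
    (hq : Function.Injective q) {H : Finset α} (hHD : DC p q H) (hH : Md p q H) {Q : ℕ}
    (hQ : (univ \ H).card ≤ Q) :
    ∃ k : ℤ, -Q ≤ k ∧ k ≤ Q ∧ ∀ x, q x = p x + k ∨
      ((p x < Q ∨ (Fintype.card α : ℤ) ≤ p x + Q) ∧
        (q x < Q ∨ (Fintype.card α : ℤ) ≤ q x + Q)) := by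
  set a := ((univ \ H).filter fun y => ∀ h ∈ H, p y < p h).card with ha
  set b := ((univ \ H).filter fun y => ∀ h ∈ H, q y < q h).card with hb
  have ha' : a ≤ Q := (card_le_card (filter_subset _ _)).trans hQ
  have hb' : b ≤ Q := (card_le_card (filter_subset _ _)).trans hQ
  refine ⟨(b : ℤ) - a, by omega, by omega, fun x => ?_⟩
  by_cases hx : x ∈ H
  · left
    rw [in_rank hqr (fun y hy => (md_interval hH y hy).2) hx,
      in_rank hpr (fun y hy => (md_interval hH y hy).1) hx, ← ha, ← hb]
    have : (H.filter fun y => q y < q x) = H.filter fun y => p y < p x := by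
      apply filter_congr
      intro y hy
      by_cases hxy : x = y
      · subst hxy; simp
      · have := (not_E_iff hp hq hxy).1 (hHD x hx y hy hxy)
        unfold D at this; omega
    rw [this]; ring
  · exact Or.inr (code_outside hpr hqr hp hq hH hQ hx)

theorem codeV (hpr : ∀ x, p x = ((univ.filter fun y => p y < p x).card : ℤ))
    (hqr : ∀ x, q x = ((univ.filter fun y => q y < q x).card : ℤ)) (hp : Function.Injective p)
    (hq : Function.Injective q) {H : Finset α} (hHV : VC p q H) (hH : Md p q H) {Q : ℕ}
    (hQ : (univ \ H).card ≤ Q) :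
    ∃ k : ℤ, -Q ≤ k ∧ k ≤ Q ∧ ∀ x, q x = (Fintype.card α : ℤ) - 1 + k - p x ∨
      ((p x < Q ∨ (Fintype.card α : ℤ) ≤ p x + Q) ∧
        (q x < Q ∨ (Fintype.card α : ℤ) ≤ q x + Q)) := by
  set a := ((univ \ H).filter fun y => ∀ h ∈ H, p y < p h).card with ha
  set b := ((univ \ H).filter fun y => ∀ h ∈ H, q y < q h).card with hb
  have ha' : a ≤ (univ \ H).card := card_le_card (filter_subset _ _)
  have hb' : b ≤ (univ \ H).card := card_le_card (filter_subset _ _)
  have hc : (univ \ H).card + H.card = Fintype.card α := by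
    rw [card_sdiff_of_subset (subset_univ H), card_univ]
    have := card_le_univ H
    omega
  refine ⟨(b : ℤ) + a - (univ \ H).card, by omega, by omega, fun x => ?_⟩
  by_cases hx : x ∈ H
  · left
    rw [in_rank hqr (fun y hy => (md_interval hH y hy).2) hx,
      in_rank hpr (fun y hy => (md_interval hH y hy).1) hx, ← ha, ← hb]
    have h1 : (H.filter fun y => q y < q x) = (H.erase x).filter fun y => ¬ p y < p x := by
      ext y
      rw [mem_filter, mem_filter, mem_erase]
      constructor
      · rintro ⟨hy, h⟩
        have hxy : x ≠ y := by rintro rfl; omega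
        have := hHV x hx y hy hxy
        refine ⟨⟨hxy.symm, hy⟩, ?_⟩
        unfold E V at this; omega
      · rintro ⟨⟨hxy, hy⟩, h⟩
        have := hHV x hx y hy hxy.symm
        refine ⟨hy, ?_⟩
        unfold E V at this; omega
    have h2 : (H.filter fun y => p y < p x) = (H.erase x).filter fun y => p y < p x := by
      ext y
      rw [mem_filter, mem_filter, mem_erase]
      constructor
      · rintro ⟨hy, h⟩
        exact ⟨⟨by rintro rfl; omega, hy⟩, h⟩
      · rintro ⟨⟨hxy, hy⟩, h⟩
        exact ⟨hy, h⟩
    have h3 := card_filter_add_card_filter_not (s := H.erase x) (fun y => p y < p x)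
    rw [card_erase_of_mem hx] at h3
    have h4 : 0 < H.card := card_pos.2 ⟨x, hx⟩
    rw [h1, h2]
    omega
  · exact Or.inr (code_outside hpr hqr hp hq hH hQ hx)

end Module

/-! ### counting -/

/-- permutations which agree with one of finitely many functions except near the ends -/
def Coded {ι : Type} (g : ι → ℤ → ℤ) (N R : ℕ) (π : Equiv.Perm (Fin N)) : Prop :=
  ∃ c, ∀ x : Fin N, ((π x : ℕ) : ℤ) = g c (x : ℕ) ∨
    (((x : ℕ) < R ∨ N ≤ (x : ℕ) + R) ∧ ((π x : ℕ) < R ∨ N ≤ (π x : ℕ) + R))

theorem card_coded {ι : Type} [Fintype ι] (g : ι → ℤ → ℤ) (N R : ℕ) :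
    (univ.filter fun π : Equiv.Perm (Fin N) => Coded g N R π).card ≤
      Fintype.card ι * (2 * R + 1) ^ (2 * R) := by
  -- the code of a value
  set code : ℕ → ℕ := fun v => if v < R then v else R + (N - 1 - v) with hcode
  set pos : ℕ → ℕ := fun j => if j < R then j else N - 1 - (j - R) with hpos
  set val : ι → Equiv.Perm (Fin N) → ℕ → ℕ := fun c π j =>
    if h : pos j < N then
      (if ((π ⟨pos j, h⟩ : ℕ) : ℤ) = g c (pos j) then 2 * R else min (code (π ⟨pos j, h⟩)) (2 * R))
    else 0 with hval
  have hvalle : ∀ c π j, val c π j < 2 * R + 1 := by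
    intro c π j
    simp only [hval]
    split_ifs with h1 h2
    · omega
    · have := min_le_right (code (π ⟨pos j, h1⟩ : ℕ)) (2 * R)
      omega
    · omega
  have hcl : ∀ v, v < N → (v < R ∨ N ≤ v + R) → code v < 2 * R := by
    intro v hv h
    simp only [hcode]
    split_ifs with h1
    · omega
    · omega
  have hci : ∀ v v', v < N → v' < N → (v < R ∨ N ≤ v + R) → (v' < R ∨ N ≤ v' + R) →
      code v = code v' → v = v' := by
    intro v v' hv hv' h h' he
    simp only [hcode] at he
    split_ifs at he <;> omega
  rcases isEmpty_or_nonempty ι with hι | hι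
  · have : (univ.filter fun π : Equiv.Perm (Fin N) => Coded g N R π) = ∅ := by
      rw [filter_eq_empty_iff]
      rintro π _ ⟨c, _⟩
      exact hι.elim c
    rw [this, card_empty]
    exact Nat.zero_le _
  · have hch : ∀ π : Equiv.Perm (Fin N), ∃ c, Coded g N R π → ∀ x : Fin N,
        ((π x : ℕ) : ℤ) = g c (x : ℕ) ∨
        (((x : ℕ) < R ∨ N ≤ (x : ℕ) + R) ∧ ((π x : ℕ) < R ∨ N ≤ (π x : ℕ) + R)) := by
      intro π
      by_cases h : Coded g N R π
      · obtain ⟨c, hc⟩ := h
        exact ⟨c, fun _ => hc⟩
      · exact ⟨Classical.arbitrary ι, fun h' => absurd h' h⟩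
    choose ch hch using hch
    set F : Equiv.Perm (Fin N) → ι × (Fin (2 * R) → Fin (2 * R + 1)) := fun π =>
      (ch π, fun j => ⟨val (ch π) π j, hvalle _ _ _⟩) with hF
    have hcard : Fintype.card (ι × (Fin (2 * R) → Fin (2 * R + 1))) =
        Fintype.card ι * (2 * R + 1) ^ (2 * R) := by
      rw [Fintype.card_prod, Fintype.card_fun, Fintype.card_fin, Fintype.card_fin]
    rw [← hcard, ← card_univ (α := ι × (Fin (2 * R) → Fin (2 * R + 1)))]
    refine card_le_card_of_injOn F (fun _ _ => mem_coe.2 (mem_univ _)) ?_
    intro π hπ σ hσ he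
    rw [mem_coe, mem_filter] at hπ hσ
    have h1 := hch π hπ.2
    have h2 := hch σ hσ.2
    simp only [hF, Prod.mk.injEq] at he
    obtain ⟨he1, he2⟩ := he
    rw [← he1] at h2
    have key : ∀ j, j < 2 * R → val (ch π) π j = val (ch π) σ j := by
      intro j hj
      have := congrFun he2 ⟨j, hj⟩
      rw [Fin.mk.injEq, ← he1] at this
      exact this
    have main : ∀ x : Fin N, ∀ j, j < 2 * R → pos j = x → π x = σ x := by
      intro x j hj hjx
      have h3 := key j hj
      have hlt : pos j < N := by rw [hjx]; exact x.2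
      have hx : (⟨pos j, hlt⟩ : Fin N) = x := Fin.ext hjx
      simp only [hval] at h3
      rw [dif_pos hlt, dif_pos hlt, hx, hjx] at h3
      apply Fin.ext
      by_cases ha : ((π x : ℕ) : ℤ) = g (ch π) (x : ℕ)
      · by_cases hb : ((σ x : ℕ) : ℤ) = g (ch π) (x : ℕ)
        · have := ha.trans hb.symm
          exact_mod_cast this
        · exfalso
          rw [if_pos ha, if_neg hb] at h3
          rcases h2 x with h4 | h4
          · exact hb h4
          · have := hcl _ (σ x).2 h4.2
            have h5 := min_le_left (code (σ x : ℕ)) (2 * R)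
            omega
      · by_cases hb : ((σ x : ℕ) : ℤ) = g (ch π) (x : ℕ)
        · exfalso
          rw [if_neg ha, if_pos hb] at h3
          rcases h1 x with h4 | h4
          · exact ha h4
          · have := hcl _ (π x).2 h4.2
            have h5 := min_le_left (code (π x : ℕ)) (2 * R)
            omega
        · rw [if_neg ha, if_neg hb] at h3
          rcases h1 x with h4 | h4
          · exact absurd h4 ha
          · rcases h2 x with h5 | h5
            · exact absurd h5 hb
            · have h6 := hcl _ (π x).2 h4.2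
              have h7 := hcl _ (σ x).2 h5.2
              rw [min_eq_left h6.le, min_eq_left h7.le] at h3
              exact hci _ _ (π x).2 (σ x).2 h4.2 h5.2 h3
    apply Equiv.ext
    intro x
    by_cases hx : (x : ℕ) < R ∨ N ≤ (x : ℕ) + R
    · rcases hx with hx | hx
      · refine main x x (by omega) ?_
        simp only [hpos]
        rw [if_pos hx]
      · refine main x (R + (N - 1 - x)) (by have := x.2; omega) ?_
        simp only [hpos]
        have := x.2
        rw [if_neg (by omega)]
        omega
    · have h3 := (h1 x).resolve_right fun h => hx h.1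
      have h4 := (h2 x).resolve_right fun h => hx h.1
      apply Fin.ext
      have := h3.trans h4.symm
      exact_mod_cast this

end Pool.Agent.Helper36.Indec
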