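import Pool.Agent.Helper36.Indec.Code

/-!
The number of sum-indecomposable permutations of any given length that are not rich is bounded.
-/

set_option linter.unusedVariables false
set_option linter.unusedSectionVars false

namespace Pool.Agent.Helper36.Indec

open Finset Classical

/-- the positions of a permutation -/
def X (N : ℕ) : Fin N → ℤ := fun x => ((x : ℕ) : ℤ)

/-- the values of a permutation -/
def Y {N : ℕ} (π : Equiv.Perm (Fin N)) : Fin N → ℤ := fun x => ((π x : ℕ) : ℤ)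

theorem X_inj (N : ℕ) : Function.Injective (X N) := by
  intro x y h
  unfold X at h
  apply Fin.ext
  exact_mod_cast h

theorem Y_inj {N : ℕ} (π : Equiv.Perm (Fin N)) : Function.Injective (Y π) := by
  intro x y h
  unfold Y at h
  apply π.injective
  apply Fin.ext
  exact_mod_cast h

theorem X_lt {N : ℕ} {x y : Fin N} : X N x < X N y ↔ x < y := by
  unfold X
  rw [Fin.lt_def]
  exact_mod_cast Iff.rfl

theorem Y_lt {N : ℕ} {π : Equiv.Perm (Fin N)} {x y : Fin N} : Y π x < Y π y ↔ π x < π y := by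
  unfold Y
  rw [Fin.lt_def]
  exact_mod_cast Iff.rfl

theorem rankY {N : ℕ} (π : Equiv.Perm (Fin N)) (x : Fin N) :
    Y π x = ((univ.filter fun y => Y π y < Y π x).card : ℤ) := by
  have h : (univ.filter fun y => Y π y < Y π x).card = (Finset.Iio (π x)).card := by
    refine card_bij (fun y _ => π y) ?_ ?_ ?_
    · intro y hy
      rw [mem_filter] at hy
      rw [mem_Iio]
      exact Y_lt.1 hy.2
    · intro a _ b _ hab
      exact π.injective hab
    · intro b hb
      refine ⟨π.symm b, ?_, π.apply_symm_apply b⟩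
      rw [mem_filter]
      refine ⟨mem_univ _, ?_⟩
      rw [Y_lt, π.apply_symm_apply]
      exact mem_Iio.1 hb
  rw [h, Fin.card_Iio]
  rfl

theorem rankX {N : ℕ} (x : Fin N) :
    X N x = ((univ.filter fun y => X N y < X N x).card : ℤ) := rankY 1 x

theorem count {n : ℕ} (hn : 3 ≤ n) : ∃ K : ℕ, ∀ N : ℕ,
    (univ.filter fun π : Equiv.Perm (Fin N) => Conn (X N) (Y π) ∧ ¬ Rich (X N) (Y π) n).card ≤
      K := by
  set N0 := 6 * n + 1 with hN0
  set N1 := 12 * n + 2 with hN1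
  set Q1 := 2 ^ (3 * n + 2) * (2 * n + 1) with hQ1
  set Q2 := 2 ^ (N0 + n + 1) * 2 ^ (N0 + (2 * n + 1)) * (2 * n + 3) with hQ2
  set d := 2 ^ (N0 + N1) with hd
  set Q3 := (d + 1) ^ (n + 5) + 5 with hQ3
  set M := (d + 1) ^ (2 * n + 10) with hM
  set Q := Q1 + Q2 + Q3 with hQ
  set g : ℕ → Fin 3 × Fin (2 * Q + 1) → ℤ → ℤ := fun N c x =>
    if c.1 = 0 then x + (((c.2 : ℕ) : ℤ) - Q) else
    if c.1 = 1 then (N : ℤ) - 1 + (((c.2 : ℕ) : ℤ) - Q) - x else
    if (x + ((c.2 : ℕ) : ℤ)) % 2 = 0 then x + 2 else x - 2 with hg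
  refine ⟨Nat.factorial M + Fintype.card (Fin 3 × Fin (2 * Q + 1)) * (2 * Q + 1) ^ (2 * Q),
    fun N => ?_⟩
  rcases le_or_gt N M with hNM | hNM
  · refine (card_filter_le _ _).trans ?_
    rw [card_univ, Fintype.card_perm, Fintype.card_fin]
    exact (Nat.factorial_le hNM).trans (Nat.le_add_right _ _)
  refine le_trans (card_le_card ?_) ((card_coded (g N) N Q).trans (Nat.le_add_left _ _))
  intro π hπ
  rw [mem_filter] at hπ ⊢
  refine ⟨mem_univ _, ?_⟩
  obtain ⟨-, hconn, hR⟩ := hπ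
  have hXi := X_inj N
  have hYi := Y_inj π
  -- turning the integer statements into statements on natural numbers
  have conv : ∀ {Q' : ℕ}, Q' ≤ Q → ∀ {x : Fin N},
      ((X N x < Q' ∨ (Fintype.card (Fin N) : ℤ) ≤ X N x + Q') ∧
        (Y π x < Q' ∨ (Fintype.card (Fin N) : ℤ) ≤ Y π x + Q')) →
      (((x : ℕ) < Q ∨ N ≤ (x : ℕ) + Q) ∧ ((π x : ℕ) < Q ∨ N ≤ (π x : ℕ) + Q)) := by
    intro Q' hQ' x h
    rw [Fintype.card_fin] at h
    unfold X Y at h
    omega
  by_cases hA : ∃ T, VC (X N) (Y π) T ∧ T.card = N0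
  · obtain ⟨T, hT, hTc⟩ := hA
    obtain ⟨H, hH1, hH2, hH3, hH4⟩ := boundV hXi hYi hn hR hconn hT hTc.ge
    obtain ⟨k, hk1, hk2, hk⟩ := codeV rankX (rankY π) hXi hYi hH1 hH2 hH4
    rw [← hQ1] at hk1 hk2 hk
    have hkk : (k + Q).toNat < 2 * Q + 1 := by omega
    refine ⟨(1, ⟨(k + Q).toNat, hkk⟩), fun x => ?_⟩
    rcases hk x with h | h
    · left
      simp only [hg]
      rw [if_neg (by decide), if_pos trivial]
      unfold Y X at h
      rw [Fintype.card_fin] at h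
      omega
    · exact Or.inr (conv (by omega) h)
  have hA' : ∀ T, VC (X N) (Y π) T → T.card ≠ N0 := fun T h1 h2 => hA ⟨T, h1, h2⟩
  by_cases hB : ∃ v, ∃ S, DC (X N) (Y π) S ∧ (∀ z ∈ S, E (X N) (Y π) v z) ∧ S.card = N1
  · obtain ⟨v, S, hS, hv, hSc⟩ := hB
    obtain ⟨H, hH1, hH2, hH3, hH4⟩ := boundD hXi hYi hn hR hconn hA' hS hv hSc.ge
    obtain ⟨k, hk1, hk2, hk⟩ := codeD rankX (rankY π) hXi hYi hH1 hH2 hH4
    rw [← hQ2] at hk1 hk2 hk
    have hkk : (k + Q).toNat < 2 * Q + 1 := by omega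
    refine ⟨(0, ⟨(k + Q).toNat, hkk⟩), fun x => ?_⟩
    rcases hk x with h | h
    · left
      simp only [hg]
      rw [if_pos trivial]
      unfold Y X at h
      omega
    · exact Or.inr (conv (by omega) h)
  have hC : ∀ v, (univ.filter fun x => E (X N) (Y π) v x).card ≤ d := by
    intro v
    by_contra hlt
    push Not at hlt
    rcases ramsey (X N) (Y π) (N0 + N1) N0 N1 rfl _ hlt.le with ⟨T, h1, h2, h3⟩ | ⟨T, h1, h2, h3⟩
    · exact hA ⟨T, h2, h3⟩
    · exact hB ⟨v, T, h2, fun z hz => (mem_filter.1 (h1 hz)).2, h3⟩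
  obtain ⟨e, he, hk⟩ := boundP rankX (rankY π) hXi hYi hn hR hconn hC
    (by rw [Fintype.card_fin]; exact hNM)
  have hkk : e.toNat < 2 * Q + 1 := by omega
  have hQ3' : (Q3 : ℤ) = ((d : ℤ) + 1) ^ (n + 5) + 5 := by rw [hQ3]; push_cast; ring
  refine ⟨(2, ⟨e.toNat, hkk⟩), fun x => ?_⟩
  have hq3 : Q3 ≤ Q := by omega
  rcases hk x with h | ⟨h1, h2⟩ | ⟨h1, h2⟩
  · left
    simp only [hg]
    rw [if_neg (by decide), if_neg (by decide)]
    unfold Y X at h
    have h5 : ((e.toNat : ℕ) : ℤ) = e := Int.toNat_of_nonneg (by omega)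
    rw [h5]
    exact h
  · right
    rw [← hQ3'] at h1 h2
    unfold X at h1
    unfold Y at h2
    omega
  · right
    rw [add_assoc, ← hQ3', Fintype.card_fin] at h1 h2
    unfold X at h1
    unfold Y at h2
    omega

end Pool.Agent.Helper36.Indec
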