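import Pool.Agent.Helper36.Indec.Chain

/-!
Families of pairwise non-isomorphic connected sets.
-/

set_option linter.unusedVariables false
set_option linter.unusedSectionVars false

namespace Pool.Agent.Helper36.Indec

open Finset Classical

variable {α : Type} {p q : α → ℤ}

theorem exists_left (hp : Function.Injective p) {S : Finset α} (hS : S.Nonempty) :
    ∃ x ∈ S, ∀ y ∈ S, y ≠ x → p x < p y := by
  obtain ⟨x, hx, h⟩ := exists_min_image S p hS
  exact ⟨x, hx, fun y hy hne => lt_of_le_of_ne (h y hy) fun e => hne (hp e).symm⟩

/-- a long set to the left and above another long set, the first one increasing -/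
theorem fam_bip (hp : Function.Injective p) (hq : Function.Injective q) {n : ℕ} (hn : 2 ≤ n)
    {H W : Finset α} (hH : n ≤ H.card) (hW : n ≤ W.card) (hWd : DC p q W)
    (hV : ∀ w ∈ W, ∀ h ∈ H, V p q w h) : Rich p q n := by
  refine Rich_of (Finset.Ico 1 n) (fun k => sub H k ∪ sub W (n - k)) ?_ ?_ ?_
  · rw [Nat.card_Ico]; omega
  · intro k hk
    rw [mem_Ico] at hk
    have hHs := sub_subset H k
    have hWs := sub_subset W (n - k)
    constructor
    · rw [card_union_of_disjoint, card_sub (by omega), card_sub (by omega)]
      · omega
      · rw [disjoint_left]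
        intro x hx hx'
        have := hV x (hWs hx') x (hHs hx)
        unfold V at this; omega
    · obtain ⟨h0, hh0⟩ := sub_nonempty (Y := H) (k := k) (by omega) (by omega)
      obtain ⟨w0, hw0⟩ := sub_nonempty (Y := W) (k := n - k) (by omega) (by omega)
      have h1 : Cn p q ({h0} ∪ sub W (n - k)) := by
        refine Cn_union (Cn.single h0) (mem_singleton_self h0) fun x hx _ => ?_
        exact Or.inl (hV x (hWs hx) h0 (hHs hh0))
      have h2 := Cn_union (K := sub H k) h1 (mem_union_right _ hw0) fun x hx _ =>
        Or.inr (hV w0 (hWs hw0) x (hHs hx))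
      convert h2 using 1
      ext x
      simp only [mem_union, mem_singleton]
      constructor
      · tauto
      · rintro ((rfl | h) | h) <;> tauto
  · have key : ∀ k ∈ Finset.Ico 1 n, St p q (sub H k ∪ sub W (n - k)) k := by
      intro k hk
      rw [mem_Ico] at hk
      have hHs := sub_subset H k
      have hWs := sub_subset W (n - k)
      obtain ⟨w, hw, hmin⟩ := exists_left hp (sub_nonempty (Y := W) (k := n - k) (by omega)
        (by omega))
      refine ⟨w, mem_union_right _ hw, ?_, ?_⟩
      · intro y hy hne
        rcases mem_union.1 hy with hy | hy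
        · exact (hV w (hWs hw) y (hHs hy)).1
        · exact hmin y hy hne
      · have : (sub H k ∪ sub W (n - k)).filter (fun y => q y < q w) = sub H k := by
          ext y
          rw [mem_filter, mem_union]
          constructor
          · rintro ⟨hy | hy, h⟩
            · exact hy
            · exfalso
              by_cases hne : y = w
              · subst hne; omega
              · exact hWd w (hWs hw) y (hWs hy) (Ne.symm hne) (Or.inl ⟨hmin y hy hne, h⟩)
          · intro hy
            exact ⟨Or.inl hy, (hV w (hWs hw) y (hHs hy)).2⟩
        rw [this, card_sub (by omega)]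
    intro i hi j hj h
    exact St_iso h (key i hi) (key j hj)

/-- a point which splits off two long ends of a decreasing chain -/
theorem fam_cutV (hp : Function.Injective p) (hq : Function.Injective q) {n : ℕ} (hn : 3 ≤ n)
    {T : Finset α} (hT : VC p q T) {x : α} (hx : x ∉ T)
    (hA : n ≤ (T.filter fun c => V p q c x).card) (hC : n ≤ (T.filter fun c => V p q x c).card)
    {b : α} (hb : b ∈ T) (hb1 : ¬ V p q b x) (hb2 : ¬ V p q x b) : Rich p q n := by
  set A := T.filter fun c => V p q c x with hAd
  set C := T.filter fun c => V p q x c with hCd
  have hbx : b ≠ x := by rintro rfl; exact hx hb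
  have hA' : ∀ a ∈ A, a ∈ T ∧ V p q a x := fun a ha => by rwa [hAd, mem_filter] at ha
  have hC' : ∀ a ∈ C, a ∈ T ∧ V p q x a := fun a ha => by rwa [hCd, mem_filter] at ha
  have hAb : ∀ a ∈ A, V p q a b := by
    intro a ha
    obtain ⟨h1, h2⟩ := hA' a ha
    have hne : a ≠ b := by rintro rfl; exact hb1 h2
    rcases hT a h1 b hb hne with h | h
    · exact h
    · exact absurd (V_trans _ _ _ h h2) hb1
  have hbC : ∀ c ∈ C, V p q b c := by
    intro c hc
    obtain ⟨h1, h2⟩ := hC' c hc
    have hne : b ≠ c := by rintro rfl; exact hb2 h2
    rcases hT b hb c h1 hne with h | h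
    · exact h
    · exact absurd (V_trans _ _ _ h2 h) hb2
  have hAC : ∀ a ∈ A, ∀ c ∈ C, V p q a c := fun a ha c hc => V_trans _ _ _ (hA' a ha).2 (hC' c hc).2
  have hDxb : D p q x b ∨ D p q b x := by
    rcases total hp hq hbx with h | h | h | h
    · exact Or.inr h
    · exact Or.inl h
    · exact absurd h hb1
    · exact absurd h hb2
  have hbA : b ∉ A := fun h => hb1 (hA' b h).2
  have hbC' : b ∉ C := fun h => hb2 (hC' b h).2
  have hxA : x ∉ A := fun h => hx (hA' x h).1
  have hxC : x ∉ C := fun h => hx (hC' x h).1
  refine Rich_of (range (n - 1)) (fun a => insert x (insert b (sub A a ∪ sub C (n - 2 - a))))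
    ?_ ?_ ?_
  · rw [card_range]; omega
  · intro a ha
    rw [mem_range] at ha
    have hAs := sub_subset A a
    have hCs := sub_subset C (n - 2 - a)
    constructor
    · rw [card_insert_of_notMem, card_insert_of_notMem, card_union_of_disjoint,
        card_sub (by omega), card_sub (by omega)]
      · omega
      · rw [disjoint_left]
        intro y hy hy'
        exact V_irrefl y (hAC y (hAs hy) y (hCs hy'))
      · rw [mem_union]; rintro (h | h)
        · exact hbA (hAs h)
        · exact hbC' (hCs h)
      · rw [mem_insert, mem_union]; rintro (h | h | h)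
        · exact hbx h.symm
        · exact hxA (hAs h)
        · exact hxC (hCs h)
    · -- connected
      have hne : (sub A a ∪ sub C (n - 2 - a)).Nonempty := by
        rcases Nat.eq_zero_or_pos a with h | h
        · exact (sub_nonempty (by omega) (by omega)).mono subset_union_right
        · exact (sub_nonempty (by omega) h).mono subset_union_left
      obtain ⟨y, hy⟩ := hne
      refine Cn_star (y := y) (mem_insert_of_mem (mem_insert_of_mem hy)) ?_
      intro z hz hzy
      rw [mem_union] at hy
      rw [mem_insert, mem_insert, mem_union] at hz
      have hyT : y ∈ T ∧ E p q x y ∧ E p q b y := by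
        rcases hy with hy | hy
        · exact ⟨(hA' y (hAs hy)).1, Or.inr (hA' y (hAs hy)).2, Or.inr (hAb y (hAs hy))⟩
        · exact ⟨(hC' y (hCs hy)).1, Or.inl (hC' y (hCs hy)).2, Or.inl (hbC y (hCs hy))⟩
      rcases hz with rfl | rfl | hz | hz
      · exact hyT.2.1
      · exact hyT.2.2
      · exact hT z (hA' z (hAs hz)).1 y hyT.1 hzy
      · exact hT z (hC' z (hCs hz)).1 y hyT.1 hzy
  · have key : ∀ a ∈ range (n - 1),
        KV p q (insert x (insert b (sub A a ∪ sub C (n - 2 - a)))) = a := by
      intro a ha
      rw [mem_range] at ha
      have hAs := sub_subset A a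
      have hCs := sub_subset C (n - 2 - a)
      have hT' : ∀ y ∈ insert x (insert b (sub A a ∪ sub C (n - 2 - a))), y = x ∨ y ∈ T := by
        intro y hy
        rw [mem_insert, mem_insert, mem_union] at hy
        rcases hy with rfl | rfl | hy | hy
        · exact Or.inl rfl
        · exact Or.inr hb
        · exact Or.inr (hA' y (hAs hy)).1
        · exact Or.inr (hC' y (hCs hy)).1
      rw [KV_eq (K := sub A a), card_sub (by omega)]
      · intro y
        constructor
        · rintro ⟨hy, s, hs, t, ht, h1, h2, h3⟩
          have h4 : s = x ∨ t = x := by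
            by_contra h
            rw [not_or] at h
            have h5 := (hT' s hs).resolve_left h.1
            have h6 := (hT' t ht).resolve_left h.2
            have hst : s ≠ t := by rintro rfl; exact D_irrefl _ h3
            have := hT s h5 t h6 hst
            unfold E V at this; unfold D at h3; omega
          have h5 : V p q y x := by
            rcases h4 with rfl | rfl
            · exact h1
            · exact h2
          rw [mem_insert, mem_insert, mem_union] at hy
          rcases hy with rfl | rfl | hy | hy
          · exact absurd h5 (V_irrefl _)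
          · exact absurd h5 hb1
          · exact hy
          · exfalso
            exact V_irrefl _ (V_trans _ _ _ h5 (hC' y (hCs hy)).2)
        · intro hy
          have hmem : y ∈ insert x (insert b (sub A a ∪ sub C (n - 2 - a))) :=
            mem_insert_of_mem (mem_insert_of_mem (mem_union_left _ hy))
          have hxm : x ∈ insert x (insert b (sub A a ∪ sub C (n - 2 - a))) :=
            mem_insert_self _ _
          have hbm : b ∈ insert x (insert b (sub A a ∪ sub C (n - 2 - a))) :=
            mem_insert_of_mem (mem_insert_self _ _)
          rcases hDxb with h | h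
          · exact ⟨hmem, x, hxm, b, hbm, (hA' y (hAs hy)).2, hAb y (hAs hy), h⟩
          · exact ⟨hmem, b, hbm, x, hxm, hAb y (hAs hy), (hA' y (hAs hy)).2, h⟩
    intro i hi j hj h
    rw [← key i hi, ← key j hj]
    exact KV_iso h

/-- a point which splits a decreasing chain into a long adjacent and a long non-adjacent part -/
theorem fam_cutV' (hp : Function.Injective p) (hq : Function.Injective q) {n : ℕ} (hn : 3 ≤ n)
    {Y B : Finset α} (hT : VC p q (Y ∪ B)) {x : α} (hY : ∀ y ∈ Y, E p q x y)
    (hB : ∀ b ∈ B, ¬ E p q x b) (hxB : x ∉ B) (hYn : n ≤ Y.card) (hBn : n ≤ B.card) :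
    Rich p q n := by
  have hxY : x ∉ Y := fun h => by have := hY x h; unfold E V at this; omega
  refine Rich_of (range (n - 1)) (fun b => insert x (sub Y (n - 1 - b) ∪ sub B b)) ?_ ?_ ?_
  · rw [card_range]; omega
  · intro b hb
    rw [mem_range] at hb
    have hYs := sub_subset Y (n - 1 - b)
    have hBs := sub_subset B b
    constructor
    · rw [card_insert_of_notMem, card_union_of_disjoint, card_sub (by omega), card_sub (by omega)]
      · omega
      · rw [disjoint_left]
        intro y hy hy'
        exact hB y (hBs hy') (hY y (hYs hy))
      · rw [mem_union]; rintro (h | h)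
        · exact hxY (hYs h)
        · exact hxB (hBs h)
    · obtain ⟨y, hy⟩ := sub_nonempty (Y := Y) (k := n - 1 - b) (by omega) (by omega)
      refine Cn_star (y := y) (mem_insert_of_mem (mem_union_left _ hy)) ?_
      intro z hz hzy
      rw [mem_insert, mem_union] at hz
      rcases hz with rfl | hz | hz
      · exact hY y (hYs hy)
      · exact hT z (mem_union_left _ (hYs hz)) y (mem_union_left _ (hYs hy)) hzy
      · exact hT z (mem_union_right _ (hBs hz)) y (mem_union_left _ (hYs hy)) hzy
  · have key : ∀ b ∈ range (n - 1),
        cnt (D p q) (insert x (sub Y (n - 1 - b) ∪ sub B b)) = b := by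
      intro b hb
      rw [mem_range] at hb
      have hYs := sub_subset Y (n - 1 - b)
      have hBs := sub_subset B b
      rw [dc_insert hp hq, cnt_eq_zero, zero_add]
      · have : (sub Y (n - 1 - b) ∪ sub B b).filter (fun t => ¬ E p q x t) = sub B b := by
          ext y
          rw [mem_filter, mem_union]
          constructor
          · rintro ⟨hy | hy, h⟩
            · exact absurd (hY y (hYs hy)) h
            · exact hy
          · intro hy
            exact ⟨Or.inr hy, hB y (hBs hy)⟩
        rw [this, card_sub (by omega)]
      · intro s hs t ht hD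
        have hst : s ≠ t := by rintro rfl; exact D_irrefl _ hD
        have hs' : s ∈ Y ∪ B := union_subset_union hYs hBs hs
        have ht' : t ∈ Y ∪ B := union_subset_union hYs hBs ht
        have := hT s hs' t ht' hst
        unfold E V at this; unfold D at hD; omega
      · rw [mem_union]; rintro (h | h)
        · exact hxY (hYs h)
        · exact hxB (hBs h)
    intro i hi j hj h
    rw [← key i hi, ← key j hj]
    exact dc_iso h

end Pool.Agent.Helper36.Indec
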