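import Pool.Agent.Helper36.Indec.Fam

/-!
Families of pairwise non-isomorphic connected sets: increasing chains in the neighbourhood of a
point, and growing sequences attached to a module.
-/

set_option linter.unusedVariables false
set_option linter.unusedSectionVars false

namespace Pool.Agent.Helper36.Indec

open Finset Classical

variable {α : Type} {p q : α → ℤ}

/-- two adjacent points, the first adjacent to a long increasing chain, the second adjacent to
one long part of the chain and not to another long part -/
theorem fam_cutD (hp : Function.Injective p) (hq : Function.Injective q) {n : ℕ} (hn : 3 ≤ n)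
    {Y B : Finset α} (hT : DC p q (Y ∪ B)) {v x : α} (hvx : E p q v x)
    (hvY : ∀ y ∈ Y, E p q v y) (hvB : ∀ y ∈ B, E p q v y) (hY : ∀ y ∈ Y, ¬ E p q x y)
    (hB : ∀ b ∈ B, E p q x b) (hxY : x ∉ Y) (hYn : n ≤ Y.card) (hBn : n ≤ B.card) :
    Rich p q n := by
  have hxB : x ∉ B := fun h => by have := hB x h; unfold E V at this; omega
  have hvY' : v ∉ Y := fun h => by have := hvY v h; unfold E V at this; omega
  have hvB' : v ∉ B := fun h => by have := hvB v h; unfold E V at this; omega
  have hvx' : v ≠ x := by rintro rfl; unfold E V at hvx; omega
  refine Rich_of (range (n - 1)) (fun b => insert v (insert x (sub Y (n - 2 - b) ∪ sub B b)))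
    ?_ ?_ ?_
  · rw [card_range]; omega
  · intro b hb
    rw [mem_range] at hb
    have hYs := sub_subset Y (n - 2 - b)
    have hBs := sub_subset B b
    constructor
    · rw [card_insert_of_notMem, card_insert_of_notMem, card_union_of_disjoint,
        card_sub (by omega), card_sub (by omega)]
      · omega
      · rw [disjoint_left]
        intro y hy hy'
        exact hY y (hYs hy) (hB y (hBs hy'))
      · rw [mem_union]; rintro (h | h)
        · exact hxY (hYs h)
        · exact hxB (hBs h)
      · rw [mem_insert, mem_union]; rintro (h | h | h)
        · exact hvx' h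
        · exact hvY' (hYs h)
        · exact hvB' (hBs h)
    · refine Cn_star (y := v) (mem_insert_self _ _) ?_
      intro z hz hzy
      rw [mem_insert, mem_insert, mem_union] at hz
      rcases hz with rfl | rfl | hz | hz
      · exact absurd rfl hzy
      · exact E_symm hvx
      · exact E_symm (hvY z (hYs hz))
      · exact E_symm (hvB z (hBs hz))
  · have key : ∀ b ∈ range (n - 1),
        cnt (V p q) (insert v (insert x (sub Y (n - 2 - b) ∪ sub B b))) = b + (n - 1) := by
      intro b hb
      rw [mem_range] at hb
      have hYs := sub_subset Y (n - 2 - b)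
      have hBs := sub_subset B b
      have hx' : x ∉ sub Y (n - 2 - b) ∪ sub B b := by
        rw [mem_union]; rintro (h | h)
        · exact hxY (hYs h)
        · exact hxB (hBs h)
      have hv' : v ∉ insert x (sub Y (n - 2 - b) ∪ sub B b) := by
        rw [mem_insert, mem_union]; rintro (h | h | h)
        · exact hvx' h
        · exact hvY' (hYs h)
        · exact hvB' (hBs h)
      rw [inv_insert hv', inv_insert hx', cnt_eq_zero, zero_add]
      · have h1 : (sub Y (n - 2 - b) ∪ sub B b).filter (fun t => E p q x t) = sub B b := by
          ext y
          rw [mem_filter, mem_union]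
          constructor
          · rintro ⟨hy | hy, h⟩
            · exact absurd h (hY y (hYs hy))
            · exact hy
          · intro hy
            exact ⟨Or.inr hy, hB y (hBs hy)⟩
        have h2 : (insert x (sub Y (n - 2 - b) ∪ sub B b)).filter (fun t => E p q v t) =
            insert x (sub Y (n - 2 - b) ∪ sub B b) := by
          rw [filter_eq_self]
          intro y hy
          rw [mem_insert, mem_union] at hy
          rcases hy with rfl | hy | hy
          · exact hvx
          · exact hvY y (hYs hy)
          · exact hvB y (hBs hy)
        rw [h1, h2, card_sub (by omega), card_insert_of_notMem hx', card_union_of_disjoint,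
          card_sub (by omega), card_sub (by omega)]
        · omega
        · rw [disjoint_left]
          intro y hy hy'
          exact hY y (hYs hy) (hB y (hBs hy'))
      · intro s hs t ht hV
        have hst : s ≠ t := by rintro rfl; exact V_irrefl _ hV
        exact hT s (union_subset_union hYs hBs hs) t (union_subset_union hYs hBs ht) hst
          (Or.inl hV)
    intro i hi j hj h
    have := inv_iso h
    rw [key i hi, key j hj] at this
    omega

/-- number of inversions of a star -/
theorem inv_star {n : ℕ} (hn : 1 ≤ n) {Z : Finset α} (hZ : DC p q Z) {v : α}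
    (hv : ∀ z ∈ Z, E p q v z) (hZn : n ≤ Z.card) :
    (insert v (sub Z (n - 1))).card = n ∧ Cn p q (insert v (sub Z (n - 1))) ∧
      cnt (V p q) (insert v (sub Z (n - 1))) = n - 1 := by
  have hs := sub_subset Z (n - 1)
  have hv' : v ∉ sub Z (n - 1) := fun h => by
    have := hv v (hs h); unfold E V at this; omega
  refine ⟨?_, ?_, ?_⟩
  · rw [card_insert_of_notMem hv', card_sub (by omega)]; omega
  · refine Cn_star (y := v) (mem_insert_self _ _) ?_
    intro z hz hzy
    rcases mem_insert.1 hz with h | h
    · exact absurd h hzy
    · exact E_symm (hv z (hs h))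
  · rw [inv_insert hv', cnt_eq_zero, zero_add, filter_true_of_mem, card_sub (by omega)]
    · intro z hz; exact hv z (hs hz)
    · intro s hs' t ht hV
      have hst : s ≠ t := by rintro rfl; exact V_irrefl _ hV
      exact hZ s (hs hs') t (hs ht) hst (Or.inl hV)

/-- two adjacent points `v`, `x`; `v` is adjacent to a long increasing chain, `x` is adjacent to
an element of the chain and not to two long parts on both sides -/
theorem fam_cutD' (hp : Function.Injective p) (hq : Function.Injective q) {n : ℕ} (hn : 3 ≤ n)
    {Z : Finset α} (hZ : DC p q Z) {v x : α} (hvx : E p q v x)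
    (hvZ : ∀ z ∈ Z, E p q v z) (hxZ : x ∉ Z) {b : α} (hb : b ∈ Z) (hxb : E p q x b)
    (hA : n ≤ (Z.filter fun c => D p q c x).card) (hC : n ≤ (Z.filter fun c => D p q x c).card) :
    Rich p q n := by
  set A := Z.filter fun c => D p q c x with hAd
  set C := Z.filter fun c => D p q x c with hCd
  have hA' : ∀ a ∈ A, a ∈ Z ∧ D p q a x := fun a ha => by rwa [hAd, mem_filter] at ha
  have hC' : ∀ a ∈ C, a ∈ Z ∧ D p q x a := fun a ha => by rwa [hCd, mem_filter] at ha
  have hvx' : v ≠ x := by rintro rfl; unfold E V at hvx; omega
  have hvZ' : v ∉ Z := fun h => by have := hvZ v h; unfold E V at this; omega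
  have hbv : b ≠ v := by rintro rfl; exact hvZ' hb
  have hbx : b ≠ x := by rintro rfl; exact hxZ hb
  have hAb : ∀ a ∈ A, D p q a b := by
    intro a ha
    obtain ⟨h1, h2⟩ := hA' a ha
    have hne : a ≠ b := by rintro rfl; unfold E V at hxb; unfold D at h2; omega
    rcases (not_E_iff hp hq hne).1 (hZ a h1 b hb hne) with h | h
    · exact h
    · have := D_trans _ _ _ h h2
      unfold D at this; unfold E V at hxb; omega
  have hbC : ∀ a ∈ C, D p q b a := by
    intro a ha
    obtain ⟨h1, h2⟩ := hC' a ha
    have hne : a ≠ b := by rintro rfl; unfold E V at hxb; unfold D at h2; omega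
    rcases (not_E_iff hp hq hne).1 (hZ a h1 b hb hne) with h | h
    · have := D_trans _ _ _ h2 h
      unfold D at this; unfold E V at hxb; omega
    · exact h
  have hbA : b ∉ A := fun h => D_irrefl _ (hAb b h)
  have hbC' : b ∉ C := fun h => D_irrefl _ (hbC b h)
  have hAC : ∀ a ∈ A, ∀ c ∈ C, D p q a c := fun a ha c hc => D_trans _ _ _ (hAb a ha) (hbC c hc)
  have hZn : n ≤ Z.card := hA.trans (card_le_card (filter_subset _ _))
  set F : ℕ → Finset α := fun a =>
    if a < n - 2 then insert v (insert x (insert b (sub A a ∪ sub C (n - 3 - a))))
    else insert v (sub Z (n - 1)) with hF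
  have e1 : ∀ a, a < n - 2 → (insert b (sub A a ∪ sub C (n - 3 - a))).card = n - 2 := by
    intro a ha
    have hAs := sub_subset A a
    have hCs := sub_subset C (n - 3 - a)
    rw [card_insert_of_notMem, card_union_of_disjoint, card_sub (by omega), card_sub (by omega)]
    · omega
    · rw [disjoint_left]
      intro y hy hy'
      exact D_irrefl y (hAC y (hAs hy) y (hCs hy'))
    · rw [mem_union]; rintro (h | h)
      · exact hbA (hAs h)
      · exact hbC' (hCs h)
  have hsubZ : ∀ a, insert b (sub A a ∪ sub C (n - 3 - a)) ⊆ Z := by
    intro a y hy
    rw [mem_insert, mem_union] at hy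
    rcases hy with rfl | hy | hy
    · exact hb
    · exact (hA' y (sub_subset A a hy)).1
    · exact (hC' y (sub_subset C _ hy)).1
  have hx1 : ∀ a, x ∉ insert b (sub A a ∪ sub C (n - 3 - a)) := fun a h => hxZ (hsubZ a h)
  have hv1 : ∀ a, v ∉ insert x (insert b (sub A a ∪ sub C (n - 3 - a))) := by
    intro a h
    rcases mem_insert.1 h with h | h
    · exact hvx' h
    · exact hvZ' (hsubZ a h)
  have hadj : ∀ a, ∀ z ∈ insert x (insert b (sub A a ∪ sub C (n - 3 - a))), E p q v z := by
    intro a z hz
    rcases mem_insert.1 hz with rfl | hz
    · exact hvx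
    · exact hvZ z (hsubZ a hz)
  -- inversions of the main family
  have hinv : ∀ a, a < n - 2 →
      cnt (V p q) (insert v (insert x (insert b (sub A a ∪ sub C (n - 3 - a))))) = n := by
    intro a ha
    have hAs := sub_subset A a
    have hCs := sub_subset C (n - 3 - a)
    rw [inv_insert (hv1 a), inv_insert (hx1 a), cnt_eq_zero, zero_add,
      filter_true_of_mem (hadj a), card_insert_of_notMem (hx1 a), e1 a ha]
    · have : (insert b (sub A a ∪ sub C (n - 3 - a))).filter (fun t => E p q x t) = {b} := by
        ext y
        rw [mem_filter, mem_insert, mem_union, mem_singleton]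
        constructor
        · rintro ⟨rfl | hy | hy, h⟩
          · rfl
          · have := (hA' y (hAs hy)).2
            unfold D at this; unfold E V at h; omega
          · have := (hC' y (hCs hy)).2
            unfold D at this; unfold E V at h; omega
        · rintro rfl
          exact ⟨Or.inl rfl, hxb⟩
      rw [this, card_singleton]
      omega
    · intro s hs t ht hV
      have hst : s ≠ t := by rintro rfl; exact V_irrefl _ hV
      exact hZ s (hsubZ a hs) t (hsubZ a ht) hst (Or.inl hV)
  have hKD : ∀ a, a < n - 2 →
      KD p q (insert v (insert x (insert b (sub A a ∪ sub C (n - 3 - a))))) = a := by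
    intro a ha
    have hAs := sub_subset A a
    have hCs := sub_subset C (n - 3 - a)
    rw [KD_eq (K := sub A a), card_sub (by omega)]
    intro y
    constructor
    · rintro ⟨hy, s, hs, t, ht, h1, h2, h3⟩
      -- `v` is adjacent to all other points
      have hvz : ∀ z ∈ insert v (insert x (insert b (sub A a ∪ sub C (n - 3 - a)))),
          z = v ∨ E p q v z := by
        intro z hz
        rcases mem_insert.1 hz with h | h
        · exact Or.inl h
        · exact Or.inr (hadj a z h)
      have hyv : y ≠ v := by
        rintro rfl
        rcases hvz s hs with h | h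
        · rw [h] at h1; exact D_irrefl _ h1
        · unfold E V at h; unfold D at h1; omega
      have hyE := (hvz y hy).resolve_left hyv
      have hsv : s ≠ v := by
        rintro rfl
        unfold E V at hyE; unfold D at h1; omega
      have htv : t ≠ v := by
        rintro rfl
        unfold E V at hyE; unfold D at h2; omega
      have hs' := (mem_insert.1 hs).resolve_left hsv
      have ht' := (mem_insert.1 ht).resolve_left htv
      have hst : s ≠ t := by rintro rfl; exact V_irrefl _ h3
      have h4 : s = x ∨ t = x := by
        by_contra h
        rw [not_or] at h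
        exact hZ s (hsubZ a ((mem_insert.1 hs').resolve_left h.1)) t
          (hsubZ a ((mem_insert.1 ht').resolve_left h.2)) hst (Or.inl h3)
      have h5 : D p q y x := by
        rcases h4 with h4 | h4
        · rw [h4] at h1; exact h1
        · rw [h4] at h2; exact h2
      have hy' := (mem_insert.1 hy).resolve_left hyv
      rw [mem_insert, mem_insert, mem_union] at hy'
      rcases hy' with rfl | rfl | hy' | hy'
      · exact absurd h5 (D_irrefl _)
      · unfold E V at hxb; unfold D at h5; omega
      · exact hy'
      · exfalso
        exact D_irrefl _ (D_trans _ _ _ h5 (hC' y (hCs hy')).2)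
    · intro hy
      have hmem : y ∈ insert v (insert x (insert b (sub A a ∪ sub C (n - 3 - a)))) :=
        mem_insert_of_mem (mem_insert_of_mem (mem_insert_of_mem (mem_union_left _ hy)))
      have hxm : x ∈ insert v (insert x (insert b (sub A a ∪ sub C (n - 3 - a)))) :=
        mem_insert_of_mem (mem_insert_self _ _)
      have hbm : b ∈ insert v (insert x (insert b (sub A a ∪ sub C (n - 3 - a)))) :=
        mem_insert_of_mem (mem_insert_of_mem (mem_insert_self _ _))
      rcases hxb with h | h
      · exact ⟨hmem, x, hxm, b, hbm, (hA' y (hAs hy)).2, hAb y (hAs hy), h⟩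
      · exact ⟨hmem, b, hbm, x, hxm, hAb y (hAs hy), (hA' y (hAs hy)).2, h⟩
  obtain ⟨s1, s2, s3⟩ := inv_star (n := n) (by omega) hZ hvZ hZn
  refine Rich_of (range (n - 1)) F ?_ ?_ ?_
  · rw [card_range]; omega
  · intro a ha
    rw [mem_range] at ha
    simp only [hF]
    split_ifs with h
    · constructor
      · rw [card_insert_of_notMem (hv1 a), card_insert_of_notMem (hx1 a), e1 a h]; omega
      · refine Cn_star (y := v) (mem_insert_self _ _) ?_
        intro z hz hzy
        exact E_symm (hadj a z ((mem_insert.1 hz).resolve_left hzy))
    · exact ⟨s1, s2⟩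
  · intro i hi j hj h
    rw [mem_range] at hi hj
    simp only [hF] at h
    split_ifs at h with h1 h2 h2
    · have := KD_iso h
      rw [hKD i h1, hKD j h2] at this
      exact this
    · have := inv_iso h
      rw [hinv i h1, s3] at this
      omega
    · have := inv_iso h
      rw [hinv j h2, s3] at this
      omega
    · omega

/-- a point `v` left-above a long increasing chain, and a point `x` left-below `v` which is
adjacent to a long part of the chain and not adjacent to another long part -/
theorem fam_cutD'' (hp : Function.Injective p) (hq : Function.Injective q) {n : ℕ} (hn : 3 ≤ n)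
    {Z : Finset α} (hZ : DC p q Z) {v x : α} (hxv : D p q x v)
    (hvZ : ∀ z ∈ Z, V p q v z)
    (hB : n ≤ (Z.filter fun c => V p q x c).card) (hC : n ≤ (Z.filter fun c => D p q x c).card) :
    Rich p q n := by
  set B := Z.filter fun c => V p q x c with hBd
  set C := Z.filter fun c => D p q x c with hCd
  have hB' : ∀ a ∈ B, a ∈ Z ∧ V p q x a := fun a ha => by rwa [hBd, mem_filter] at ha
  have hC' : ∀ a ∈ C, a ∈ Z ∧ D p q x a := fun a ha => by rwa [hCd, mem_filter] at ha
  have hvZ' : v ∉ Z := fun h => V_irrefl _ (hvZ v h)
  have hxv' : x ≠ v := by rintro rfl; exact D_irrefl _ hxv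
  have hxZ : x ∉ Z := fun h => by
    have := hvZ x h; unfold V at this; unfold D at hxv; omega
  have hZn : n ≤ Z.card := hB.trans (card_le_card (filter_subset _ _))
  obtain ⟨s1, s2, s3⟩ := inv_star (n := n) (by omega) hZ (fun z hz => Or.inl (hvZ z hz)) hZn
  set F : ℕ → Finset α := fun b =>
    if b < n - 1 then insert x (insert v (sub B b ∪ sub C (n - 2 - b)))
    else insert v (sub Z (n - 1)) with hF
  have hsubZ : ∀ b, sub B b ∪ sub C (n - 2 - b) ⊆ Z := by
    intro a y hy
    rw [mem_union] at hy
    rcases hy with hy | hy
    · exact (hB' y (sub_subset B a hy)).1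
    · exact (hC' y (sub_subset C _ hy)).1
  have hv1 : ∀ b, v ∉ sub B b ∪ sub C (n - 2 - b) := fun b h => hvZ' (hsubZ b h)
  have hx1 : ∀ b, x ∉ insert v (sub B b ∪ sub C (n - 2 - b)) := by
    intro b h
    rcases mem_insert.1 h with h | h
    · exact hxv' h
    · exact hxZ (hsubZ b h)
  have hxl : ∀ b, ∀ y ∈ insert x (insert v (sub B b ∪ sub C (n - 2 - b))), y ≠ x → p x < p y := by
    intro b y hy hne
    have hy := (mem_insert.1 hy).resolve_left hne
    rcases mem_insert.1 hy with rfl | hy
    · exact hxv.1
    · have := hvZ y (hsubZ b hy)
      unfold V at this; unfold D at hxv; omega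
  refine Rich_of (Finset.Ico 1 n) F ?_ ?_ ?_
  · rw [Nat.card_Ico]; omega
  · intro b hb
    rw [mem_Ico] at hb
    simp only [hF]
    split_ifs with h
    · have hBs := sub_subset B b
      have hCs := sub_subset C (n - 2 - b)
      constructor
      · rw [card_insert_of_notMem (hx1 b), card_insert_of_notMem (hv1 b), card_union_of_disjoint,
          card_sub (by omega), card_sub (by omega)]
        · omega
        · rw [disjoint_left]
          intro y hy hy'
          have h1 := (hB' y (hBs hy)).2
          have h2 := (hC' y (hCs hy')).2
          unfold V at h1; unfold D at h2; omega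
      · obtain ⟨y, hy⟩ := sub_nonempty (Y := B) (k := b) (by omega) (by omega)
        refine Cn.ins (y := y) (Cn_star (y := v) (mem_insert_self _ _) ?_)
          (mem_insert_of_mem (mem_union_left _ hy)) (hx1 b) (Or.inl (hB' y (hBs hy)).2)
        intro z hz hzy
        exact Or.inr (hvZ z (hsubZ b ((mem_insert.1 hz).resolve_left hzy)))
    · exact ⟨s1, s2⟩
  · have key : ∀ b ∈ Finset.Ico 1 n, St p q (F b) b := by
      intro b hb
      rw [mem_Ico] at hb
      simp only [hF]
      split_ifs with h
      · have hBs := sub_subset B b
        have hCs := sub_subset C (n - 2 - b)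
        refine ⟨x, mem_insert_self _ _, hxl b, ?_⟩
        have : (insert x (insert v (sub B b ∪ sub C (n - 2 - b)))).filter (fun y => q y < q x)
            = sub B b := by
          ext y
          rw [mem_filter, mem_insert, mem_insert, mem_union]
          constructor
          · rintro ⟨rfl | rfl | hy | hy, h1⟩
            · omega
            · unfold D at hxv; omega
            · exact hy
            · have := (hC' y (hCs hy)).2
              unfold D at this; omega
          · intro hy
            exact ⟨Or.inr (Or.inr (Or.inl hy)), (hB' y (hBs hy)).2.2⟩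
        rw [this, card_sub (by omega)]
      · have hb' : b = n - 1 := by omega
        subst hb'
        have hs := sub_subset Z (n - 1)
        have hv' : v ∉ sub Z (n - 1) := fun h => hvZ' (hs h)
        refine ⟨v, mem_insert_self _ _, ?_, ?_⟩
        · intro y hy hne
          exact (hvZ y (hs ((mem_insert.1 hy).resolve_left hne))).1
        · have : (insert v (sub Z (n - 1))).filter (fun y => q y < q v) = sub Z (n - 1) := by
            ext y
            rw [mem_filter, mem_insert]
            constructor
            · rintro ⟨rfl | hy, h1⟩
              · omega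
              · exact hy
            · intro hy
              exact ⟨Or.inr hy, (hvZ y (hs hy)).2⟩
          rw [this, card_sub (by omega)]
    intro i hi j hj h
    exact St_iso h (key i hi) (key j hj)

/-! ### growing sequences -/

/-- `t 0, …, t (N - 1)` are distinct and each one is adjacent to an earlier one -/
def Grow (p q : α → ℤ) (t : ℕ → α) (N : ℕ) : Prop :=
  (∀ i < N, ∀ j < N, t i = t j → i = j) ∧ ∀ i < N, 0 < i → ∃ j < i, E p q (t i) (t j)

theorem Grow.cn {t : ℕ → α} {N : ℕ} (h : Grow p q t N) {k : ℕ} (hk : 0 < k) (hkN : k ≤ N) :
    Cn p q ((range k).image t) := by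
  induction k with
  | zero => omega
  | succ k ih =>
    rw [range_add_one, image_insert]
    rcases Nat.eq_zero_or_pos k with rfl | hk'
    · simp only [range_zero, image_empty, insert_empty_eq]
      exact Cn.single _
    · obtain ⟨j, hj, hE⟩ := h.2 k (by omega) hk'
      refine Cn.ins (ih hk' (by omega)) (mem_image_of_mem t (mem_range.2 hj)) ?_ hE
      intro hmem
      obtain ⟨i, hi, hik⟩ := mem_image.1 hmem
      rw [mem_range] at hi
      have := h.1 i (by omega) k (by omega) hik
      omega

theorem Grow.card {t : ℕ → α} {N : ℕ} (h : Grow p q t N) {k : ℕ} (hkN : k ≤ N) :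
    ((range k).image t).card = k := by
  rw [card_image_of_injOn, card_range]
  intro i hi j hj hij
  rw [coe_range, Set.mem_Iio] at hi hj
  exact h.1 i (by omega) j (by omega) hij

/-- a long decreasing module with a growing sequence above it -/
theorem fam_seqV (hp : Function.Injective p) (hq : Function.Injective q) {n : ℕ} (hn : 2 ≤ n)
    {H : Finset α} (hH : VC p q H) (hHn : n ≤ H.card) {t : ℕ → α} (ht : Grow p q t (n - 1))
    (h0 : ∀ h ∈ H, V p q h (t 0)) (h1 : ∀ h ∈ H, ∀ i < n - 1, 0 < i → D p q h (t i)) :
    Rich p q n := by
  have htH : ∀ i < n - 1, t i ∉ H := by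
    intro i hi hmem
    rcases Nat.eq_zero_or_pos i with rfl | hi'
    · exact V_irrefl _ (h0 _ hmem)
    · exact D_irrefl _ (h1 _ hmem i hi hi')
  refine Rich_of (Finset.Ico 1 n) (fun k => sub H k ∪ (range (n - k)).image t) ?_ ?_ ?_
  · rw [Nat.card_Ico]; omega
  · intro k hk
    rw [mem_Ico] at hk
    have hHs := sub_subset H k
    constructor
    · rw [card_union_of_disjoint, card_sub (by omega), ht.card (by omega)]
      · omega
      · rw [disjoint_left]
        intro x hx hx'
        obtain ⟨i, hi, rfl⟩ := mem_image.1 hx'
        rw [mem_range] at hi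
        exact htH i (by omega) (hHs hx)
    · rw [union_comm]
      refine Cn_union (ht.cn (by omega) (by omega)) (y := t 0)
        (mem_image_of_mem t (mem_range.2 (by omega))) fun x hx _ => Or.inl (h0 x (hHs hx))
  · have key : ∀ k ∈ Finset.Ico 1 n, St p q (sub H k ∪ (range (n - k)).image t) k := by
      intro k hk
      rw [mem_Ico] at hk
      have hHs := sub_subset H k
      obtain ⟨h, hh, hmin⟩ := exists_left hp (sub_nonempty (Y := H) (k := k) (by omega)
        (by omega))
      refine ⟨h, mem_union_left _ hh, ?_, ?_⟩
      · intro y hy hne
        rcases mem_union.1 hy with hy | hy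
        · exact hmin y hy hne
        · obtain ⟨i, hi, rfl⟩ := mem_image.1 hy
          rw [mem_range] at hi
          rcases Nat.eq_zero_or_pos i with rfl | hi'
          · exact (h0 h (hHs hh)).1
          · exact (h1 h (hHs hh) i (by omega) hi').1
      · have : (sub H k ∪ (range (n - k)).image t).filter (fun y => q y < q h)
            = insert (t 0) ((sub H k).erase h) := by
          ext y
          rw [mem_filter, mem_union, mem_insert, mem_erase]
          constructor
          · rintro ⟨hy | hy, h2⟩
            · right
              exact ⟨by rintro rfl; omega, hy⟩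
            · obtain ⟨i, hi, rfl⟩ := mem_image.1 hy
              rw [mem_range] at hi
              rcases Nat.eq_zero_or_pos i with rfl | hi'
              · exact Or.inl rfl
              · have := (h1 h (hHs hh) i (by omega) hi').2
                omega
          · rintro (rfl | ⟨h2, h3⟩)
            · exact ⟨Or.inr (mem_image_of_mem t (mem_range.2 (by omega))), (h0 h (hHs hh)).2⟩
            · refine ⟨Or.inl h3, ?_⟩
              have h4 := hH h (hHs hh) y (hHs h3) (Ne.symm h2)
              have h5 := hmin y h3 h2
              unfold E V at h4; omega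
        rw [this, card_insert_of_notMem, card_erase_of_mem hh, card_sub (by omega)]
        · omega
        · intro h2
          exact htH 0 (by omega) (hHs (mem_erase.1 h2).2)
    intro i hi j hj h
    exact St_iso h (key i hi) (key j hj)

/-- a long module with a growing sequence above it, whose first point has only one neighbour in
the sequence -/
theorem fam_seqD (hp : Function.Injective p) (hq : Function.Injective q) {n : ℕ} (hn : 2 ≤ n)
    {H : Finset α} (hHn : n ≤ H.card) {t : ℕ → α} (ht : Grow p q t n)
    (h0 : ∀ h ∈ H, V p q (t 0) h) (h1 : ∀ h ∈ H, ∀ i < n, 0 < i → D p q h (t i))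
    (h2 : ∀ i < n, 1 < i → ¬ E p q (t 0) (t i)) :
    Rich p q n := by
  have htH : ∀ i < n, t i ∉ H := by
    intro i hi hmem
    rcases Nat.eq_zero_or_pos i with rfl | hi'
    · exact V_irrefl _ (h0 _ hmem)
    · exact D_irrefl _ (h1 _ hmem i hi hi')
  obtain ⟨h', hh'⟩ : H.Nonempty := by rw [← card_pos]; omega
  have h01 : V p q (t 0) (t 1) := by
    obtain ⟨j, hj, hE⟩ := ht.2 1 (by omega) (by omega)
    have : j = 0 := by omega
    subst this
    have e1 := h0 h' hh'
    have e2 := h1 h' hh' 1 (by omega) (by omega)
    unfold E V at hE; unfold V at e1; unfold D at e2; unfold V; omega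
  have h0j : ∀ i < n, 1 < i → D p q (t 0) (t i) := by
    intro i hi hi'
    have hne : t 0 ≠ t i := fun e => by
      have := ht.1 0 (by omega) i hi e
      omega
    have e1 := h0 h' hh'
    have e2 := h1 h' hh' i hi (by omega)
    rcases (not_E_iff hp hq hne).1 (h2 i hi hi') with h | h
    · exact h
    · unfold D at h e2; unfold V at e1; omega
  refine Rich_of (range (n - 1)) (fun k => sub H k ∪ (range (n - k)).image t) ?_ ?_ ?_
  · rw [card_range]; omega
  · intro k hk
    rw [mem_range] at hk
    have hHs := sub_subset H k
    constructor
    · rw [card_union_of_disjoint, card_sub (by omega), ht.card (by omega)]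
      · omega
      · rw [disjoint_left]
        intro x hx hx'
        obtain ⟨i, hi, rfl⟩ := mem_image.1 hx'
        rw [mem_range] at hi
        exact htH i (by omega) (hHs hx)
    · rw [union_comm]
      refine Cn_union (ht.cn (by omega) (by omega)) (y := t 0)
        (mem_image_of_mem t (mem_range.2 (by omega))) fun x hx _ => Or.inr (h0 x (hHs hx))
  · have key : ∀ k ∈ range (n - 1), St p q (sub H k ∪ (range (n - k)).image t) (k + 1) := by
      intro k hk
      rw [mem_range] at hk
      have hHs := sub_subset H k
      refine ⟨t 0, mem_union_right _ (mem_image_of_mem t (mem_range.2 (by omega))), ?_, ?_⟩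
      · intro y hy hne
        rcases mem_union.1 hy with hy | hy
        · exact (h0 y (hHs hy)).1
        · obtain ⟨i, hi, rfl⟩ := mem_image.1 hy
          rw [mem_range] at hi
          rcases Nat.lt_or_ge 1 i with hi' | hi'
          · exact (h0j i (by omega) hi').1
          · have : i = 1 := by
              rcases Nat.eq_zero_or_pos i with rfl | h
              · exact absurd rfl hne
              · omega
            subst this
            exact h01.1
      · have : (sub H k ∪ (range (n - k)).image t).filter (fun y => q y < q (t 0))
            = insert (t 1) (sub H k) := by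
          ext y
          rw [mem_filter, mem_union, mem_insert]
          constructor
          · rintro ⟨hy | hy, h3⟩
            · exact Or.inr hy
            · obtain ⟨i, hi, rfl⟩ := mem_image.1 hy
              rw [mem_range] at hi
              rcases Nat.lt_or_ge 1 i with hi' | hi'
              · have := (h0j i (by omega) hi').2
                omega
              · left
                rcases Nat.eq_zero_or_pos i with rfl | h
                · omega
                · congr 1; omega
          · rintro (rfl | h3)
            · exact ⟨Or.inr (mem_image_of_mem t (mem_range.2 (by omega))), h01.2⟩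
            · exact ⟨Or.inl h3, (h0 y (hHs h3)).2⟩
        rw [this, card_insert_of_notMem, card_sub (by omega)]
        intro h3
        exact htH 1 (by omega) (hHs h3)
    intro i hi j hj h
    have := St_iso h (key i hi) (key j hj)
    omega

end Pool.Agent.Helper36.Indec
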