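import Pool.Agent.Helper36.Indec.PermDefs
import Pool.Agent.Helper36.Indec.Count

/-!
Sum indecomposable permutations and connected point sets; the main theorem.
-/

set_option linter.unusedVariables false
set_option linter.unusedSectionVars false

namespace Pool.Agent.Helper36.Indec

open Finset Classical

theorem dsum_lt {k m : ℕ} (α : Equiv.Perm (Fin k)) (β : Equiv.Perm (Fin m)) {x : Fin (k + m)}
    (hx : (x : ℕ) < k) : (dsum α β x : ℕ) < k := by
  have : x = Fin.castAdd m ⟨x, hx⟩ := by ext; rfl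
  rw [this, dsum_castAdd]
  exact (α ⟨x, hx⟩).2

theorem dsum_ge {k m : ℕ} (α : Equiv.Perm (Fin k)) (β : Equiv.Perm (Fin m)) {x : Fin (k + m)}
    (hx : k ≤ (x : ℕ)) : k ≤ (dsum α β x : ℕ) := by
  have hlt : (x : ℕ) - k < m := by have := x.2; omega
  have : x = Fin.natAdd k ⟨(x : ℕ) - k, hlt⟩ := by
    ext
    rw [Fin.val_natAdd]
    dsimp only
    omega
  rw [this, dsum_natAdd, Fin.val_natAdd]
  omega

/-- a permutation which maps an initial segment onto itself is decomposable -/
theorem not_indec {N k : ℕ} (π : Equiv.Perm (Fin N)) (hk0 : 0 < k) (hkN : k < N)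
    (h1 : ∀ x : Fin N, (x : ℕ) < k → (π x : ℕ) < k)
    (h2 : ∀ x : Fin N, k ≤ (x : ℕ) → k ≤ (π x : ℕ)) : ¬ Indecomposable π := by
  intro h
  apply h
  obtain ⟨m, rfl⟩ := Nat.exists_eq_add_of_lt hkN
  have hm : k + (m + 1) = k + m + 1 := by omega
  have ha : Function.Injective fun i : Fin k =>
      (⟨π ⟨i, by omega⟩, h1 _ i.2⟩ : Fin k) := by
    intro i j hij
    have h3 := Fin.mk.inj_iff.1 hij
    have h4 := π.injective (Fin.ext h3)
    exact Fin.ext (Fin.mk.inj_iff.1 h4)
  have hb : Function.Injective fun i : Fin (m + 1) =>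
      (⟨(π ⟨k + i, by omega⟩ : ℕ) - k, by
        have := (π ⟨k + i, by omega⟩).2; omega⟩ : Fin (m + 1)) := by
    intro i j hij
    have h3 := Fin.mk.inj_iff.1 hij
    have h5 := h2 ⟨k + i, by omega⟩ (Nat.le_add_right _ _)
    have h6 := h2 ⟨k + j, by omega⟩ (Nat.le_add_right _ _)
    have h4 := π.injective (Fin.ext (by omega : (π ⟨k + i, _⟩ : ℕ) = π ⟨k + j, _⟩))
    have h7 := Fin.mk.inj_iff.1 h4
    apply Fin.ext
    omega
  refine ⟨k, m + 1, hm, Equiv.ofBijective _ (Finite.injective_iff_bijective.1 ha),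
    Equiv.ofBijective _ (Finite.injective_iff_bijective.1 hb), hk0, by omega, ?_⟩
  apply Equiv.ext
  intro x
  rw [Equiv.permCongr_apply]
  apply Fin.ext
  rcases lt_or_ge (x : ℕ) k with hx | hx
  · have e1 : (finCongr hm).symm x = Fin.castAdd (m + 1) ⟨x, hx⟩ := by ext; rfl
    rw [e1, dsum_castAdd]
    rfl
  · have hlt : (x : ℕ) - k < m + 1 := by have := x.2; omega
    have e1 : (finCongr hm).symm x = Fin.natAdd k ⟨(x : ℕ) - k, hlt⟩ := by
      ext
      rw [Fin.val_natAdd]
      show (x : ℕ) = k + ((x : ℕ) - k)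
      omega
    rw [e1, dsum_natAdd]
    show (π x : ℕ) = k + ((π ⟨k + ((x : ℕ) - k), _⟩ : ℕ) - k)
    have e2 : (⟨k + ((x : ℕ) - k), by omega⟩ : Fin (k + m + 1)) = x := by
      apply Fin.ext
      show k + ((x : ℕ) - k) = x
      omega
    rw [e2]
    have := h2 x hx
    omega

theorem conn_of_indec {N : ℕ} {π : Equiv.Perm (Fin N)} (h : Indecomposable π) :
    Conn (X N) (Y π) := by
  intro S hS hSu
  by_contra hno
  push Not at hno
  -- the side of position `0` may be assumed to be `S`
  have key : ∀ S : Finset (Fin N), (∀ y ∈ S, ∀ z, z ∉ S → ¬ E (X N) (Y π) y z) →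
      (∃ x ∈ S, (x : ℕ) = 0) → S ≠ univ → False := by
    intro S hno h0 hSu
    have hne : (univ \ S).Nonempty := by
      rw [nonempty_iff_ne_empty]
      intro he
      rw [sdiff_eq_empty_iff_subset] at he
      exact hSu (univ_subset_iff.1 he)
    set k := (univ \ S).min' hne with hk
    have hkS : k ∉ S := (mem_sdiff.1 (min'_mem _ hne)).2
    have hlt : ∀ x, x < k → x ∈ S := by
      intro x hx
      by_contra hxS
      have := min'_le (univ \ S) x (mem_sdiff.2 ⟨mem_univ _, hxS⟩)
      exact absurd hx (not_lt.2 this)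
    have hk0 : 0 < (k : ℕ) := by
      obtain ⟨x, hx, hx0⟩ := h0
      rw [Nat.pos_iff_ne_zero]
      intro hk0
      apply hkS
      have : k = x := Fin.ext (hk0.trans hx0.symm)
      rw [this]; exact hx
    have noinv : ∀ x y, x < y → (x ∈ S ∧ y ∉ S ∨ x ∉ S ∧ y ∈ S) → π x < π y := by
      intro x y hxy hs
      have hne : ¬ E (X N) (Y π) x y := by
        rcases hs with ⟨h1, h2⟩ | ⟨h1, h2⟩
        · exact hno x h1 y h2
        · intro he
          exact hno y h2 x h1 (E_symm he)
      rw [not_E_iff (X_inj N) (Y_inj π) hxy.ne] at hne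
      rcases hne with h3 | h3
      · exact Y_lt.1 h3.2
      · exact absurd (X_lt.1 h3.1) (not_lt.2 hxy.le)
    have hval : ∀ x y, x < k → k ≤ y → π x < π y := by
      intro x y hx hy
      by_cases hyS : y ∈ S
      · have hky : k < y := lt_of_le_of_ne hy (by rintro rfl; exact hkS hyS)
        exact (noinv x k hx (Or.inl ⟨hlt x hx, hkS⟩)).trans (noinv k y hky (Or.inr ⟨hkS, hyS⟩))
      · exact noinv x y (hx.trans_le hy) (Or.inl ⟨hlt x hx, hyS⟩)
    refine not_indec π hk0 k.2 ?_ ?_ h
    · intro x hx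
      have h1 : (Finset.Ici k).image π ⊆ Finset.Ioi (π x) := by
        intro z hz
        rw [mem_image] at hz
        obtain ⟨y, hy, rfl⟩ := hz
        rw [mem_Ioi]
        exact hval x y hx (mem_Ici.1 hy)
      have h2 := card_le_card h1
      rw [card_image_of_injective _ π.injective, Fin.card_Ici, Fin.card_Ioi] at h2
      have := k.2
      have := (π x).2
      omega
    · intro y hy
      have h1 : (Finset.Iio k).image π ⊆ Finset.Iio (π y) := by
        intro z hz
        rw [mem_image] at hz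
        obtain ⟨x, hx, rfl⟩ := hz
        rw [mem_Iio]
        exact hval x y (mem_Iio.1 hx) hy
      have h2 := card_le_card h1
      rw [card_image_of_injective _ π.injective, Fin.card_Iio, Fin.card_Iio] at h2
      exact h2
  obtain ⟨s, hs⟩ := hS
  have hN : 0 < N := lt_of_le_of_lt (Nat.zero_le _) s.2
  by_cases h0 : (⟨0, hN⟩ : Fin N) ∈ S
  · exact key S hno ⟨_, h0, rfl⟩ hSu
  · refine key (univ \ S) ?_ ⟨_, mem_sdiff.2 ⟨mem_univ _, h0⟩, rfl⟩ ?_
    · intro y hy z hz he
      rw [mem_sdiff] at hy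
      rw [mem_sdiff, not_and, not_not] at hz
      exact hno z (hz (mem_univ _)) y hy.2 (E_symm he)
    · intro he
      have : s ∈ univ \ S := by rw [he]; exact mem_univ _
      exact (mem_sdiff.1 this).2 hs

/-- the pattern of a set of positions -/
theorem exists_pattern {N n : ℕ} (π : Equiv.Perm (Fin N)) (S : Finset (Fin N)) (h : S.card = n) :
    ∃ σ : Equiv.Perm (Fin n), ∀ i j, σ i < σ j ↔
      π (S.orderEmbOfFin h i) < π (S.orderEmbOfFin h j) := by
  have hT : (S.image π).card = n := by rw [card_image_of_injective _ π.injective, h]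
  have hmem : ∀ i, π (S.orderEmbOfFin h i) ∈ S.image π := fun i =>
    mem_image_of_mem π (S.orderEmbOfFin_mem h i)
  have hinj : Function.Injective fun i : Fin n =>
      ((S.image π).orderIsoOfFin hT).symm ⟨π (S.orderEmbOfFin h i), hmem i⟩ := by
    intro i j hij
    have h1 := ((S.image π).orderIsoOfFin hT).symm.injective hij
    rw [Subtype.mk.injEq] at h1
    exact (S.orderEmbOfFin h).injective (π.injective h1)
  refine ⟨Equiv.ofBijective _ (Finite.injective_iff_bijective.1 hinj), fun i j => ?_⟩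
  rw [Equiv.ofBijective_apply, Equiv.ofBijective_apply, OrderIso.lt_iff_lt]
  exact Iff.rfl

/-- the pattern of a connected set is indecomposable -/
theorem pattern_indec {N n : ℕ} {π : Equiv.Perm (Fin N)} {S : Finset (Fin N)} (h : S.card = n)
    (hS : Cn (X N) (Y π) S) {σ : Equiv.Perm (Fin n)} (hσ : ∀ i j, σ i < σ j ↔
      π (S.orderEmbOfFin h i) < π (S.orderEmbOfFin h j)) : Indecomposable σ := by
  rintro ⟨k, m, hkm, α, β, hk, hm, he⟩
  set f := S.orderEmbOfFin h with hf
  have hrange : ∀ x ∈ S, ∃ i, f i = x := by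
    intro x hx
    have : x ∈ Set.range f := by rw [hf, range_orderEmbOfFin]; exact hx
    exact this
  have hval1 : ∀ i : Fin n, (i : ℕ) < k → (σ i : ℕ) < k := by
    intro i hi
    rw [he, Equiv.permCongr_apply]
    exact dsum_lt α β hi
  have hval2 : ∀ i : Fin n, k ≤ (i : ℕ) → k ≤ (σ i : ℕ) := by
    intro i hi
    rw [he, Equiv.permCongr_apply]
    exact dsum_ge α β hi
  set T := (univ.filter fun i : Fin n => (i : ℕ) < k).image f with hT
  have hTS : T ⊆ S := by
    intro x hx
    rw [hT, mem_image] at hx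
    obtain ⟨i, _, rfl⟩ := hx
    exact S.orderEmbOfFin_mem h i
  have h1 : T.Nonempty := by
    refine ⟨f ⟨0, by omega⟩, mem_image_of_mem f ?_⟩
    rw [mem_filter]
    exact ⟨mem_univ _, hk⟩
  have h2 : T ≠ S := by
    intro heq
    have : f ⟨k, by omega⟩ ∈ T := by rw [heq]; exact S.orderEmbOfFin_mem h _
    rw [hT, mem_image] at this
    obtain ⟨i, hi, hfi⟩ := this
    rw [mem_filter] at hi
    have h3 := f.injective hfi
    rw [h3] at hi
    exact lt_irrefl _ hi.2
  obtain ⟨x, hx, y, hyS, hyT, hE⟩ := hS.cut hTS h1 h2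
  rw [hT, mem_image] at hx
  obtain ⟨i, hi, rfl⟩ := hx
  rw [mem_filter] at hi
  obtain ⟨j, rfl⟩ := hrange y hyS
  have hj : k ≤ (j : ℕ) := by
    by_contra hlt
    push Not at hlt
    exact hyT (mem_image_of_mem f (mem_filter.2 ⟨mem_univ _, hlt⟩))
  have hij : i < j := by rw [Fin.lt_def]; omega
  have h3 : σ i < σ j := by
    rw [Fin.lt_def]
    have := hval1 i hi.2
    have := hval2 j hj
    omega
  have h4 := (hσ i j).1 h3
  have h5 : f i < f j := f.strictMono hij
  rcases hE with h6 | h6
  · exact absurd (Y_lt.1 h6.2) (not_lt.2 h4.le)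
  · exact absurd (X_lt.1 h6.1) (not_lt.2 h5.le)

/-- sets with the same pattern are isomorphic -/
theorem pattern_iso {N n : ℕ} {π : Equiv.Perm (Fin N)} {S T : Finset (Fin N)} (h : S.card = n)
    (h' : T.card = n) {σ : Equiv.Perm (Fin n)} (hσ : ∀ i j, σ i < σ j ↔
      π (S.orderEmbOfFin h i) < π (S.orderEmbOfFin h j)) (hσ' : ∀ i j, σ i < σ j ↔
      π (T.orderEmbOfFin h' i) < π (T.orderEmbOfFin h' j)) : PIso (X N) (Y π) S T := by
  set f := S.orderEmbOfFin h with hf
  set f' := T.orderEmbOfFin h' with hf'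
  have hrange : ∀ x ∈ S, ∃ i, f i = x := by
    intro x hx
    have : x ∈ Set.range f := by rw [hf, range_orderEmbOfFin]; exact hx
    exact this
  have hrange' : ∀ x ∈ T, ∃ i, f' i = x := by
    intro x hx
    have : x ∈ Set.range f' := by rw [hf', range_orderEmbOfFin]; exact hx
    exact this
  have hex : ∀ x : Fin N, ∃ y : Fin N, ∀ i, f i = x → f' i = y := by
    intro x
    by_cases hx : ∃ i, f i = x
    · obtain ⟨i, hi⟩ := hx
      refine ⟨f' i, fun j hj => ?_⟩
      rw [f.injective (hj.trans hi.symm)]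
    · exact ⟨x, fun i hi => absurd ⟨i, hi⟩ hx⟩
  choose e he using hex
  have he' : ∀ i, e (f i) = f' i := fun i => (he (f i) i rfl).symm
  refine ⟨e, ⟨?_, ?_, ?_⟩, ?_⟩
  · intro x hx
    obtain ⟨i, rfl⟩ := hrange x hx
    rw [he']
    exact T.orderEmbOfFin_mem h' i
  · intro x hx y hy hxy
    obtain ⟨i, rfl⟩ := hrange x hx
    obtain ⟨j, rfl⟩ := hrange y hy
    rw [he', he'] at hxy
    rw [f'.injective hxy]
  · intro y hy
    obtain ⟨i, rfl⟩ := hrange' y hy
    exact ⟨f i, S.orderEmbOfFin_mem h i, he' i⟩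
  · intro x hx y hy
    obtain ⟨i, rfl⟩ := hrange x hx
    obtain ⟨j, rfl⟩ := hrange y hy
    rw [he', he', X_lt, X_lt, Y_lt, Y_lt, ← hσ, ← hσ', f.lt_iff_lt, f'.lt_iff_lt]
    exact ⟨Iff.rfl, Iff.rfl⟩

/-- a rich member gives many indecomposable permutations -/
theorem ind_of_rich {C : ∀ n : ℕ, Set (Equiv.Perm (Fin n))} (hC : IsClass C) {N n : ℕ}
    {π : Equiv.Perm (Fin N)} (hπ : π ∈ C N) (h : Rich (X N) (Y π) n) :
    n - 1 ≤ (ind C n).ncard := by
  obtain ⟨F, h1, h2, h3⟩ := h
  have hex : ∀ S : Finset (Fin N), ∃ σ : Equiv.Perm (Fin n), ∀ h : S.card = n, ∀ i j,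
      σ i < σ j ↔ π (S.orderEmbOfFin h i) < π (S.orderEmbOfFin h j) := by
    intro S
    by_cases hS : S.card = n
    · obtain ⟨σ, hσ⟩ := exists_pattern π S hS
      exact ⟨σ, fun h => hσ⟩
    · exact ⟨1, fun h => absurd h hS⟩
  choose s hs using hex
  have hsub : ((F.image s : Finset (Equiv.Perm (Fin n))) : Set (Equiv.Perm (Fin n))) ⊆ ind C n := by
    intro σ hσ
    rw [mem_coe, mem_image] at hσ
    obtain ⟨S, hS, rfl⟩ := hσ
    obtain ⟨hc, hcn⟩ := h2 S hS
    refine ⟨hC n N π (s S) hπ ⟨S.orderEmbOfFin hc, (S.orderEmbOfFin hc).strictMono, hs S hc⟩, ?_⟩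
    exact pattern_indec hc hcn (hs S hc)
  have hcard : (F.image s).card = F.card := by
    refine card_image_of_injOn ?_
    intro S hS T hT hST
    have hc := (h2 S hS).1
    have hc' := (h2 T hT).1
    refine h3 S hS T hT (pattern_iso hc hc' (hs S hc) ?_)
    intro i j
    have : s S = s T := hST
    rw [this]
    exact hs T hc' i j
  have h4 := Set.ncard_le_ncard hsub (Set.toFinite _)
  rw [Set.ncard_coe_finset, hcard] at h4
  omega

/-- two points of an inversion form a connected set -/
theorem exists_pair {α : Type} {p q : α → ℤ} {y z : α} (hzy : z ≠ y) (hE : E p q y z) :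
    ∃ S : Finset α, S.card = 2 ∧ Cn p q S := by
  have h : z ∉ ({y} : Finset α) := by
    rw [mem_singleton]
    exact hzy
  exact ⟨insert z {y}, by rw [card_insert_of_notMem h, card_singleton],
    Cn.ins (Cn.single y) (mem_singleton_self _) h (E_symm hE)⟩

theorem ind_lower (C : ∀ n : ℕ, Set (Equiv.Perm (Fin n))) (hC : IsClass C)
    (hunb : ∀ B : ℕ, ∃ n, B < (ind C n).ncard) (n : ℕ) (hn : 1 ≤ n) :
    n - 1 ≤ (ind C n).ncard := by
  rcases Nat.lt_or_ge n 3 with hlt | hge
  · -- lengths one and two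
    rcases Nat.lt_or_ge n 2 with h1 | h2
    · omega
    · obtain ⟨N, hN⟩ := hunb 1
      have hN2 : 2 ≤ N := by
        by_contra hN2
        have h1 : Subsingleton (Equiv.Perm (Fin N)) := by
          have : Subsingleton (Fin N) := by
            constructor
            intro a b
            apply Fin.ext
            have := a.2
            have := b.2
            omega
          exact inferInstance
        have h2 := Set.ncard_le_one_of_subsingleton (ind C N)
        omega
      have hne : (ind C N).Nonempty := by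
        rw [Set.nonempty_iff_ne_empty]
        intro he
        rw [he, Set.ncard_empty] at hN
        omega
      obtain ⟨π, hπ⟩ := hne
      have hconn := conn_of_indec hπ.2
      obtain ⟨y, hy, z, hz, hE⟩ := hconn {⟨0, by omega⟩} (singleton_nonempty _) (by
        intro he
        have : (⟨1, by omega⟩ : Fin N) ∈ ({⟨0, by omega⟩} : Finset (Fin N)) := by
          rw [he]; exact mem_univ _
        rw [mem_singleton, Fin.mk.injEq] at this
        omega)
      have hyz : z ≠ y := by rintro rfl; exact hz hy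
      obtain ⟨S, hS1, hS2⟩ := exists_pair hyz hE
      have hn2 : n = 2 := by omega
      subst hn2
      refine ind_of_rich hC hπ.1 ⟨{S}, by rw [card_singleton], ?_, ?_⟩
      · intro S' hS
        rw [mem_singleton] at hS
        subst hS
        exact ⟨hS1, hS2⟩
      · intro S' hS T hT _
        rw [mem_singleton] at hS hT
        rw [hS, hT]
  · obtain ⟨K, hK⟩ := count hge
    obtain ⟨N, hN⟩ := hunb K
    by_contra hno
    have hsub : ind C N ⊆ ((univ.filter fun π : Equiv.Perm (Fin N) =>
        Conn (X N) (Y π) ∧ ¬ Rich (X N) (Y π) n : Finset (Equiv.Perm (Fin N))) :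
          Set (Equiv.Perm (Fin N))) := by
      intro π hπ
      rw [mem_coe, mem_filter]
      exact ⟨mem_univ _, conn_of_indec hπ.2, fun hR => hno (ind_of_rich hC hπ.1 hR)⟩
    have h4 := Set.ncard_le_ncard hsub (Set.toFinite _)
    rw [Set.ncard_coe_finset] at h4
    have := hK N
    omega

end Pool.Agent.Helper36.Indec
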