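import Pool.Agent.Helper36.Indec.Bound

/-!
Geodesics in the inversion graph.
-/

set_option linter.unusedVariables false
set_option linter.unusedSectionVars false

namespace Pool.Agent.Helper36.Indec

open Finset Classical

variable {α : Type} {p q : α → ℤ}

/-- the inversion graph -/
def G (p q : α → ℤ) : SimpleGraph α where
  Adj x y := E p q x y
  symm := ⟨fun _ _ h => E_symm h⟩
  loopless := ⟨fun x h => by unfold E V at h; omega⟩

theorem G_adj {x y : α} : (G p q).Adj x y ↔ E p q x y := Iff.rfl

theorem G_neg : G (fun x => -q x) (fun x => -p x) = G p q := by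
  ext x y
  rw [G_adj, G_adj, E_neg]

theorem G_connected [Fintype α] [Nonempty α] (h : Conn p q) : (G p q).Connected := by
  rw [SimpleGraph.connected_iff]
  refine ⟨fun x y => ?_, inferInstance⟩
  by_contra hxy
  obtain ⟨a, ha, b, hb, hE⟩ := h (univ.filter fun z => (G p q).Reachable x z)
    ⟨x, by rw [mem_filter]; exact ⟨mem_univ _, SimpleGraph.Reachable.refl _⟩⟩ (by
      intro he
      have : y ∈ univ.filter fun z => (G p q).Reachable x z := by rw [he]; exact mem_univ _
      exact hxy (mem_filter.1 this).2)
  apply hb
  rw [mem_filter] at ha ⊢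
  exact ⟨mem_univ _, ha.2.trans (SimpleGraph.Adj.reachable (G_adj.2 hE))⟩

/-- balls -/
theorem ball_card [Fintype α] (hc : (G p q).Connected) {d : ℕ}
    (hd : ∀ v, (univ.filter fun x => E p q v x).card ≤ d) (v : α) (r : ℕ) :
    (univ.filter fun x => (G p q).dist v x ≤ r).card ≤ (d + 1) ^ r := by
  induction r with
  | zero =>
    have : (univ.filter fun x => (G p q).dist v x ≤ 0) ⊆ {v} := by
      intro x hx
      rw [mem_filter] at hx
      rw [mem_singleton]
      exact (hc.dist_eq_zero_iff.1 (Nat.le_zero.1 hx.2)).symm
    simpa using card_le_card this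
  | succ r ih =>
    set B := univ.filter fun x => (G p q).dist v x ≤ r with hB
    have h1 : (univ.filter fun x => (G p q).dist v x ≤ r + 1) ⊆
        B ∪ B.biUnion fun y => univ.filter fun x => E p q y x := by
      intro x hx
      rw [mem_filter] at hx
      rw [mem_union, mem_biUnion]
      by_cases h : (G p q).dist v x ≤ r
      · left; rw [hB, mem_filter]; exact ⟨mem_univ _, h⟩
      · right
        obtain ⟨w, hw⟩ := hc.exists_walk_length_eq_dist v x
        have hl : w.length = r + 1 := by omega
        refine ⟨w.getVert r, ?_, ?_⟩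
        · rw [hB, mem_filter]
          refine ⟨mem_univ _, ?_⟩
          refine (SimpleGraph.dist_le (w.take r)).trans ?_
          rw [SimpleGraph.Walk.take_length]
          omega
        · rw [mem_filter]
          refine ⟨mem_univ _, ?_⟩
          have := w.adj_getVert_succ (i := r) (by omega)
          rw [← hl, w.getVert_length] at this
          exact this
    have h2 := card_le_card h1
    have h3 := card_union_le B (B.biUnion fun y => univ.filter fun x => E p q y x)
    have h4 : (B.biUnion fun y => univ.filter fun x => E p q y x).card ≤ B.card * d :=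
      card_biUnion_le' fun x _ => hd x
    have h5 : B.card * (d + 1) ≤ (d + 1) ^ r * (d + 1) := Nat.mul_le_mul_right _ ih
    rw [pow_succ]
    rw [mul_add, mul_one] at h5
    omega

/-- a geodesic of maximal length, directed upwards -/
structure Geo [Fintype α] (p q : α → ℤ) (w : ℕ → α) (t : ℕ) : Prop where
  dist : ∀ i j, i ≤ j → j ≤ t → (G p q).dist (w i) (w j) = j - i
  diam : ∀ x y, (G p q).dist x y ≤ t
  dir : ∀ i j, i + 2 ≤ j → j ≤ t → D p q (w i) (w j)

theorem exists_geo (hc : (G p q).Connected) (a b : α) : ∃ w : ℕ → α, w 0 = a ∧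
    w ((G p q).dist a b) = b ∧
    ∀ i j, i ≤ j → j ≤ (G p q).dist a b → (G p q).dist (w i) (w j) = j - i := by
  obtain ⟨W, hW⟩ := hc.exists_walk_length_eq_dist a b
  have hadj : ∀ i, i < (G p q).dist a b → (G p q).Adj (W.getVert i) (W.getVert (i + 1)) :=
    fun i hi => W.adj_getVert_succ (by omega)
  have hle : ∀ i k, i + k ≤ (G p q).dist a b →
      (G p q).dist (W.getVert i) (W.getVert (i + k)) ≤ k := by
    intro i k
    induction k with
    | zero => intro _; simp
    | succ k ih =>
      intro h
      have h1 := ih (by omega)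
      have h2 := SimpleGraph.dist_eq_one_iff_adj.2 (hadj (i + k) (by omega))
      have h3 := hc.dist_triangle (u := W.getVert i) (v := W.getVert (i + k))
        (w := W.getVert (i + (k + 1)))
      rw [← add_assoc] at h3 ⊢
      omega
  have h0 : W.getVert 0 = a := W.getVert_zero
  have ht : W.getVert ((G p q).dist a b) = b := by rw [← hW]; exact W.getVert_length
  refine ⟨W.getVert, h0, ht, ?_⟩
  intro i j hij hj
  have h1 := hle 0 i (by omega)
  have h2 := hle i (j - i) (by omega)
  have h3 := hle j ((G p q).dist a b - j) (by omega)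
  rw [zero_add, h0] at h1
  rw [show i + (j - i) = j by omega] at h2
  rw [show j + ((G p q).dist a b - j) = (G p q).dist a b by omega, ht] at h3
  have h4 := hc.dist_triangle (u := a) (v := W.getVert i) (w := b)
  have h5 := hc.dist_triangle (u := W.getVert i) (v := W.getVert j) (w := b)
  omega

section

variable [Fintype α] {w : ℕ → α} {t : ℕ}

theorem Geo.inj (h : Geo p q w t) {i j : ℕ} (hi : i ≤ t) (hj : j ≤ t) (hij : w i = w j) :
    i = j := by
  rcases le_total i j with h1 | h1
  · have := h.dist i j h1 hj
    rw [hij, SimpleGraph.dist_self] at this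
    omega
  · have := h.dist j i h1 hi
    rw [hij, SimpleGraph.dist_self] at this
    omega

theorem Geo.adj (h : Geo p q w t) {i : ℕ} (hi : i < t) : E p q (w i) (w (i + 1)) := by
  have := h.dist i (i + 1) (by omega) (by omega)
  rw [show i + 1 - i = 1 by omega, SimpleGraph.dist_eq_one_iff_adj] at this
  exact this

/-- directing a geodesic -/
theorem geo_dir (hp : Function.Injective p) (hq : Function.Injective q) {w : ℕ → α} {t : ℕ}
    (hd : ∀ i j, i ≤ j → j ≤ t → (G p q).dist (w i) (w j) = j - i)
    (h0 : D p q (w 0) (w t)) : ∀ i j, i + 2 ≤ j → j ≤ t → D p q (w i) (w j) := by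
  have hadj : ∀ i, i < t → E p q (w i) (w (i + 1)) := by
    intro i hi
    have := hd i (i + 1) (by omega) (by omega)
    rw [show i + 1 - i = 1 by omega, SimpleGraph.dist_eq_one_iff_adj] at this
    exact this
  have hcomp : ∀ i j, i + 2 ≤ j → j ≤ t → D p q (w i) (w j) ∨ D p q (w j) (w i) := by
    intro i j hij hj
    have h1 := hd i j (by omega) hj
    have hne : w i ≠ w j := by
      intro e
      rw [e, SimpleGraph.dist_self] at h1
      omega
    refine (not_E_iff hp hq hne).1 fun hE => ?_
    rw [SimpleGraph.dist_eq_one_iff_adj.2 (G_adj.2 hE)] at h1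
    omega
  intro i
  induction i with
  | zero =>
    intro j hj hjt
    -- downward induction from `t`
    have key : ∀ k, k + 2 ≤ t → D p q (w 0) (w (t - k)) := by
      intro k
      induction k with
      | zero => intro _; simpa using h0
      | succ k ih =>
        intro hk
        have h1 := ih (by omega)
        have h2 := hadj (t - (k + 1)) (by omega)
        rw [show t - (k + 1) + 1 = t - k by omega] at h2
        rcases hcomp 0 (t - (k + 1)) (by omega) (by omega) with h3 | h3
        · exact h3
        · exfalso
          unfold E V at h2; unfold D at h1 h3; omega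
    have := key (t - j) (by omega)
    rwa [show t - (t - j) = j by omega] at this
  | succ i ih =>
    intro j hj hjt
    have h1 := ih j (by omega) hjt
    have h2 := hadj i (by omega)
    rcases hcomp (i + 1) j (by omega) hjt with h3 | h3
    · exact h3
    · exfalso
      unfold E V at h2; unfold D at h1 h3; omega

/-- reversing a geodesic -/
theorem Geo.rev (h : Geo p q w t) : Geo (fun x => -q x) (fun x => -p x) (fun i => w (t - i)) t := by
  refine ⟨?_, ?_, ?_⟩
  · intro i j hij hj
    rw [G_neg, SimpleGraph.dist_comm, h.dist (t - j) (t - i) (by omega) (by omega)]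
    omega
  · intro x y
    rw [G_neg]; exact h.diam x y
  · intro i j hij hj
    rw [D_neg]
    exact h.dir (t - j) (t - i) (by omega) (by omega)

/-- two indices of neighbours of a point are close -/
theorem Geo.close (h : Geo p q w t) (hc : (G p q).Connected) {x : α} {i j : ℕ} (hij : i ≤ j)
    (hj : j ≤ t) (h1 : E p q x (w i)) (h2 : E p q x (w j)) : j ≤ i + 2 := by
  have e1 := h.dist i j hij hj
  have e2 := hc.dist_triangle (u := w i) (v := x) (w := w j)
  rw [SimpleGraph.dist_eq_one_iff_adj.2 (G_adj.2 (E_symm h1)),
    SimpleGraph.dist_eq_one_iff_adj.2 (G_adj.2 h2)] at e2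
  omega

/-- adjacency along the geodesic -/
theorem Geo.adj_iff (h : Geo p q w t) {i j : ℕ} (hi : i ≤ t) (hj : j ≤ t) :
    E p q (w i) (w j) ↔ i + 1 = j ∨ j + 1 = i := by
  rcases le_total i j with h1 | h1
  · have := h.dist i j h1 hj
    rw [← G_adj, ← SimpleGraph.dist_eq_one_iff_adj, this]; omega
  · have := h.dist j i h1 hi
    rw [← G_adj, ← SimpleGraph.dist_eq_one_iff_adj, SimpleGraph.dist_comm, this]; omega

/-- the geodesic is a zigzag -/
theorem Geo.zig (h : Geo p q w t) {i : ℕ} (hi : i + 2 ≤ t) :
    V p q (w i) (w (i + 1)) ↔ ¬ V p q (w (i + 1)) (w (i + 2)) := by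
  have h1 := h.adj (i := i) (by omega)
  have h2 := h.adj (i := i + 1) (by omega)
  rw [show i + 1 + 1 = i + 2 by omega] at h2
  have h3 := h.dir i (i + 2) le_rfl hi
  unfold E V at h1 h2; unfold D at h3; unfold V
  omega

end

end Pool.Agent.Helper36.Indec
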