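import Pool.Agent.Helper36.Indec.Path

/-!
A point attached to the middle of a long geodesic gives a rich point set.
-/

set_option linter.unusedVariables false
set_option linter.unusedSectionVars false

namespace Pool.Agent.Helper36.Indec

open Finset Classical

variable {α : Type} {p q : α → ℤ}

theorem PIso.symm {S T : Finset α} (h : PIso p q S T) : PIso p q T S := by
  obtain ⟨e, he, h⟩ := h
  by_cases hne : Nonempty α
  · have hinv := he.invOn_invFunOn
    have hm : ∀ y ∈ T, Function.invFunOn e S y ∈ S := fun y hy =>
      (he.surjOn.mapsTo_invFunOn) hy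
    have hr : ∀ y ∈ T, e (Function.invFunOn e S y) = y := fun y hy => hinv.2 hy
    refine ⟨Function.invFunOn e S, ?_, ?_⟩
    · exact he.symm hinv.symm
    · intro x hx y hy
      have := h _ (hm x hx) _ (hm y hy)
      rw [hr x hx, hr y hy] at this
      exact ⟨this.1.symm, this.2.symm⟩
  · exact ⟨id, ⟨fun x hx => absurd ⟨x⟩ hne, fun x hx => absurd ⟨x⟩ hne,
      fun x hx => absurd ⟨x⟩ hne⟩, fun x hx => absurd ⟨x⟩ hne⟩

variable [Fintype α] {w : ℕ → α} {t : ℕ}

/-- a segment of the geodesic -/
noncomputable def seg (w : ℕ → α) (a n : ℕ) : Finset α := (range n).image fun i => w (a + i)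

theorem mem_seg {a n : ℕ} {x : α} : x ∈ seg w a n ↔ ∃ i, a ≤ i ∧ i < a + n ∧ w i = x := by
  unfold seg
  rw [mem_image]
  constructor
  · rintro ⟨i, hi, rfl⟩
    rw [mem_range] at hi
    exact ⟨a + i, by omega, by omega, rfl⟩
  · rintro ⟨i, h1, h2, rfl⟩
    refine ⟨i - a, mem_range.2 (by omega), ?_⟩
    congr 1; omega

theorem Geo.grow (h : Geo p q w t) {a n : ℕ} (ha : a + n ≤ t + 1) :
    Grow p q (fun i => w (a + i)) n := by
  constructor
  · intro i hi j hj hij
    have := h.inj (i := a + i) (j := a + j) (by omega) (by omega) hij
    omega
  · intro i hi h0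
    refine ⟨i - 1, by omega, ?_⟩
    have := h.adj (i := a + (i - 1)) (by omega)
    rw [show a + (i - 1) + 1 = a + i by omega] at this
    exact E_symm this

theorem seg_card (h : Geo p q w t) {a n : ℕ} (ha : a + n ≤ t + 1) : (seg w a n).card = n :=
  (h.grow ha).card le_rfl

theorem seg_cn (h : Geo p q w t) {a n : ℕ} (hn : 0 < n) (ha : a + n ≤ t + 1) :
    Cn p q (seg w a n) := (h.grow ha).cn hn le_rfl

theorem seg_St (h : Geo p q w t) {a n : ℕ} (hn : 3 ≤ n) (ha : a + n ≤ t + 1) :
    St p q (seg w a n) (if V p q (w a) (w (a + 1)) then 1 else 2) := by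
  have hadj : E p q (w a) (w (a + 1)) := h.adj (by omega)
  have hzig := h.zig (i := a) (by omega)
  have hadj2 := h.adj (i := a + 1) (by omega)
  rw [show a + 1 + 1 = a + 2 by omega] at hadj2
  split_ifs with hV
  · refine ⟨w a, mem_seg.2 ⟨a, by omega, by omega, rfl⟩, ?_, ?_⟩
    · intro y hy hne
      obtain ⟨i, h1, h2, rfl⟩ := mem_seg.1 hy
      have h3 : i ≠ a := by rintro rfl; exact hne rfl
      rcases Nat.lt_or_ge i (a + 2) with h4 | h4
      · have : i = a + 1 := by omega
        subst this
        exact hV.1
      · exact (h.dir a i h4 (by omega)).1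
    · have : (seg w a n).filter (fun y => q y < q (w a)) = {w (a + 1)} := by
        ext y
        rw [mem_filter, mem_seg, mem_singleton]
        constructor
        · rintro ⟨⟨i, h1, h2, rfl⟩, h3⟩
          rcases Nat.lt_or_ge i (a + 2) with h4 | h4
          · rcases Nat.lt_or_ge i (a + 1) with h5 | h5
            · have : i = a := by omega
              subst this; omega
            · congr 1; omega
          · have := (h.dir a i h4 (by omega)).2
            omega
        · rintro rfl
          exact ⟨⟨a + 1, by omega, by omega, rfl⟩, hV.2⟩
      rw [this, card_singleton]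
  · have hV' : V p q (w (a + 1)) (w a) := by unfold E at hadj; tauto
    have hV2 : V p q (w (a + 1)) (w (a + 2)) := by tauto
    refine ⟨w (a + 1), mem_seg.2 ⟨a + 1, by omega, by omega, rfl⟩, ?_, ?_⟩
    · intro y hy hne
      obtain ⟨i, h1, h2, rfl⟩ := mem_seg.1 hy
      have h3 : i ≠ a + 1 := by rintro rfl; exact hne rfl
      rcases Nat.lt_or_ge i (a + 3) with h4 | h4
      · rcases Nat.lt_or_ge i (a + 1) with h5 | h5
        · have : i = a := by omega
          subst this
          exact hV'.1
        · have : i = a + 2 := by omega
          subst this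
          exact hV2.1
      · exact (h.dir (a + 1) i (by omega) (by omega)).1
    · have : (seg w a n).filter (fun y => q y < q (w (a + 1))) = {w a, w (a + 2)} := by
        ext y
        rw [mem_filter, mem_seg, mem_insert, mem_singleton]
        constructor
        · rintro ⟨⟨i, h1, h2, rfl⟩, h3⟩
          rcases Nat.lt_or_ge i (a + 3) with h4 | h4
          · rcases Nat.lt_or_ge i (a + 1) with h5 | h5
            · left; congr 1; omega
            · rcases Nat.lt_or_ge i (a + 2) with h6 | h6
              · have : i = a + 1 := by omega
                subst this; omega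
              · right; congr 1; omega
          · have := (h.dir (a + 1) i (by omega) (by omega)).2
            omega
        · rintro (rfl | rfl)
          · exact ⟨⟨a, by omega, by omega, rfl⟩, hV'.2⟩
          · exact ⟨⟨a + 2, by omega, by omega, rfl⟩, hV2.2⟩
      rw [this, card_pair]
      intro e
      have := h.inj (i := a) (j := a + 2) (by omega) (by omega) e
      omega

theorem seg_Hd (h : Geo p q w t) {a n c : ℕ} (ha : a + n ≤ t + 1) : ¬ Hd p q (seg w a n) c := by
  rintro ⟨y, hy, h1, -⟩
  obtain ⟨i, hi1, hi2, rfl⟩ := mem_seg.1 hy
  have : (seg w a n).filter (fun z => E p q (w i) z) ⊆ {w (i - 1), w (i + 1)} := by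
    intro z hz
    rw [mem_filter, mem_seg] at hz
    obtain ⟨⟨j, hj1, hj2, rfl⟩, hE⟩ := hz
    rw [h.adj_iff (by omega) (by omega)] at hE
    rw [mem_insert, mem_singleton]
    rcases hE with h3 | h3
    · right; congr 1; omega
    · left; congr 1; omega
  have h2 := (card_le_card this).trans (card_le_two)
  omega

/-- a point attached to the middle of the geodesic -/
theorem fam_path (hp : Function.Injective p) (hq : Function.Injective q)
    (hc : (G p q).Connected) {n : ℕ} (hn : 3 ≤ n) (h : Geo p q w t) {x : α}
    (hx : ∀ i ≤ t, w i ≠ x) {m : ℕ} (hm1 : n ≤ m) (hm2 : m + n ≤ t) (hE : E p q x (w m))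
    (hup : ∀ i, m < i → i ≤ t → ¬ E p q x (w i)) : Rich p q n := by
  have hxs : ∀ a k, a + k ≤ t + 1 → x ∉ seg w a k := by
    intro a k hak hmem
    obtain ⟨i, _, h2, h3⟩ := mem_seg.1 hmem
    exact hx i (by omega) h3
  -- the statistic
  have hHd : ∀ c, 1 ≤ c → c ≤ n - 3 → Hd p q (insert x (seg w (m - c) (n - 1))) (c - 1) := by
    intro c hc1 hc2
    refine ⟨w m, mem_insert_of_mem (mem_seg.2 ⟨m, by omega, by omega, rfl⟩), ?_, ?_⟩
    · have : ({x, w (m - 1), w (m + 1)} : Finset α) ⊆
          (insert x (seg w (m - c) (n - 1))).filter (fun z => E p q (w m) z) := by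
        intro z hz
        rw [mem_insert, mem_insert, mem_singleton] at hz
        rw [mem_filter]
        rcases hz with rfl | rfl | rfl
        · exact ⟨mem_insert_self _ _, E_symm hE⟩
        · exact ⟨mem_insert_of_mem (mem_seg.2 ⟨m - 1, by omega, by omega, rfl⟩),
            (h.adj_iff (by omega) (by omega)).2 (by omega)⟩
        · exact ⟨mem_insert_of_mem (mem_seg.2 ⟨m + 1, by omega, by omega, rfl⟩),
            (h.adj_iff (by omega) (by omega)).2 (by omega)⟩
      refine le_trans ?_ (card_le_card this)
      rw [card_insert_of_notMem, card_pair]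
      · intro e
        have := h.inj (i := m - 1) (j := m + 1) (by omega) (by omega) e
        omega
      · rw [mem_insert, mem_singleton]
        rintro (e | e)
        · exact hx _ (by omega) e.symm
        · exact hx _ (by omega) e.symm
    · have : seg w (m - c) (c - 1) ⊆
          (insert x (seg w (m - c) (n - 1))).filter (fun z => D p q z (w m)) := by
        intro z hz
        obtain ⟨i, h1, h2, rfl⟩ := mem_seg.1 hz
        rw [mem_filter]
        exact ⟨mem_insert_of_mem (mem_seg.2 ⟨i, by omega, by omega, rfl⟩),
          h.dir i m (by omega) (by omega)⟩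
      calc c - 1 = (seg w (m - c) (c - 1)).card := (seg_card h (by omega)).symm
        _ ≤ _ := card_le_card this
  have hnHd : ∀ c, 1 ≤ c → c ≤ n - 3 → ¬ Hd p q (insert x (seg w (m - c) (n - 1))) c := by
    rintro c hc1 hc2 ⟨y, hy, h1, h2⟩
    rcases mem_insert.1 hy with rfl | hy
    · -- `y` is the attached point
      -- it has a neighbour below `w m`
      have hnb : ∃ j, m - c ≤ j ∧ j < m ∧ E p q y (w j) := by
        by_contra hcon
        push Not at hcon
        have : (insert y (seg w (m - c) (n - 1))).filter (fun z => E p q y z) ⊆ {w m} := by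
          intro z hz
          rw [mem_filter] at hz
          obtain ⟨hz1, hz2⟩ := hz
          rcases mem_insert.1 hz1 with rfl | hz1
          · unfold E V at hz2; omega
          · obtain ⟨i, hi1, hi2, rfl⟩ := mem_seg.1 hz1
            rw [mem_singleton]
            rcases lt_trichotomy i m with h5 | h5 | h5
            · exact absurd hz2 (hcon i hi1 h5)
            · rw [h5]
            · exact absurd hz2 (hup i h5 (by omega))
        have := card_le_card this
        rw [card_singleton] at this
        omega
      obtain ⟨j, hj1, hj2, hjE⟩ := hnb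
      have : (insert y (seg w (m - c) (n - 1))).filter (fun z => D p q z y) ⊆
          (seg w (m - c) c).erase (w j) := by
        intro z hz
        rw [mem_filter] at hz
        obtain ⟨hz1, hz2⟩ := hz
        rcases mem_insert.1 hz1 with rfl | hz1
        · exact absurd hz2 (D_irrefl _)
        · obtain ⟨i, hi1, hi2, rfl⟩ := mem_seg.1 hz1
          rw [mem_erase]
          constructor
          · intro e
            rw [e] at hz2
            unfold E V at hjE; unfold D at hz2; omega
          · refine mem_seg.2 ⟨i, hi1, ?_, rfl⟩
            by_contra h5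
            have h6 : m ≤ i := by omega
            rcases Nat.lt_or_ge m i with h7 | h7
            · rcases Nat.lt_or_ge i (m + 2) with h8 | h8
              · have : i = m + 1 := by omega
                subst this
                have e1 := h.adj (i := m + 1) (by omega)
                rw [show m + 1 + 1 = m + 2 by omega] at e1
                have e2 := h.dir m (m + 2) le_rfl (by omega)
                rcases (not_E_iff hp hq (hx (m + 2) (by omega)).symm).1
                  (hup (m + 2) (by omega) (by omega)) with e3 | e3
                · unfold D at hz2 e3; unfold E V at e1; omega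
                · unfold D at e2 e3; unfold E V at hE; omega
              · have e2 := h.dir m i (by omega) (by omega)
                unfold D at hz2 e2; unfold E V at hE; omega
            · have : i = m := by omega
              subst this
              unfold D at hz2; unfold E V at hE; omega
      have h3 := card_le_card this
      rw [card_erase_of_mem (mem_seg.2 ⟨j, hj1, by omega, rfl⟩), seg_card h (by omega)] at h3
      omega
    · obtain ⟨i, hi1, hi2, rfl⟩ := mem_seg.1 hy
      -- `x` must be a neighbour of `w i`
      have hxi : E p q x (w i) := by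
        by_contra hcon
        have : (insert x (seg w (m - c) (n - 1))).filter (fun z => E p q (w i) z) ⊆
            {w (i - 1), w (i + 1)} := by
          intro z hz
          rw [mem_filter] at hz
          obtain ⟨hz1, hz2⟩ := hz
          rcases mem_insert.1 hz1 with rfl | hz1
          · exact absurd (E_symm hz2) hcon
          · obtain ⟨j, hj1, hj2, rfl⟩ := mem_seg.1 hz1
            rw [h.adj_iff (by omega) (by omega)] at hz2
            rw [mem_insert, mem_singleton]
            rcases hz2 with h3 | h3
            · right; congr 1; omega
            · left; congr 1; omega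
        have := (card_le_card this).trans card_le_two
        omega
      have him : i ≤ m := by
        by_contra h5
        exact hup i (by omega) (by omega) hxi
      have : (insert x (seg w (m - c) (n - 1))).filter (fun z => D p q z (w i)) ⊆
          seg w (m - c) (c - 1) := by
        intro z hz
        rw [mem_filter] at hz
        obtain ⟨hz1, hz2⟩ := hz
        rcases mem_insert.1 hz1 with rfl | hz1
        · unfold E V at hxi; unfold D at hz2; omega
        · obtain ⟨j, hj1, hj2, rfl⟩ := mem_seg.1 hz1
          refine mem_seg.2 ⟨j, hj1, ?_, rfl⟩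
          by_contra h5
          have h6 : i ≤ j + 1 := by omega
          rcases Nat.lt_or_ge (i + 1) j with h7 | h7
          · have e2 := h.dir i j (by omega) (by omega)
            unfold D at e2 hz2; omega
          · rcases Nat.eq_or_lt_of_le h7 with h8 | h8
            · have := (h.adj_iff (i := j) (j := i) (by omega) (by omega)).2 (by omega)
              unfold E V at this; unfold D at hz2; omega
            · rcases Nat.lt_or_ge j i with h9 | h9
              · have := (h.adj_iff (i := j) (j := i) (by omega) (by omega)).2 (by omega)
                unfold E V at this; unfold D at hz2; omega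
              · have : j = i := by omega
                subst this
                exact absurd hz2 (D_irrefl _)
      have h3 := card_le_card this
      rw [seg_card h (by omega)] at h3
      omega
  set F : ℕ → Finset α := fun c =>
    if c = 0 then seg w 0 n else if c ≤ n - 3 then insert x (seg w (m - c) (n - 1))
      else seg w 1 n with hF
  have hHmono : ∀ {S : Finset α} {c c' : ℕ}, c ≤ c' → Hd p q S c' → Hd p q S c := by
    rintro S c c' hcc ⟨y, hy, h1, h2⟩
    exact ⟨y, hy, h1, hcc.trans h2⟩
  -- the two segments are different
  have hseg : ¬ PIso p q (seg w 0 n) (seg w 1 n) := by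
    intro hiso
    have e1 := seg_St h (a := 0) hn (by omega)
    have e2 := seg_St h (a := 1) hn (by omega)
    have e3 := St_iso hiso e1 e2
    have e4 := h.zig (i := 0) (by omega)
    simp only [zero_add] at e3 e4
    rw [show 1 + 1 = 2 by rfl] at e3
    by_cases h5 : V p q (w 0) (w 1)
    · rw [if_pos h5, if_neg (e4.1 h5)] at e3
      omega
    · have h6 : V p q (w 1) (w 2) := by tauto
      rw [if_neg h5, if_pos h6] at e3
      omega
  -- distinctness for `i < j`
  have main : ∀ i j, i < j → j < n - 1 → ¬ PIso p q (F i) (F j) := by
    intro i j hij hj hiso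
    simp only [hF] at hiso
    rw [if_neg (show j ≠ 0 by omega)] at hiso
    by_cases hj3 : j ≤ n - 3
    · rw [if_pos hj3] at hiso
      by_cases hi0 : i = 0
      · rw [if_pos hi0] at hiso
        exact seg_Hd h (by omega) (Hd_iso hiso.symm (hHd j (by omega) hj3))
      · rw [if_neg hi0, if_pos (by omega)] at hiso
        exact hnHd i (by omega) (by omega)
          (hHmono (by omega) (Hd_iso hiso.symm (hHd j (by omega) hj3)))
    · rw [if_neg hj3] at hiso
      by_cases hi0 : i = 0
      · rw [if_pos hi0] at hiso
        exact hseg hiso
      · rw [if_neg hi0, if_pos (by omega)] at hiso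
        exact seg_Hd h (by omega) (Hd_iso hiso (hHd i (by omega) (by omega)))
  refine Rich_of (range (n - 1)) F ?_ ?_ ?_
  · rw [card_range]; omega
  · intro c hc
    rw [mem_range] at hc
    simp only [hF]
    split_ifs with h1 h2
    · exact ⟨seg_card h (by omega), seg_cn h (by omega) (by omega)⟩
    · constructor
      · rw [card_insert_of_notMem (hxs _ _ (by omega)), seg_card h (by omega)]
        omega
      · exact Cn.ins (seg_cn h (by omega) (by omega))
          (mem_seg.2 ⟨m, by omega, by omega, rfl⟩) (hxs _ _ (by omega)) hE
    · exact ⟨seg_card h (by omega), seg_cn h (by omega) (by omega)⟩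
  · intro i hi j hj hiso
    rw [mem_range] at hi hj
    rcases lt_trichotomy i j with h1 | h1 | h1
    · exact absurd hiso (main i j h1 hj)
    · exact h1
    · exact absurd hiso.symm (main j i h1 hi)

end Pool.Agent.Helper36.Indec
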