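import Pool.Agent.Helper36.Indec.PathFam

/-!
Structure of point sets of bounded degree which are not rich.
-/

set_option linter.unusedVariables false
set_option linter.unusedSectionVars false

namespace Pool.Agent.Helper36.Indec

open Finset Classical

variable {α : Type} {p q : α → ℤ} [Fintype α] {w : ℕ → α} {t : ℕ}

/-- the middle points of a long geodesic have exactly two neighbours -/
theorem mid_nbr (hp : Function.Injective p) (hq : Function.Injective q)
    (hc : (G p q).Connected) {n : ℕ} (hn : 3 ≤ n) (hR : ¬ Rich p q n) (h : Geo p q w t) {i : ℕ}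
    (hi1 : n ≤ i) (hi2 : i + n + 2 ≤ t) {x : α} (hE : E p q x (w i)) :
    x = w (i - 1) ∨ x = w (i + 1) := by
  by_cases hx : ∃ j ≤ t, w j = x
  · obtain ⟨j, hj, rfl⟩ := hx
    rw [h.adj_iff hj (by omega)] at hE
    rcases hE with h1 | h1
    · left; congr 1; omega
    · right; congr 1; omega
  · exfalso
    push Not at hx
    apply hR
    have hclose : ∀ j, i < j → j ≤ t → E p q x (w j) → j ≤ i + 2 :=
      fun j hj hjt hE' => h.close hc (by omega) hjt hE hE'
    by_cases h2 : E p q x (w (i + 2))
    · refine fam_path hp hq hc hn h hx (m := i + 2) (by omega) (by omega) h2 ?_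
      intro j hj hjt hE'
      have := hclose j (by omega) hjt hE'
      omega
    · by_cases h1 : E p q x (w (i + 1))
      · refine fam_path hp hq hc hn h hx (m := i + 1) (by omega) (by omega) h1 ?_
        intro j hj hjt hE'
        have := hclose j (by omega) hjt hE'
        have : j = i + 2 := by omega
        subst this
        exact h2 hE'
      · refine fam_path hp hq hc hn h hx (m := i) (by omega) (by omega) hE ?_
        intro j hj hjt hE'
        have := hclose j (by omega) hjt hE'
        rcases Nat.lt_or_ge j (i + 2) with h3 | h3
        · have : j = i + 1 := by omega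
          subst this
          exact h1 hE'
        · have : j = i + 2 := by omega
          subst this
          exact h2 hE'

/-- a walk from below `c` to above `c` meets the closed neighbourhood of `c` -/
theorem cut_dist (hc : (G p q).Connected) (hp : Function.Injective p)
    (hq : Function.Injective q) {c : α} : ∀ {x z : α} (W : (G p q).Walk x z),
    D p q x c → D p q c z →
    ∃ y, (y = c ∨ E p q y c) ∧ (G p q).dist x y + (G p q).dist y z ≤ W.length := by
  intro x z W
  induction W with
  | nil =>
    intro h1 h2
    exfalso
    unfold D at h1 h2; omega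
  | @cons u v z hadj W ih =>
    intro h1 h2
    rw [SimpleGraph.Walk.length_cons]
    by_cases h3 : D p q v c
    · obtain ⟨y, hy, hd⟩ := ih h3 h2
      refine ⟨y, hy, ?_⟩
      have h4 := hc.dist_triangle (u := u) (v := v) (w := y)
      rw [SimpleGraph.dist_eq_one_iff_adj.2 hadj] at h4
      omega
    · refine ⟨v, ?_, ?_⟩
      · by_contra hcon
        rw [not_or] at hcon
        rcases (not_E_iff hp hq hcon.1).1 hcon.2 with h4 | h4
        · exact h3 h4
        · have hE := G_adj.1 hadj
          unfold E V at hE; unfold D at h1 h4; omega
      · rw [SimpleGraph.dist_eq_one_iff_adj.2 hadj]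
        have := SimpleGraph.dist_le W
        omega

/-- few points lie to the left and below an early point of the geodesic -/
theorem card_below (hp : Function.Injective p) (hq : Function.Injective q)
    (hc : (G p q).Connected) (h : Geo p q w t) {d : ℕ}
    (hd : ∀ v, (univ.filter fun x => E p q v x).card ≤ d) {i : ℕ} (hi : i + 2 ≤ t)
    (hnb : ∀ x, E p q x (w i) → x = w (i - 1) ∨ x = w (i + 1)) :
    (univ.filter fun x => D p q x (w i)).card ≤ (d + 1) ^ (i + 2) := by
  refine le_trans (card_le_card ?_) (ball_card hc hd (w i) (i + 2))
  intro x hx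
  rw [mem_filter] at hx ⊢
  refine ⟨mem_univ _, ?_⟩
  obtain ⟨W, hW⟩ := hc.exists_walk_length_eq_dist x (w t)
  obtain ⟨y, hy, hd'⟩ := cut_dist hc hp hq W hx.2 (h.dir i t hi le_rfl)
  have h1 := h.diam x (w t)
  -- `y` is `w j` with `j ≤ i + 1`
  have hy' : ∃ j, j ≤ i + 1 ∧ i ≤ j + 1 ∧ w j = y := by
    rcases hy with rfl | hy
    · exact ⟨i, by omega, by omega, rfl⟩
    · rcases hnb y hy with rfl | rfl
      · exact ⟨i - 1, by omega, by omega, rfl⟩
      · exact ⟨i + 1, by omega, by omega, rfl⟩
  obtain ⟨j, hj1, hj2, rfl⟩ := hy'
  have h2 := h.dist j t (by omega) le_rfl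
  have h3 := hc.dist_triangle (u := w i) (v := w j) (w := x)
  have h4 : (G p q).dist (w i) (w j) ≤ 1 := by
    rcases hy with e | e
    · rw [e, SimpleGraph.dist_self]; omega
    · rw [SimpleGraph.dist_comm, SimpleGraph.dist_eq_one_iff_adj.2 (G_adj.2 e)]
  rw [SimpleGraph.dist_comm (u := w j) (v := x)] at h3
  omega

/-- the position of a point whose neighbours are right-below it -/
theorem rank_ul (hpr : ∀ x, p x = ((univ.filter fun y => p y < p x).card : ℤ))
    (hqr : ∀ x, q x = ((univ.filter fun y => q y < q x).card : ℤ)) (hp : Function.Injective p)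
    (hq : Function.Injective q) {v a b : α} (hab : a ≠ b) (ha : V p q v a) (hb : V p q v b)
    (hnb : ∀ x, E p q x v → x = a ∨ x = b) :
    p v = ((univ.filter fun y => D p q y v).card : ℤ) ∧
      q v = ((univ.filter fun y => D p q y v).card : ℤ) + 2 := by
  constructor
  · rw [hpr v]
    congr 2
    ext y
    rw [mem_filter, mem_filter]
    refine and_congr_right fun _ => ⟨fun h => ?_, fun h => h.1⟩
    refine ⟨h, ?_⟩
    by_contra h2
    have hne : y ≠ v := by rintro rfl; omega
    have h3 : q y ≠ q v := fun e => hne (hq e)
    have h4 : V p q y v := ⟨h, by omega⟩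
    rcases hnb y (Or.inl h4) with rfl | rfl
    · unfold V at h4 ha; omega
    · unfold V at h4 hb; omega
  · rw [hqr v]
    have : (univ.filter fun y => q y < q v) =
        insert a (insert b (univ.filter fun y => D p q y v)) := by
      ext y
      rw [mem_filter, mem_insert, mem_insert, mem_filter]
      constructor
      · rintro ⟨_, h⟩
        by_cases h1 : p y < p v
        · exact Or.inr (Or.inr ⟨mem_univ _, h1, h⟩)
        · have hne : y ≠ v := by rintro rfl; omega
          have h3 : p y ≠ p v := fun e => hne (hp e)
          rcases hnb y (Or.inr ⟨by omega, h⟩) with h4 | h4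
          · exact Or.inl h4
          · exact Or.inr (Or.inl h4)
      · rintro (rfl | rfl | h)
        · exact ⟨mem_univ _, ha.2⟩
        · exact ⟨mem_univ _, hb.2⟩
        · exact ⟨mem_univ _, h.2.2⟩
    rw [this, card_insert_of_notMem, card_insert_of_notMem]
    · push_cast; ring
    · rw [mem_filter]; unfold D; unfold V at hb; omega
    · rw [mem_insert, mem_filter]
      rintro (h | h)
      · exact hab h
      · unfold D at h; unfold V at ha; omega

/-- the position of a point whose neighbours are left-above it -/
theorem rank_lr (hpr : ∀ x, p x = ((univ.filter fun y => p y < p x).card : ℤ))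
    (hqr : ∀ x, q x = ((univ.filter fun y => q y < q x).card : ℤ)) (hp : Function.Injective p)
    (hq : Function.Injective q) {v a b : α} (hab : a ≠ b) (ha : V p q a v) (hb : V p q b v)
    (hnb : ∀ x, E p q x v → x = a ∨ x = b) :
    q v = ((univ.filter fun y => D p q y v).card : ℤ) ∧
      p v = ((univ.filter fun y => D p q y v).card : ℤ) + 2 := by
  have := rank_ul (p := q) (q := p) hqr hpr hq hp hab (V_swap.2 ha) (V_swap.2 hb)
    (fun x hx => hnb x (E_swap.1 hx))
  simpa only [D_swap] using this

/-- number of points left-below consecutive points of the geodesic -/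
theorem dn_succ (hp : Function.Injective p) (hq : Function.Injective q)
    (h : Geo p q w t) {i : ℕ} (hi0 : 1 ≤ i) (hi : i + 2 ≤ t)
    (hnb : ∀ x, E p q x (w i) → x = w (i - 1) ∨ x = w (i + 1))
    (hnb' : ∀ x, E p q x (w (i + 1)) → x = w i ∨ x = w (i + 2)) :
    (univ.filter fun y => D p q y (w (i + 1))).card =
      (univ.filter fun y => D p q y (w i)).card + 1 := by
  have h1 := h.adj (i := i) (by omega)
  have h2 := h.adj (i := i - 1) (by omega)
  rw [show i - 1 + 1 = i by omega] at h2
  have h3 := h.dir (i - 1) (i + 1) (by omega) (by omega)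
  have h4 := h.dir i (i + 2) (by omega) (by omega)
  have : (univ.filter fun y => D p q y (w (i + 1))) =
      insert (w (i - 1)) (univ.filter fun y => D p q y (w i)) := by
    ext y
    rw [mem_filter, mem_insert, mem_filter]
    constructor
    · rintro ⟨_, hy⟩
      by_cases hyE : E p q y (w i)
      · rcases hnb y hyE with h5 | h5
        · exact Or.inl h5
        · rw [h5] at hy; exact absurd hy (D_irrefl _)
      · right
        refine ⟨mem_univ _, ?_⟩
        have hne : y ≠ w i := by
          rintro rfl; unfold E V at h1; unfold D at hy; omega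
        rcases (not_E_iff hp hq hne).1 hyE with h5 | h5
        · exact h5
        · exfalso
          unfold D at h5 hy; unfold E V at h1; omega
    · rintro (rfl | ⟨_, hy⟩)
      · exact ⟨mem_univ _, h3⟩
      · refine ⟨mem_univ _, ?_⟩
        have hne : y ≠ w (i + 1) := by
          rintro rfl; unfold E V at h1; unfold D at hy; omega
        by_cases hyE : E p q y (w (i + 1))
        · exfalso
          rcases hnb' y hyE with h5 | h5
          · rw [h5] at hy; exact D_irrefl _ hy
          · rw [h5] at hy; unfold D at hy h4; omega
        · rcases (not_E_iff hp hq hne).1 hyE with h5 | h5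
          · exact h5
          · exfalso
            unfold D at h5 hy; unfold E V at h1; omega
  rw [this, card_insert_of_notMem]
  rw [mem_filter]
  rintro ⟨_, h5⟩
  unfold E V at h2; unfold D at h5; omega

/-- **Bounded degree case.** -/
theorem boundP (hpr : ∀ x, p x = ((univ.filter fun y => p y < p x).card : ℤ))
    (hqr : ∀ x, q x = ((univ.filter fun y => q y < q x).card : ℤ)) (hp : Function.Injective p)
    (hq : Function.Injective q) {n : ℕ} (hn : 3 ≤ n) (hR : ¬ Rich p q n) (hconn : Conn p q)
    {d : ℕ} (hd : ∀ v, (univ.filter fun x => E p q v x).card ≤ d)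
    (hcard : (d + 1) ^ (2 * n + 10) < Fintype.card α) :
    ∃ e : ℤ, (e = 0 ∨ e = 1) ∧ ∀ x,
      (q x = if (p x + e) % 2 = 0 then p x + 2 else p x - 2) ∨
      (p x < (d + 1) ^ (n + 5) + 5 ∧ q x < (d + 1) ^ (n + 5) + 5) ∨
      (Fintype.card α ≤ p x + (d + 1) ^ (n + 5) + 5 ∧
        Fintype.card α ≤ q x + (d + 1) ^ (n + 5) + 5) := by
  have hne : Nonempty α := by
    rw [← Fintype.card_pos_iff]; exact lt_of_le_of_lt (Nat.zero_le _) hcard
  have hc := G_connected hconn
  -- a pair of points at maximal distance
  obtain ⟨⟨a, b⟩, -, hmax⟩ := exists_max_image (univ : Finset (α × α))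
    (fun z => (G p q).dist z.1 z.2) univ_nonempty
  have hmax' : ∀ x y, (G p q).dist x y ≤ (G p q).dist a b := fun x y => hmax (x, y) (mem_univ _)
  have hbig : 2 * n + 10 < (G p q).dist a b := by
    by_contra hcon
    rw [not_lt] at hcon
    have h1 := ball_card hc hd a (2 * n + 10)
    have h2 : (univ.filter fun x => (G p q).dist a x ≤ 2 * n + 10) = univ := by
      rw [filter_eq_self]
      intro x _
      exact (hmax' a x).trans hcon
    rw [h2, card_univ] at h1
    omega
  -- a directed geodesic
  obtain ⟨w, t, h, ht⟩ : ∃ (w : ℕ → α) (t : ℕ), Geo p q w t ∧ 2 * n + 10 < t := by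
    have hab : a ≠ b := by
      intro e
      rw [e, SimpleGraph.dist_self] at hbig
      omega
    have hnE : ¬ E p q a b := by
      intro hE
      rw [SimpleGraph.dist_eq_one_iff_adj.2 (G_adj.2 hE)] at hbig
      omega
    rcases (not_E_iff hp hq hab).1 hnE with hD | hD
    · obtain ⟨w, h0, h1, h2⟩ := exists_geo hc a b
      refine ⟨w, (G p q).dist a b, ⟨h2, hmax', ?_⟩, hbig⟩
      exact geo_dir hp hq h2 (by rw [h0, h1]; exact hD)
    · obtain ⟨w, h0, h1, h2⟩ := exists_geo hc b a
      have h3 : (G p q).dist b a = (G p q).dist a b := SimpleGraph.dist_comm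
      refine ⟨w, (G p q).dist b a, ⟨h2, by rw [h3]; exact hmax', ?_⟩, by omega⟩
      exact geo_dir hp hq h2 (by rw [h0, h1]; exact hD)
  -- neighbours of the middle points
  have hnb : ∀ i, n ≤ i → i + n + 2 ≤ t → ∀ x, E p q x (w i) → x = w (i - 1) ∨ x = w (i + 1) :=
    fun i h1 h2 x hE => mid_nbr hp hq hc hn hR h h1 h2 hE
  have hdn : ∀ k, n + 2 + k + (n + 4) ≤ t →
      (univ.filter fun y => D p q y (w (n + 2 + k))).card =
        (univ.filter fun y => D p q y (w (n + 2))).card + k := by
    intro k
    induction k with
    | zero => intro _; rfl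
    | succ k ih =>
      intro hk
      rw [show n + 2 + (k + 1) = n + 2 + k + 1 by ring, dn_succ hp hq h (by omega) (by omega)
        (hnb _ (by omega) (by omega)), ih (by omega)]
      · ring
      · intro x hx
        have := hnb (n + 2 + k + 1) (by omega) (by omega) x hx
        simpa using this
  set s := (univ.filter fun y => D p q y (w (n + 2))).card with hs
  -- zigzag parity
  have hzig : ∀ k, n + 2 + k + (n + 4) ≤ t →
      (V p q (w (n + 2 + k)) (w (n + 2 + k + 1)) ↔
        (V p q (w (n + 2)) (w (n + 2 + 1)) ↔ k % 2 = 0)) := by
    intro k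
    induction k with
    | zero => intro _; simp
    | succ k ih =>
      intro hk
      have h1 := ih (by omega)
      have h2 := h.zig (i := n + 2 + k) (by omega)
      rw [show n + 2 + (k + 1) = n + 2 + k + 1 by ring]
      rw [show n + 2 + k + 1 + 1 = n + 2 + k + 2 by ring]
      by_cases h3 : V p q (w (n + 2)) (w (n + 2 + 1)) <;> simp only [h3, true_iff, false_iff] at h1 ⊢
      · have : (k + 1) % 2 = 0 ↔ ¬ k % 2 = 0 := by omega
        tauto
      · have : (k + 1) % 2 = 0 ↔ ¬ k % 2 = 0 := by omega
        tauto
  -- positions of the middle points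
  have hpos : ∀ k, n + 2 + k + (n + 4) ≤ t →
      (V p q (w (n + 2 + k)) (w (n + 2 + k + 1)) →
        p (w (n + 2 + k)) = s + k ∧ q (w (n + 2 + k)) = s + k + 2) ∧
      (¬ V p q (w (n + 2 + k)) (w (n + 2 + k + 1)) →
        q (w (n + 2 + k)) = s + k ∧ p (w (n + 2 + k)) = s + k + 2) := by
    intro k hk
    have hz := h.zig (i := n + 2 + k - 1) (by omega)
    rw [show n + 2 + k - 1 + 1 = n + 2 + k by omega,
      show n + 2 + k - 1 + 2 = n + 2 + k + 1 by omega] at hz
    have ha1 := h.adj (i := n + 2 + k) (by omega)
    have ha2 := h.adj (i := n + 2 + k - 1) (by omega)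
    rw [show n + 2 + k - 1 + 1 = n + 2 + k by omega] at ha2
    have hne : w (n + 2 + k - 1) ≠ w (n + 2 + k + 1) := by
      intro e
      have := h.inj (i := n + 2 + k - 1) (j := n + 2 + k + 1) (by omega) (by omega) e
      omega
    have hn' := hnb (n + 2 + k) (by omega) (by omega)
    constructor
    · intro hV
      have hV' : V p q (w (n + 2 + k)) (w (n + 2 + k - 1)) := by
        unfold E at ha2; tauto
      have := rank_ul hpr hqr hp hq hne hV' hV hn'
      rw [hdn k hk] at this
      push_cast at this
      exact ⟨this.1, by rw [this.2]⟩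
    · intro hV
      have hV1 : V p q (w (n + 2 + k + 1)) (w (n + 2 + k)) := by
        unfold E at ha1; tauto
      have hV' : V p q (w (n + 2 + k - 1)) (w (n + 2 + k)) := by
        unfold E at ha2; tauto
      have := rank_lr hpr hqr hp hq hne hV' hV1 hn'
      rw [hdn k hk] at this
      push_cast at this
      exact ⟨this.1, by rw [this.2]⟩
  -- bounds below and above
  have hlow : (univ.filter fun y => D p q y (w (n + 3))).card ≤ (d + 1) ^ (n + 5) :=
    card_below hp hq hc h hd (i := n + 3) (by omega) (hnb _ (by omega) (by omega))
  have hhigh : (univ.filter fun y => D p q (w (t - (n + 3))) y).card ≤ (d + 1) ^ (n + 5) := by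
    have hd' : ∀ v, (univ.filter fun x => E (fun x => -q x) (fun x => -p x) v x).card ≤ d := by
      intro v
      simp only [E_neg]
      exact hd v
    have := card_below (inj_neg hq) (inj_neg hp) (by rw [G_neg]; exact hc) h.rev hd'
      (i := n + 3) (by omega) (by
        intro x hx
        rw [E_neg] at hx
        have := hnb (t - (n + 3)) (by omega) (by omega) x hx
        rw [show t - (n + 3) - 1 = t - (n + 3 + 1) by omega,
          show t - (n + 3) + 1 = t - (n + 3 - 1) by omega] at this
        exact this.symm)
    simpa only [D_neg] using this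
  -- ranks of points with two neighbours
  have hrank : ∀ i, n ≤ i → i + n + 2 ≤ t →
      p (w i) ≤ ((univ.filter fun y => D p q y (w i)).card : ℤ) + 2 ∧
      q (w i) ≤ ((univ.filter fun y => D p q y (w i)).card : ℤ) + 2 := by
    intro i h1 h2
    have hz := h.zig (i := i - 1) (by omega)
    rw [show i - 1 + 1 = i by omega, show i - 1 + 2 = i + 1 by omega] at hz
    have ha1 := h.adj (i := i) (by omega)
    have ha2 := h.adj (i := i - 1) (by omega)
    rw [show i - 1 + 1 = i by omega] at ha2
    have hne : w (i - 1) ≠ w (i + 1) := by
      intro e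
      have := h.inj (i := i - 1) (j := i + 1) (by omega) (by omega) e
      omega
    have hn' := hnb i (by omega) (by omega)
    by_cases hV : V p q (w i) (w (i + 1))
    · have hV' : V p q (w i) (w (i - 1)) := by
        unfold E at ha2; tauto
      have := rank_ul hpr hqr hp hq hne hV' hV hn'
      constructor
      · rw [this.1]; omega
      · rw [this.2]
    · have hV1 : V p q (w (i + 1)) (w i) := by
        unfold E at ha1; tauto
      have hV' : V p q (w (i - 1)) (w i) := by
        unfold E at ha2; tauto
      have := rank_lr hpr hqr hp hq hne hV' hV1 hn'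
      constructor
      · rw [this.2]
      · rw [this.1]; omega
  -- number of points not left-below
  have hupper : ∀ i, n ≤ i → i + n + 2 ≤ t →
      (Fintype.card α : ℤ) ≤ p (w i) + ((univ.filter fun y => D p q (w i) y).card : ℤ) + 3 ∧
      (Fintype.card α : ℤ) ≤ q (w i) + ((univ.filter fun y => D p q (w i) y).card : ℤ) + 3 := by
    intro i h1 h2
    have hn' := hnb i h1 h2
    have hcov : ∀ y, y ∈ (univ.filter fun y => D p q y (w i)) ∪
        ((univ.filter fun y => D p q (w i) y) ∪ {w i, w (i - 1), w (i + 1)}) := by
      intro y
      simp only [mem_union, mem_filter, mem_univ, true_and, mem_insert, mem_singleton]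
      by_cases hyw : y = w i
      · exact Or.inr (Or.inr (Or.inl hyw))
      · by_cases hyE : E p q y (w i)
        · rcases hn' y hyE with h3 | h3
          · exact Or.inr (Or.inr (Or.inr (Or.inl h3)))
          · exact Or.inr (Or.inr (Or.inr (Or.inr h3)))
        · rcases (not_E_iff hp hq hyw).1 hyE with h3 | h3
          · exact Or.inl h3
          · exact Or.inr (Or.inl h3)
    have hcard' : Fintype.card α ≤ (univ.filter fun y => D p q y (w i)).card +
        ((univ.filter fun y => D p q (w i) y).card + 3) := by
      have h3 : (univ : Finset α).card ≤ ((univ.filter fun y => D p q y (w i)) ∪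
        ((univ.filter fun y => D p q (w i) y) ∪ {w i, w (i - 1), w (i + 1)})).card :=
        card_le_card fun y _ => hcov y
      rw [card_univ] at h3
      have h4 := card_union_le (univ.filter fun y => D p q y (w i))
        ((univ.filter fun y => D p q (w i) y) ∪ {w i, w (i - 1), w (i + 1)})
      have h5 := card_union_le (univ.filter fun y => D p q (w i) y) {w i, w (i - 1), w (i + 1)}
      have h6 : ({w i, w (i - 1), w (i + 1)} : Finset α).card ≤ 3 := card_le_three
      omega
    have hle1 : ((univ.filter fun y => D p q y (w i)).card : ℤ) ≤ p (w i) := by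
      rw [hpr (w i)]
      norm_cast
      apply card_le_card
      intro y hy
      rw [mem_filter] at hy ⊢
      exact ⟨mem_univ _, hy.2.1⟩
    have hle2 : ((univ.filter fun y => D p q y (w i)).card : ℤ) ≤ q (w i) := by
      rw [hqr (w i)]
      norm_cast
      apply card_le_card
      intro y hy
      rw [mem_filter] at hy ⊢
      exact ⟨mem_univ _, hy.2.2⟩
    constructor <;> omega
  refine ⟨if V p q (w (n + 2)) (w (n + 2 + 1)) then (s : ℤ) % 2 else ((s : ℤ) + 1) % 2, ?_, ?_⟩
  · split_ifs <;> omega
  intro x
  by_cases hx : ∃ k, n + 2 + k + (n + 4) ≤ t ∧ w (n + 2 + k) = x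
  · left
    obtain ⟨k, hk, rfl⟩ := hx
    have h1 := hzig k hk
    have h2 := hpos k hk
    by_cases h3 : V p q (w (n + 2)) (w (n + 2 + 1)) <;>
      simp only [h3, true_iff, false_iff, if_true, if_false] at h1 ⊢
    · by_cases h4 : k % 2 = 0
      · have h5 := h2.1 (h1.2 h4)
        rw [h5.1, h5.2, if_pos (by omega)]
      · have h5 := h2.2 (fun h => h4 (h1.1 h))
        rw [h5.1, h5.2, if_neg (by omega)]; ring
    · by_cases h4 : k % 2 = 0
      · have h5 := h2.2 (fun h => (h1.1 h) h4)
        rw [h5.1, h5.2, if_neg (by omega)]; ring
      · have h5 := h2.1 (h1.2 h4)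
        rw [h5.1, h5.2, if_pos (by omega)]
  · right
    push Not at hx
    -- `x` is not adjacent to the middle points
    have hmid : ∀ i, n + 3 ≤ i → i + (n + 5) ≤ t → ¬ E p q x (w i) ∧ x ≠ w i := by
      intro i h1 h2
      constructor
      · intro hE
        rcases hnb i (by omega) (by omega) x hE with h3 | h3
        · apply hx (i - 1 - (n + 2)) (by omega)
          rw [h3]; congr 1; omega
        · apply hx (i + 1 - (n + 2)) (by omega)
          rw [h3]; congr 1; omega
      · intro h3
        apply hx (i - (n + 2)) (by omega)
        rw [h3]; congr 1; omega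
    obtain ⟨h1, h2⟩ := hmid (n + 3) le_rfl (by omega)
    rcases (not_E_iff hp hq h2).1 h1 with hD | hD
    · left
      have h3 := hrank (n + 3) (by omega) (by omega)
      have h4 : ((univ.filter fun y => D p q y (w (n + 3))).card : ℤ) ≤ (d + 1) ^ (n + 5) := by
        exact_mod_cast hlow
      unfold D at hD
      constructor <;> omega
    · right
      -- move up along the geodesic
      have hup : ∀ k, n + 3 + k + (n + 5) ≤ t → D p q (w (n + 3 + k)) x := by
        intro k
        induction k with
        | zero => intro _; exact hD
        | succ k ih =>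
          intro hk
          have h3 := ih (by omega)
          obtain ⟨h4, h5⟩ := hmid (n + 3 + (k + 1)) (by omega) (by omega)
          rcases (not_E_iff hp hq h5).1 h4 with h6 | h6
          · exfalso
            have h7 := h.adj (i := n + 3 + k) (by omega)
            rw [show n + 3 + k + 1 = n + 3 + (k + 1) by ring] at h7
            unfold D at h3 h6; unfold E V at h7; omega
          · exact h6
      have h3 := hup (t - (n + 5) - (n + 3)) (by omega)
      rw [show n + 3 + (t - (n + 5) - (n + 3)) = t - (n + 5) by omega] at h3
      have h5 := hupper (t - (n + 5)) (by omega) (by omega)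
      have h6 : (univ.filter fun y => D p q (w (t - (n + 5))) y).card ≤
          (univ.filter fun y => D p q (w (t - (n + 3))) y).card + 2 := by
        have e1 : ∀ i, n + 2 ≤ i → i + (n + 3) ≤ t →
            (univ.filter fun y => D p q (w i) y).card ≤
              (univ.filter fun y => D p q (w (i + 1)) y).card + 1 := by
          intro i hi1 hi2
          have : (univ.filter fun y => D p q (w i) y) ⊆
              insert (w (i + 2)) (univ.filter fun y => D p q (w (i + 1)) y) := by
            intro y hy
            rw [mem_filter] at hy
            rw [mem_insert, mem_filter]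
            have h7 := h.adj (i := i) (by omega)
            have hne : y ≠ w (i + 1) := by
              rintro rfl
              unfold E V at h7
              have := hy.2
              unfold D at this; omega
            by_cases hyE : E p q y (w (i + 1))
            · rcases hnb (i + 1) (by omega) (by omega) y hyE with h8 | h8
              · rw [show i + 1 - 1 = i by omega] at h8
                rw [h8] at hy
                exact absurd hy.2 (D_irrefl _)
              · left; exact h8
            · right
              refine ⟨mem_univ _, ?_⟩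
              rcases (not_E_iff hp hq hne).1 hyE with h8 | h8
              · exfalso
                have := hy.2
                unfold D at this h8; unfold E V at h7; omega
              · exact h8
          exact (card_le_card this).trans (card_insert_le _ _)
        have e2 := e1 (t - (n + 5)) (by omega) (by omega)
        have e3 := e1 (t - (n + 5) + 1) (by omega) (by omega)
        rw [show t - (n + 5) + 1 + 1 = t - (n + 3) by omega] at e3
        omega
      have h7 : ((univ.filter fun y => D p q (w (t - (n + 5))) y).card : ℤ) ≤
          (d + 1) ^ (n + 5) + 2 := by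
        have : (univ.filter fun y => D p q (w (t - (n + 5))) y).card ≤ (d + 1) ^ (n + 5) + 2 := by
          omega
        exact_mod_cast this
      unfold D at h3
      constructor <;> omega

end Pool.Agent.Helper36.Indec
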