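import Mathlib

/-!
Permutations, containment, permutation classes, direct sums and sum indecomposable permutations.
-/

set_option autoImplicit false

namespace Pool.Agent.Helper36.Indec

/-- The permutation `π` of `Fin n` contains the permutation `σ` of `Fin m`: some subsequence of
`π` is order isomorphic to `σ`. -/
def Contains {m n : ℕ} (π : Equiv.Perm (Fin n)) (σ : Equiv.Perm (Fin m)) : Prop :=
  ∃ f : Fin m → Fin n, StrictMono f ∧ ∀ i j : Fin m, σ i < σ j ↔ π (f i) < π (f j)

/-- A permutation class, given by its set `C n` of members of each length `n`: closed under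
containment. -/
def IsClass (C : ∀ n : ℕ, Set (Equiv.Perm (Fin n))) : Prop :=
  ∀ (m n : ℕ) (π : Equiv.Perm (Fin n)) (σ : Equiv.Perm (Fin m)),
    π ∈ C n → Contains π σ → σ ∈ C m

/-- The direct sum `α ⊕ β`: it sends `i < k` to `α i` and `k + j` to `k + β j`. -/
def dsum {k m : ℕ} (α : Equiv.Perm (Fin k)) (β : Equiv.Perm (Fin m)) :
    Equiv.Perm (Fin (k + m)) :=
  finSumFinEquiv.permCongr (Equiv.Perm.sumCongr α β)

/-- A family of sets of permutations is sum closed. -/
def SumClosed (C : ∀ n : ℕ, Set (Equiv.Perm (Fin n))) : Prop :=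
  ∀ (k m : ℕ) (α : Equiv.Perm (Fin k)) (β : Equiv.Perm (Fin m)),
    α ∈ C k → β ∈ C m → dsum α β ∈ C (k + m)

/-- `π` is sum indecomposable: it is not the direct sum of two nonempty permutations. -/
def Indecomposable {n : ℕ} (π : Equiv.Perm (Fin n)) : Prop :=
  ¬ ∃ (k m : ℕ) (h : k + m = n) (α : Equiv.Perm (Fin k)) (β : Equiv.Perm (Fin m)),
    0 < k ∧ 0 < m ∧ π = (finCongr h).permCongr (dsum α β)

/-- The set of sum indecomposable permutations of length `n` in the class `C`. -/
def ind (C : ∀ n : ℕ, Set (Equiv.Perm (Fin n))) (n : ℕ) : Set (Equiv.Perm (Fin n)) :=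
  {π | π ∈ C n ∧ Indecomposable π}

theorem dsum_castAdd {k m : ℕ} (α : Equiv.Perm (Fin k)) (β : Equiv.Perm (Fin m)) (i : Fin k) :
    dsum α β (Fin.castAdd m i) = Fin.castAdd m (α i) := by
  simp [dsum, Equiv.permCongr_apply]

theorem dsum_natAdd {k m : ℕ} (α : Equiv.Perm (Fin k)) (β : Equiv.Perm (Fin m)) (j : Fin m) :
    dsum α β (Fin.natAdd k j) = Fin.natAdd k (β j) := by
  simp [dsum, Equiv.permCongr_apply]

end Pool.Agent.Helper36.Indec
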