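import Pool.Agent.Helper36.Indec.Fam2

/-!
Structure of point sets which are not rich: long chains give long modules, and a long module has
a bounded complement.
-/

set_option linter.unusedVariables false
set_option linter.unusedSectionVars false

namespace Pool.Agent.Helper36.Indec

open Finset Classical

variable {α : Type} {p q : α → ℤ}

theorem VC.total {S : Finset α} (h : VC p q S) : ∀ x ∈ S, ∀ y ∈ S, x ≠ y → V p q x y ∨ V p q y x :=
  fun x hx y hy hxy => h x hx y hy hxy

theorem DC.total (hp : Function.Injective p) (hq : Function.Injective q) {S : Finset α}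
    (h : DC p q S) : ∀ x ∈ S, ∀ y ∈ S, x ≠ y → D p q x y ∨ D p q y x :=
  fun x hx y hy hxy => (not_E_iff hp hq hxy).1 (h x hx y hy hxy)

/-- the middle part of a maximal decreasing chain is a module -/
theorem md_V (hp : Function.Injective p) (hq : Function.Injective q) {n : ℕ} (hn : 3 ≤ n)
    (hR : ¬ Rich p q n) {T : Finset α} (hT : VC p q T)
    (hmax : ∀ x, x ∉ T → ∃ y ∈ T, ¬ E p q x y) : Md p q (mid (V p q) T (2 * n)) := by
  intro x hx
  by_cases hxT : x ∈ T
  · rcases mid_chain V_trans V_irrefl hT.total hxT hx with h | h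
    · exact Or.inr (Or.inr (Or.inr h))
    · exact Or.inr (Or.inr (Or.inl h))
  · obtain ⟨b, hb, hbE⟩ := hmax x hxT
    have h1 : (T.filter fun c => V p q c x).card < n ∨
        (T.filter fun c => ¬ V p q c x ∧ ¬ V p q x c).card < n := by
      by_contra h
      push Not at h
      apply hR
      refine fam_cutV' hp hq hn (Y := T.filter fun c => V p q c x)
        (B := T.filter fun c => ¬ V p q c x ∧ ¬ V p q x c) (x := x) ?_ ?_ ?_ ?_ h.1 h.2
      · exact hT.mono (union_subset (filter_subset _ _) (filter_subset _ _))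
      · intro y hy; rw [mem_filter] at hy; exact Or.inr hy.2
      · intro y hy; rw [mem_filter] at hy
        unfold E; tauto
      · rw [mem_filter]; tauto
    have h2 : (T.filter fun c => ¬ V p q c x ∧ ¬ V p q x c).card < n ∨
        (T.filter fun c => V p q x c).card < n := by
      by_contra h
      push Not at h
      apply hR
      refine fam_cutV' hp hq hn (Y := T.filter fun c => V p q x c)
        (B := T.filter fun c => ¬ V p q c x ∧ ¬ V p q x c) (x := x) ?_ ?_ ?_ ?_ h.2 h.1
      · exact hT.mono (union_subset (filter_subset _ _) (filter_subset _ _))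
      · intro y hy; rw [mem_filter] at hy; exact Or.inl hy.2
      · intro y hy; rw [mem_filter] at hy
        unfold E; tauto
      · rw [mem_filter]; tauto
    have h3 : (T.filter fun c => V p q c x).card < n ∨
        (T.filter fun c => V p q x c).card < n := by
      by_contra h
      push Not at h
      apply hR
      unfold E at hbE
      exact fam_cutV hp hq hn hT hxT h.1 h.2 hb (by tauto) (by tauto)
    rcases mid_cases V_trans h1 h2 h3 with h | h | h
    · exact Or.inr (Or.inr (Or.inr h))
    · exact Or.inr (Or.inr (Or.inl h))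
    · have hmT : ∀ c ∈ mid (V p q) T (2 * n), c ∈ T := fun c hc => (mem_filter.1 hc).1
      have hD : ∀ c ∈ mid (V p q) T (2 * n), D p q x c ∨ D p q c x := by
        intro c hc
        have hne : x ≠ c := by rintro rfl; exact hxT (hmT _ hc)
        rcases Indec.total hp hq hne with h' | h' | h' | h'
        · exact Or.inl h'
        · exact Or.inr h'
        · exact absurd h' (h c hc).2
        · exact absurd h' (h c hc).1
      by_cases hall : ∀ c ∈ mid (V p q) T (2 * n), D p q x c
      · exact Or.inl hall
      · push Not at hall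
        obtain ⟨c, hc, hc'⟩ := hall
        have hcx := (hD c hc).resolve_left hc'
        right; left
        intro d hd
        rcases hD d hd with h' | h'
        · exfalso
          have hcd := D_trans _ _ _ hcx h'
          have hne : c ≠ d := by rintro rfl; exact D_irrefl _ hcd
          have := hT c (hmT c hc) d (hmT d hd) hne
          unfold E V at this; unfold D at hcd; omega
        · exact h'

/-- the middle part of a maximal increasing chain right-below a point is a module -/
theorem md_D (hp : Function.Injective p) (hq : Function.Injective q) {n : ℕ} (hn : 3 ≤ n)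
    (hR : ¬ Rich p q n) {Z : Finset α} (hZ : DC p q Z) {v : α} (hv : ∀ z ∈ Z, V p q v z)
    (hmax : ∀ x, x ∉ Z → V p q v x → ∃ y ∈ Z, E p q x y) :
    Md p q (mid (D p q) Z (2 * n)) := by
  intro x hx
  have hvZ : v ∉ Z := fun h => V_irrefl _ (hv v h)
  have hmZ : ∀ c ∈ mid (D p q) Z (2 * n), c ∈ Z := fun c hc => (mem_filter.1 hc).1
  by_cases hxZ : x ∈ Z
  · rcases mid_chain D_trans D_irrefl (hZ.total hp hq) hxZ hx with h | h
    · exact Or.inr (Or.inl h)
    · exact Or.inl h
  by_cases hxv : x = v
  · subst hxv
    exact Or.inr (Or.inr (Or.inl fun c hc => hv c (hmZ c hc)))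
  have hB : ∀ c ∈ Z.filter (fun c => ¬ D p q c x ∧ ¬ D p q x c), c ∈ Z ∧ E p q x c := by
    intro c hc
    rw [mem_filter] at hc
    have hne : x ≠ c := by rintro rfl; exact hxZ hc.1
    refine ⟨hc.1, ?_⟩
    by_contra h
    rcases (not_E_iff hp hq hne).1 h with h | h
    · exact hc.2.2 h
    · exact hc.2.1 h
  have hA : ∀ c ∈ Z.filter (fun c => D p q c x), c ∈ Z ∧ D p q c x := by
    intro c hc; rwa [mem_filter] at hc
  have hC : ∀ c ∈ Z.filter (fun c => D p q x c), c ∈ Z ∧ D p q x c := by
    intro c hc; rwa [mem_filter] at hc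
  have pos_mem : ∀ {S : Finset α}, n ≤ S.card → ∃ c, c ∈ S := by
    intro S hS
    have : S.Nonempty := by rw [← card_pos]; omega
    exact this
  have hcase : E p q v x ∨ D p q v x ∨ D p q x v := by
    rcases Indec.total hp hq hxv with h | h | h | h
    · exact Or.inr (Or.inr h)
    · exact Or.inr (Or.inl h)
    · exact Or.inl (Or.inr h)
    · exact Or.inl (Or.inl h)
  -- no element of `A` if `x` is left-below `v`, no element of `C` if right-above
  have hAe : D p q x v → ¬ n ≤ (Z.filter fun c => D p q c x).card := by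
    intro h hn'
    obtain ⟨c, hc⟩ := pos_mem hn'
    have h1 := hv c (hA c hc).1
    have h2 := (hA c hc).2
    unfold D at h h2; unfold V at h1; omega
  have hCe : D p q v x → ¬ n ≤ (Z.filter fun c => D p q x c).card := by
    intro h hn'
    obtain ⟨c, hc⟩ := pos_mem hn'
    have h1 := hv c (hC c hc).1
    have h2 := (hC c hc).2
    unfold D at h h2; unfold V at h1; omega
  have hBV : D p q v x ∨ D p q x v →
      (Z.filter fun c => ¬ D p q c x ∧ ¬ D p q x c) ⊆ Z.filter fun c => V p q x c := by
    intro h c hc
    obtain ⟨h1, h2⟩ := hB c hc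
    rw [mem_filter]
    refine ⟨h1, ?_⟩
    have h3 := hv c h1
    unfold D at h; unfold V at h3; unfold E V at h2; unfold V; omega
  have h1 : (Z.filter fun c => D p q c x).card < n ∨
      (Z.filter fun c => ¬ D p q c x ∧ ¬ D p q x c).card < n := by
    by_contra h
    push Not at h
    apply hR
    rcases hcase with h4 | h4 | h4
    · refine fam_cutD hp hq hn (Y := Z.filter fun c => D p q c x)
        (B := Z.filter fun c => ¬ D p q c x ∧ ¬ D p q x c) (v := v) (x := x) ?_ h4 ?_ ?_ ?_ ?_ ?_
        h.1 h.2
      · exact hZ.mono (union_subset (filter_subset _ _) (filter_subset _ _))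
      · intro y hy; exact Or.inl (hv y (hA y hy).1)
      · intro y hy; exact Or.inl (hv y (hB y hy).1)
      · intro y hy
        have := (hA y hy).2
        unfold E V; unfold D at this; omega
      · intro y hy; exact (hB y hy).2
      · intro h; exact hxZ (hA x h).1
    · apply Rich_neg
      refine fam_cutD'' (inj_neg hq) (inj_neg hp) hn (Z := Z) (v := v) (x := x) (DC_neg.2 hZ)
        (D_neg.2 h4) (fun z hz => V_neg.2 (hv z hz)) ?_ ?_
      · simp only [V_neg]
        exact h.2.trans (card_le_card (hBV (Or.inl h4)))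
      · simp only [D_neg]
        exact h.1
    · exact absurd h.1 (hAe h4)
  have h2 : (Z.filter fun c => ¬ D p q c x ∧ ¬ D p q x c).card < n ∨
      (Z.filter fun c => D p q x c).card < n := by
    by_contra h
    push Not at h
    apply hR
    rcases hcase with h4 | h4 | h4
    · refine fam_cutD hp hq hn (Y := Z.filter fun c => D p q x c)
        (B := Z.filter fun c => ¬ D p q c x ∧ ¬ D p q x c) (v := v) (x := x) ?_ h4 ?_ ?_ ?_ ?_ ?_
        h.2 h.1
      · exact hZ.mono (union_subset (filter_subset _ _) (filter_subset _ _))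
      · intro y hy; exact Or.inl (hv y (hC y hy).1)
      · intro y hy; exact Or.inl (hv y (hB y hy).1)
      · intro y hy
        have := (hC y hy).2
        unfold E V; unfold D at this; omega
      · intro y hy; exact (hB y hy).2
      · intro h; exact hxZ (hC x h).1
    · exact absurd h.2 (hCe h4)
    · exact fam_cutD'' hp hq hn hZ h4 hv (h.1.trans (card_le_card (hBV (Or.inr h4)))) h.2
  have h3 : (Z.filter fun c => D p q c x).card < n ∨
      (Z.filter fun c => D p q x c).card < n := by
    by_contra h
    push Not at h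
    rcases hcase with h4 | h4 | h4
    · have hb : ∃ b ∈ Z, E p q x b := by
        rcases h4 with h5 | h5
        · exact hmax x hxZ h5
        · exfalso
          obtain ⟨c, hc⟩ := pos_mem h.1
          have h6 := hv c (hA c hc).1
          have h7 := (hA c hc).2
          unfold V at h5 h6; unfold D at h7; omega
      obtain ⟨b, hb, hbE⟩ := hb
      exact hR (fam_cutD' hp hq hn hZ h4 (fun z hz => Or.inl (hv z hz)) hxZ hb hbE h.1 h.2)
    · exact hCe h4 h.2
    · exact hAe h4 h.1
  rcases mid_cases D_trans h1 h2 h3 with h | h | h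
  · exact Or.inr (Or.inl h)
  · exact Or.inl h
  · have hD : ∀ c ∈ mid (D p q) Z (2 * n), V p q x c ∨ V p q c x := by
      intro c hc
      have := (hB c (by rw [mem_filter]; exact ⟨hmZ c hc, h c hc⟩)).2
      exact this
    by_cases hall : ∀ c ∈ mid (D p q) Z (2 * n), V p q x c
    · exact Or.inr (Or.inr (Or.inl hall))
    · push Not at hall
      obtain ⟨c, hc, hc'⟩ := hall
      have hcx := (hD c hc).resolve_left hc'
      right; right; right
      intro d hd
      rcases hD d hd with h' | h'
      · exfalso
        have hcd := V_trans _ _ _ hcx h'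
        have hne : c ≠ d := by rintro rfl; exact V_irrefl _ hcd
        exact hZ c (hmZ c hc) d (hmZ d hd) hne (Or.inl hcd)
      · exact h'

/-- maximal elements above a given set -/
theorem exists_max_set [Fintype α] {P : Finset α → Prop} {S : Finset α} (hS : P S) :
    ∃ T, S ⊆ T ∧ P T ∧ ∀ x, x ∉ T → ¬ P (insert x T) := by
  obtain ⟨T, hT, hmax⟩ := exists_max_image (univ.filter fun T => S ⊆ T ∧ P T) card
    ⟨S, by rw [mem_filter]; exact ⟨mem_univ _, Subset.refl _, hS⟩⟩
  rw [mem_filter] at hT
  refine ⟨T, hT.2.1, hT.2.2, fun x hx hP => ?_⟩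
  have := hmax (insert x T) (by
    rw [mem_filter]
    exact ⟨mem_univ _, hT.2.1.trans (subset_insert _ _), hP⟩)
  rw [card_insert_of_notMem hx] at this
  omega

/-- growth of a connected set inside `U` -/
theorem grow_or_closed (p q : α → ℤ) (U : Finset α) (t0 : α) (ht0 : t0 ∉ U) : ∀ N : ℕ, 1 ≤ N →
    (∃ t : ℕ → α, Grow p q t N ∧ t 0 = t0 ∧ ∀ i < N, 0 < i → t i ∈ U) ∨
      ∃ W : Finset α, t0 ∈ W ∧ W.card < N ∧ ∀ u ∈ U, ∀ w ∈ W, E p q u w → u ∈ W := by
  intro N hN
  induction N, hN using Nat.le_induction with
  | base =>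
    left
    refine ⟨fun _ => t0, ⟨fun i hi j hj _ => by omega, fun i hi h => by omega⟩, rfl, ?_⟩
    intro i hi h; omega
  | succ N hN ih =>
    rcases ih with ⟨t, ht, h0, hU⟩ | ⟨W, h1, h2, h3⟩
    · by_cases hc : ∀ u ∈ U, ∀ w ∈ (range N).image t, E p q u w → u ∈ (range N).image t
      · right
        refine ⟨(range N).image t, ?_, ?_, hc⟩
        · rw [← h0]; exact mem_image_of_mem t (mem_range.2 (by omega))
        · rw [ht.card le_rfl]; omega
      · left
        push Not at hc
        obtain ⟨u, hu, w, hw, hE, hnot⟩ := hc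
        obtain ⟨j, hj, rfl⟩ := mem_image.1 hw
        rw [mem_range] at hj
        refine ⟨fun i => if i = N then u else t i, ⟨?_, ?_⟩, ?_, ?_⟩
        · intro i hi k hk hik
          simp only at hik
          split_ifs at hik with e1 e2 e2
          · omega
          · exact absurd (mem_image.2 ⟨k, mem_range.2 (by omega), hik.symm⟩) hnot
          · exact absurd (mem_image.2 ⟨i, mem_range.2 (by omega), hik⟩) hnot
          · exact ht.1 i (by omega) k (by omega) hik
        · intro i hi h
          simp only
          by_cases e1 : i = N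
          · subst e1
            refine ⟨j, hj, ?_⟩
            rw [if_pos rfl, if_neg (by omega)]
            exact hE
          · obtain ⟨k, hk, hE'⟩ := ht.2 i (by omega) h
            refine ⟨k, hk, ?_⟩
            rw [if_neg e1, if_neg (by omega)]
            exact hE'
        · simp only
          rw [if_neg (by omega)]; exact h0
        · intro i hi h
          simp only
          split_ifs with e1
          · exact hu
          · exact hU i (by omega) h
    · right
      exact ⟨W, h1, by omega, h3⟩

/-- connectivity of the whole point set -/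
def Conn [Fintype α] (p q : α → ℤ) : Prop :=
  ∀ Y : Finset α, Y.Nonempty → Y ≠ univ → ∃ y ∈ Y, ∃ z, z ∉ Y ∧ E p q y z

theorem Conn.swap [Fintype α] (h : Conn p q) : Conn q p := by
  intro Y h1 h2
  obtain ⟨y, hy, z, hz, hE⟩ := h Y h1 h2
  exact ⟨y, hy, z, hz, E_swap.2 hE⟩

theorem Conn.neg [Fintype α] (h : Conn p q) : Conn (fun x => -q x) (fun x => -p x) := by
  intro Y h1 h2
  obtain ⟨y, hy, z, hz, hE⟩ := h Y h1 h2
  exact ⟨y, hy, z, hz, E_neg.2 hE⟩

theorem cover [Fintype α] (hconn : Conn p q) {H : Finset α} (hne : H.Nonempty) {U X : Finset α}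
    {W : α → Finset α} (hU : ∀ u ∈ U, ∀ h ∈ H, D p q h u)
    (hX : ∀ x, x ∉ H → (∃ u ∈ U, E p q u x) → x ∈ U ∨ x ∈ X)
    (hW : ∀ x ∈ X, x ∈ W x ∧ ∀ u ∈ U, ∀ w ∈ W x, E p q u w → u ∈ W x) : U ⊆ X.biUnion W := by
  by_contra hnot
  have hY : (U \ X.biUnion W).Nonempty := by
    rw [nonempty_iff_ne_empty]
    intro h
    exact hnot (sdiff_eq_empty_iff_subset.1 h)
  obtain ⟨h0, hh0⟩ := hne
  have hYu : U \ X.biUnion W ≠ univ := by
    intro h
    have : h0 ∈ U \ X.biUnion W := by rw [h]; exact mem_univ _
    exact D_irrefl _ (hU h0 (mem_sdiff.1 this).1 h0 hh0)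
  obtain ⟨y, hy, z, hz, hE⟩ := hconn _ hY hYu
  rw [mem_sdiff] at hy
  by_cases hzH : z ∈ H
  · have := hU y hy.1 z hzH
    unfold E V at hE; unfold D at this; omega
  · rcases hX z hzH ⟨y, hy.1, hE⟩ with h | h
    · have hzW : z ∈ X.biUnion W := by
        by_contra h'
        exact hz (mem_sdiff.2 ⟨h, h'⟩)
      obtain ⟨x, hx, hzx⟩ := mem_biUnion.1 hzW
      exact hy.2 (mem_biUnion.2 ⟨x, hx, (hW x hx).2 y hy.1 z hzx hE⟩)
    · exact hy.2 (mem_biUnion.2 ⟨z, h, (hW z h).2 y hy.1 z (hW z h).1 hE⟩)

end Pool.Agent.Helper36.Indec
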